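import Pool.Agent.Work.MP_6f9fbb_ag.Defs

-- merged part: Pool.Agent.Work.MP_6f9fbb_ag.AS
section
-- merged part: Pool.Agent.Work.MP_6f9fbb_ag.Deriv
section
/-! The derivation `d/dx` on a separable extension of `k(x)` and the Cartier relation. -/

namespace Pool.Agent.Work.MP_6f9fbb_ag

open KaehlerDifferential Polynomial

set_option linter.unusedSectionVars false

variable (k : Type*) [Field k] (E : Type*) [Field E] [Algebra k E] [Algebra (RatFunc k) E]
  [IsScalarTower k (RatFunc k) E] [Algebra.IsSeparable (RatFunc k) E]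

/-- The coordinate function. -/
noncomputable def xx : E := algebraMap (RatFunc k) E RatFunc.X

theorem exists_coord : ∃ φ : Ω[E⁄k] ≃ₗ[E] E, φ (D k E (xx k E)) = 1 := by
  let : Algebra k[X] E := ((algebraMap (RatFunc k) E).comp (algebraMap k[X] (RatFunc k))).toAlgebra
  have : IsScalarTower k[X] (RatFunc k) E := IsScalarTower.of_algebraMap_eq fun _ => rfl
  have : IsScalarTower k k[X] E := IsScalarTower.of_algebraMap_eq fun c => by
    rw [IsScalarTower.algebraMap_apply k (RatFunc k) E,
      IsScalarTower.algebraMap_apply k k[X] (RatFunc k)]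
    rfl
  have : Algebra.FormallyEtale k[X] (RatFunc k) :=
    Algebra.FormallyEtale.of_isLocalization (nonZeroDivisors k[X])
  have : Algebra.FormallyEtale (RatFunc k) E := Algebra.FormallyEtale.of_isSeparable _ _
  have : Algebra.FormallyEtale k[X] E := Algebra.FormallyEtale.comp k[X] (RatFunc k) E
  refine ⟨(tensorKaehlerEquivOfFormallyEtale k k[X] E).symm ≪≫ₗ
    (LinearEquiv.baseChange k[X] E _ _ (polynomialEquiv k)) ≪≫ₗ
    TensorProduct.AlgebraTensorModule.rid k[X] E E, ?_⟩
  have hx : xx k E = algebraMap k[X] E X := by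
    rw [IsScalarTower.algebraMap_apply k[X] (RatFunc k) E, RatFunc.algebraMap_X]; rfl
  rw [hx, LinearEquiv.trans_apply, LinearEquiv.trans_apply,
    tensorKaehlerEquivOfFormallyEtale_symm_D_algebraMap]
  simp

/-- The coefficient of `dx` of a differential form. -/
noncomputable def coord : Ω[E⁄k] ≃ₗ[E] E := (exists_coord k E).choose

theorem coord_Dx : coord k E (D k E (xx k E)) = 1 := (exists_coord k E).choose_spec

/-- The derivation `d/dx`. -/
noncomputable def der : Derivation k E E := (coord k E).toLinearMap.compDer (D k E)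

variable {k E}

theorem coord_D (g : E) : coord k E (D k E g) = der k E g := rfl

theorem der_xx : der k E (xx k E) = 1 := coord_Dx k E

theorem coord_symm (g : E) : (coord k E).symm g = g • D k E (xx k E) := by
  rw [LinearEquiv.symm_apply_eq, map_smul, coord_Dx, smul_eq_mul, mul_one]

theorem D_eq (g : E) : D k E g = der k E g • D k E (xx k E) := by
  rw [← coord_symm, ← coord_D, LinearEquiv.symm_apply_apply]

theorem xx_self : xx k (RatFunc k) = RatFunc.X := rfl

theorem algebraMap_xx : algebraMap (RatFunc k) E (xx k (RatFunc k)) = xx k E := rfl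

theorem der_algebraMap (h : RatFunc k) :
    der k E (algebraMap (RatFunc k) E h) = algebraMap (RatFunc k) E (der k (RatFunc k) h) := by
  have h1 := congrArg (KaehlerDifferential.map k k (RatFunc k) E) (D_eq (k := k) h)
  rw [map_D, map_smul, map_D, algebraMap_xx] at h1
  rw [← coord_D, h1, ← algebraMap_smul E, map_smul, coord_Dx, smul_eq_mul, mul_one]

theorem der_smul (h : RatFunc k) (g : E) :
    der k E (h • g) = der k (RatFunc k) h • g + h • der k E g := by
  rw [Algebra.smul_def h g, Derivation.leibniz, der_algebraMap, Algebra.smul_def h,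
    Algebra.smul_def (der k (RatFunc k) h)]
  simp only [smul_eq_mul]; ring

theorem xx_ne_zero : xx k E ≠ 0 := by
  intro h
  have := der_xx (k := k) (E := E)
  rw [h, map_zero] at this
  exact zero_ne_one this

variable {p : ℕ} [Fact p.Prime] [CharP E p]

theorem der_pow_p (g : E) : der k E (g ^ p) = 0 := by
  rw [Derivation.leibniz_pow, nsmul_eq_mul, CharP.cast_eq_zero, zero_mul]

theorem der_pow_p_mul (g h : E) : der k E (g ^ p * h) = g ^ p * der k E h := by
  rw [Derivation.leibniz, der_pow_p]; simp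

variable (k E) in
/-- Exact forms (coefficients of `dx`). -/
noncomputable def Ex : Submodule k E := LinearMap.range (der k E).toLinearMap

theorem der_mem_Ex (g : E) : der k E g ∈ Ex k E := ⟨g, rfl⟩

theorem Ex_pow_mul (g : E) {h : E} (hh : h ∈ Ex k E) : g ^ p * h ∈ Ex k E := by
  obtain ⟨u, rfl⟩ := hh
  exact ⟨g ^ p * u, der_pow_p_mul g u⟩

theorem natCast_ne_zero_of_lt {n : ℕ} (h0 : n ≠ 0) (hn : n < p) : (n : E) ≠ 0 := by
  rw [Ne, CharP.cast_eq_zero_iff E p]
  exact fun h => absurd (Nat.le_of_dvd (Nat.pos_of_ne_zero h0) h) (by omega)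

theorem factorial_ne_zero_of_lt {n : ℕ} (hn : n < p) : ((n.factorial : ℕ) : E) ≠ 0 := by
  rw [Ne, CharP.cast_eq_zero_iff E p, (Fact.out : p.Prime).dvd_factorial]
  omega

theorem pow_mul_der_mem_Ex (z : E) {n : ℕ} (hn : n + 1 < p) : z ^ n * der k E z ∈ Ex k E := by
  have h1 : ((n + 1 : ℕ) : E) ≠ 0 := natCast_ne_zero_of_lt (p := p) (by omega) hn
  refine ⟨(((n + 1 : ℕ) : E)⁻¹) ^ p * z ^ (n + 1), ?_⟩
  have h2 : ((n + 1 : ℕ) : E) ^ p = ((n + 1 : ℕ) : E) := by
    rw [← frobenius_def, map_natCast]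
  show der k E _ = _
  rw [der_pow_p_mul, Derivation.leibniz_pow, inv_pow, h2]
  simp only [Nat.add_sub_cancel, smul_eq_mul, nsmul_eq_mul]
  field_simp

variable (k p) in
/-- The inverse Cartier operator on coefficients of `dx`. -/
noncomputable def gam (η : E) : E := η ^ p * xx k E ^ (p - 1)

theorem gam_add (a b : E) : gam k p (a + b) = gam k p a + gam k p b := by
  simp only [gam, add_pow_char, add_mul]

theorem gam_zero : gam k p (0 : E) = 0 := by
  simp [gam, (Fact.out : p.Prime).ne_zero]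

theorem gam_neg (a : E) : gam k p (-a) = -gam k p a := by
  have := gam_add (k := k) (p := p) a (-a)
  rw [add_neg_cancel, gam_zero] at this
  linear_combination -this

theorem gam_sub (a b : E) : gam k p (a - b) = gam k p a - gam k p b := by
  rw [sub_eq_add_neg, gam_add, gam_neg, sub_eq_add_neg]

theorem gam_mul (a b : E) : gam k p (a * b) = a ^ p * gam k p b := by
  simp only [gam, mul_pow, mul_assoc]

theorem gam_algebraMap [CharP (RatFunc k) p] (h : RatFunc k) :
    gam k p (algebraMap (RatFunc k) E h) = algebraMap (RatFunc k) E (gam k p h) := by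
  simp only [gam, map_mul, map_pow, algebraMap_xx]

theorem Ex_algebraMap {h : RatFunc k} (hh : h ∈ Ex k (RatFunc k)) :
    algebraMap (RatFunc k) E h ∈ Ex k E := by
  obtain ⟨u, rfl⟩ := hh
  exact ⟨algebraMap _ _ u, der_algebraMap u⟩

variable (k E p) in
/-- The forms fixed by the Cartier operator. -/
noncomputable def Fix : AddSubgroup E where
  carrier := {η | η - gam k p η ∈ Ex k E}
  add_mem' := by
    intro a b ha hb
    have := (Ex k E).add_mem ha hb
    show a + b - gam k p (a + b) ∈ Ex k E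
    rw [gam_add]; convert this using 1; abel
  zero_mem' := by
    show (0 : E) - gam k p 0 ∈ Ex k E
    rw [gam_zero, sub_zero]; exact zero_mem _
  neg_mem' := by
    intro a ha
    have := (Ex k E).neg_mem ha
    show -a - gam k p (-a) ∈ Ex k E
    rw [gam_neg]; convert this using 1; abel

variable (k) in
/-- The logarithmic derivative. -/
noncomputable def dlog (z : E) : E := der k E z / z

theorem dlog_mul {a b : E} (ha : a ≠ 0) (hb : b ≠ 0) : dlog k (a * b) = dlog k a + dlog k b := by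
  simp only [dlog, Derivation.leibniz, smul_eq_mul]; field_simp; ring

theorem dlog_one : dlog k (1 : E) = 0 := by simp [dlog]

theorem dlog_inv (a : E) : dlog k a⁻¹ = -dlog k a := by
  by_cases ha : a = 0
  · simp [ha, dlog]
  · have := dlog_mul (k := k) ha (inv_ne_zero ha)
    rw [mul_inv_cancel₀ ha, dlog_one] at this
    linear_combination -this

theorem dlog_pow (a : E) (n : ℕ) : dlog k (a ^ n) = n • dlog k a := by
  by_cases ha : a = 0
  · rcases n with _ | n <;> simp [ha, dlog]
  · induction n with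
    | zero => simp [dlog_one]
    | succ n ih => rw [pow_succ, dlog_mul (pow_ne_zero _ ha) ha, ih, succ_nsmul]

theorem dlog_const (c : k) : dlog k (algebraMap k E c) = 0 := by simp [dlog]

theorem dlog_algebraMap (h : RatFunc k) :
    dlog k (algebraMap (RatFunc k) E h) = algebraMap (RatFunc k) E (dlog k h) := by
  simp only [dlog, der_algebraMap, map_div₀]

theorem Fix_algebraMap [CharP (RatFunc k) p] {h : RatFunc k} (hh : h ∈ Fix k (RatFunc k) p) :
    algebraMap (RatFunc k) E h ∈ Fix k E p := by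
  show _ - gam k p _ ∈ Ex k E
  rw [gam_algebraMap, ← map_sub]
  exact Ex_algebraMap hh

end Pool.Agent.Work.MP_6f9fbb_ag
end

-- merged part: Pool.Agent.Work.MP_6f9fbb_ag.Cartier
section
/-! The Cartier operator on coefficients of `dx`. -/

namespace Pool.Agent.Work.MP_6f9fbb_ag

open KaehlerDifferential Polynomial

set_option linter.unusedSectionVars false

section Dec

variable {E : Type*} [Field E] (p : ℕ) [Fact p.Prime] [CharP E p]

/-- Elements of the form `sum h_i ^ p z ^ i`. -/
def DecA (z : E) : AddSubgroup E where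
  carrier := {g | ∃ h : ℕ → E, g = ∑ i ∈ Finset.range p, h i ^ p * z ^ i}
  add_mem' := by
    rintro _ _ ⟨h, rfl⟩ ⟨h', rfl⟩
    exact ⟨h + h', by simp [add_pow_char, add_mul, Finset.sum_add_distrib]⟩
  zero_mem' := ⟨0, by simp [(Fact.out : p.Prime).ne_zero]⟩
  neg_mem' := by
    rintro _ ⟨h, rfl⟩
    refine ⟨-h, ?_⟩
    rw [← Finset.sum_neg_distrib]
    refine Finset.sum_congr rfl fun i _ => ?_
    rw [Pi.neg_apply, ← frobenius_def p (-h i), ← frobenius_def p (h i), map_neg, neg_mul]

variable {p}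

theorem mono_mem_DecA (z h : E) (n : ℕ) : h ^ p * z ^ n ∈ DecA p z := by
  have hp : 0 < p := (Fact.out : p.Prime).pos
  refine ⟨fun j => if j = n % p then h * z ^ (n / p) else 0, ?_⟩
  rw [Finset.sum_eq_single (n % p)]
  · simp only [if_true, mul_pow, ← pow_mul, mul_assoc, ← pow_add]
    congr 2
    rw [mul_comm]; exact (Nat.div_add_mod n p).symm
  · intro j _ hj
    simp [hj, hp.ne']
  · intro h
    exact absurd (Finset.mem_range.mpr (Nat.mod_lt _ hp)) h

variable (p) in
/-- The same set as a subring. -/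
def Dec (z : E) : Subring E :=
  { DecA p z with
    one_mem' := by simpa using mono_mem_DecA (p := p) z 1 0
    mul_mem' := by
      rintro _ _ ⟨h, rfl⟩ ⟨h', rfl⟩
      rw [Finset.sum_mul_sum]
      refine (DecA p z).sum_mem fun i _ => (DecA p z).sum_mem fun j _ => ?_
      have := mono_mem_DecA (p := p) z (h i * h' j) (i + j)
      convert this using 1
      ring }

theorem pow_mem_Dec (z h : E) : h ^ p ∈ Dec p z := by
  have := mono_mem_DecA (p := p) z h 0
  rw [pow_zero, mul_one] at this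
  exact this

theorem self_mem_Dec (z : E) : z ∈ Dec p z := by
  have := mono_mem_DecA (p := p) z 1 1
  rw [one_pow, one_mul, pow_one] at this
  exact this

theorem inv_mem_Dec {z g : E} (hg : g ∈ Dec p z) : g⁻¹ ∈ Dec p z := by
  by_cases h0 : g = 0
  · rw [h0, inv_zero]; exact zero_mem _
  · have : g⁻¹ = (g⁻¹) ^ p * g ^ (p - 1) := by
      obtain ⟨q, hq⟩ : ∃ q, p = q + 1 := ⟨p - 1, by have := (Fact.out : p.Prime).pos; omega⟩
      rw [hq, Nat.add_sub_cancel, pow_succ', mul_assoc, ← mul_pow, inv_mul_cancel₀ h0]; simp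
    rw [this]
    exact mul_mem (pow_mem_Dec _ _) (pow_mem hg _)

end Dec

variable {k : Type*} [Field k] [IsAlgClosed k]

theorem ratFunc_induction (P : RatFunc k → Prop) (h1 : ∀ c : k, c ≠ 0 → P (RatFunc.C c))
    (h2 : ∀ c : k, P (RatFunc.X - RatFunc.C c))
    (h3 : ∀ a b, a ≠ 0 → b ≠ 0 → P a → P b → P (a * b)) (h4 : ∀ a, a ≠ 0 → P a → P a⁻¹)
    (h : RatFunc k) (h0 : h ≠ 0) : P h := by
  have hpoly : ∀ u : k[X], u ≠ 0 → P (algebraMap k[X] (RatFunc k) u) := by
    intro u hu
    have hm : ∀ s : Multiset k,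
        P (algebraMap k[X] (RatFunc k) (s.map fun a => X - C a).prod) := by
      intro s
      induction s using Multiset.induction_on with
      | empty => simpa using h1 1 one_ne_zero
      | cons a s ih =>
        rw [Multiset.map_cons, Multiset.prod_cons, map_mul]
        refine h3 _ _ ?_ ?_ (by simpa using h2 a) ih
        · exact RatFunc.algebraMap_ne_zero (X_sub_C_ne_zero a)
        · exact RatFunc.algebraMap_ne_zero (monic_multiset_prod_of_monic _ _
            fun a _ => monic_X_sub_C a).ne_zero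
    rw [(IsAlgClosed.splits u).eq_prod_roots, map_mul]
    refine h3 _ _ ?_ ?_ (by simpa using h1 _ (leadingCoeff_ne_zero.mpr hu)) (hm _)
    · exact RatFunc.algebraMap_ne_zero (C_ne_zero.mpr (leadingCoeff_ne_zero.mpr hu))
    · exact RatFunc.algebraMap_ne_zero (monic_multiset_prod_of_monic _ _
        fun a _ => monic_X_sub_C a).ne_zero
  rw [← RatFunc.num_div_denom h, div_eq_mul_inv]
  have hn := RatFunc.num_ne_zero h0
  have hd := RatFunc.denom_ne_zero h
  exact h3 _ _ (RatFunc.algebraMap_ne_zero hn) (inv_ne_zero (RatFunc.algebraMap_ne_zero hd))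
    (hpoly _ hn) (h4 _ (RatFunc.algebraMap_ne_zero hd) (hpoly _ hd))

variable {E : Type*} [Field E] [Algebra k E] [Algebra (RatFunc k) E]
  [IsScalarTower k (RatFunc k) E] [Algebra.IsSeparable (RatFunc k) E]
  {p : ℕ} [Fact p.Prime] [CharP E p]

theorem const_eq_pow (c : k) : ∃ w : E, algebraMap k E c = w ^ p := by
  obtain ⟨z, hz⟩ := IsAlgClosed.exists_pow_nat_eq c (n := p) (Fact.out : p.Prime).pos
  exact ⟨algebraMap k E z, by rw [← map_pow, hz]⟩

theorem algebraMap_C' (c : k) : algebraMap (RatFunc k) E (RatFunc.C c) = algebraMap k E c := by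
  rw [IsScalarTower.algebraMap_apply k (RatFunc k) E]; rfl

theorem Dec_top {z : E} (hz : xx k E ∈ Dec p z) (g : E) : g ∈ Dec p z := by
  have hc : ∀ c : k, algebraMap k E c ∈ Dec p z := fun c => by
    obtain ⟨w, hw⟩ := const_eq_pow (E := E) (p := p) c
    rw [hw]; exact pow_mem_Dec _ _
  have hL : ∀ h : RatFunc k, algebraMap (RatFunc k) E h ∈ Dec p z := by
    intro h
    by_cases h0 : h = 0
    · rw [h0, map_zero]; exact zero_mem _
    refine ratFunc_induction (fun h => algebraMap (RatFunc k) E h ∈ Dec p z) ?_ ?_ ?_ ?_ h h0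
    · intro c _
      simpa only [algebraMap_C'] using hc c
    · intro c
      simp only [map_sub, algebraMap_C']
      exact sub_mem hz (hc c)
    · intro a b _ _ ha hb
      simp only [map_mul]
      exact mul_mem ha hb
    · intro a _ ha
      simp only [map_inv₀]
      exact inv_mem_Dec ha
  let S : Subalgebra (RatFunc k) E := { Dec p z with algebraMap_mem' := hL }
  have : CharP (RatFunc k) p := (algebraMap (RatFunc k) E).charP (algebraMap (RatFunc k) E).injective p
  have : ExpChar (RatFunc k) p := ExpChar.prime Fact.out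
  have h1 := IntermediateField.adjoin_simple_eq_adjoin_pow_expChar_of_isSeparable' (RatFunc k) E g p
  have h2 : g ∈ IntermediateField.adjoin (RatFunc k) {g ^ p} :=
    h1 ▸ IntermediateField.mem_adjoin_simple_self _ g
  have h3 : g ∈ Algebra.adjoin (RatFunc k) {g ^ p} := by
    rw [← IntermediateField.adjoin_simple_toSubalgebra_of_isAlgebraic
      (Algebra.IsAlgebraic.isAlgebraic _)]
    exact h2
  have h4 : Algebra.adjoin (RatFunc k) {g ^ p} ≤ S :=
    Algebra.adjoin_le (Set.singleton_subset_iff.mpr (pow_mem_Dec z g))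
  exact h4 h3

theorem der_pow_iter (h : E) (i m : ℕ) :
    ((der k E).toLinearMap ^ m) (h ^ p * xx k E ^ i) =
      (i.descFactorial m : E) * (h ^ p * xx k E ^ (i - m)) := by
  induction m with
  | zero => simp
  | succ m ih =>
    rw [pow_succ', Module.End.mul_apply, ih, ← nsmul_eq_mul, map_nsmul]
    show _ • der k E _ = _
    rw [der_pow_p_mul, Derivation.leibniz_pow, der_xx, Nat.descFactorial_succ]
    simp only [smul_eq_mul, nsmul_eq_mul, Nat.cast_mul, Nat.sub_sub]
    ring

theorem eq_zero_of_gam_mem {η : E} (h : gam k p η ∈ Ex k E) : η = 0 := by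
  have hp := (Fact.out : p.Prime).pos
  obtain ⟨g, hg⟩ := h
  obtain ⟨u, rfl⟩ := Dec_top (k := k) (p := p) (self_mem_Dec (xx k E)) g
  have h1 := congrArg ((der k E).toLinearMap ^ (p - 1)) hg
  rw [← Module.End.mul_apply, ← pow_succ, Nat.sub_add_cancel hp, map_sum, gam, der_pow_iter,
    Finset.sum_eq_zero, Nat.descFactorial_self] at h1
  · have h2 := factorial_ne_zero_of_lt (E := E) (p := p) (n := p - 1) (by omega)
    simpa [h2, hp.ne'] using h1.symm
  · intro i hi
    rw [der_pow_iter, Nat.descFactorial_eq_zero_iff_lt.mpr (Finset.mem_range.mp hi)]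
    simp

theorem sum_sub_gam_mem (h : ℕ → E) :
    (∑ i ∈ Finset.range p, h i ^ p * xx k E ^ i) - gam k p (h (p - 1)) ∈ Ex k E := by
  have hp := (Fact.out : p.Prime).pos
  have : Finset.range p = Finset.range (p - 1 + 1) := by rw [Nat.sub_add_cancel hp]
  rw [this, Finset.sum_range_succ, gam, add_sub_cancel_right]
  refine Submodule.sum_mem _ fun i hi => Ex_pow_mul _ ?_
  have := pow_mul_der_mem_Ex (k := k) (p := p) (xx k E) (n := i) (by
    have := Finset.mem_range.mp hi; omega)
  rwa [der_xx, mul_one] at this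

theorem exists_car (w : E) : ∃ η, w - gam k p η ∈ Ex k E := by
  obtain ⟨u, rfl⟩ := Dec_top (k := k) (p := p) (self_mem_Dec (xx k E)) w
  exact ⟨_, sum_sub_gam_mem u⟩

variable (k p) in
/-- The Cartier operator on coefficients of `dx`. -/
noncomputable def car (w : E) : E := (exists_car (k := k) (p := p) w).choose

theorem car_spec (w : E) : w - gam k p (car k p w) ∈ Ex k E :=
  (exists_car (k := k) (p := p) w).choose_spec

theorem car_eq {w η : E} (h : w - gam k p η ∈ Ex k E) : car k p w = η := by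
  have := (Ex k E).sub_mem h (car_spec (p := p) w)
  rw [sub_sub_sub_cancel_left, ← gam_sub] at this
  exact sub_eq_zero.mp (eq_zero_of_gam_mem this)

theorem car_add (a b : E) : car k p (a + b) = car k p a + car k p b := by
  apply car_eq
  have := (Ex k E).add_mem (car_spec (p := p) a) (car_spec (p := p) b)
  rw [gam_add]; convert this using 1; abel

theorem car_of_mem {a : E} (h : a ∈ Ex k E) : car k p a = 0 :=
  car_eq (by rwa [gam_zero, sub_zero])

theorem car_zero : car k p (0 : E) = 0 := car_of_mem (zero_mem _)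

theorem car_neg (a : E) : car k p (-a) = -car k p a := by
  have := car_add (k := k) (p := p) a (-a)
  rw [add_neg_cancel, car_zero] at this
  linear_combination -this

theorem car_sub (a b : E) : car k p (a - b) = car k p a - car k p b := by
  rw [sub_eq_add_neg, car_add, car_neg, sub_eq_add_neg]

theorem car_gam (a : E) : car k p (gam k p a) = a := car_eq (by simp)

theorem car_pow_mul (a b : E) : car k p (a ^ p * b) = a * car k p b := by
  apply car_eq
  rw [gam_mul, ← mul_sub]
  exact Ex_pow_mul _ (car_spec b)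

theorem car_algebraMap [CharP (RatFunc k) p] (h : RatFunc k) :
    car k p (algebraMap (RatFunc k) E h) = algebraMap (RatFunc k) E (car k p h) := by
  apply car_eq
  rw [gam_algebraMap, ← map_sub]
  exact Ex_algebraMap (car_spec h)

theorem isCartier_iff (w w' : Ω[E⁄k]) :
    IsCartier k p (xx k E) w w' ↔ w' = (coord k E).symm (car k p (coord k E w)) := by
  constructor
  · rintro ⟨h, rfl, rfl⟩
    rw [← coord_symm, ← coord_symm, LinearEquiv.apply_symm_apply, car_eq (sum_sub_gam_mem h)]
  · rintro rfl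
    obtain ⟨u, hu⟩ := Dec_top (k := k) (p := p) (self_mem_Dec (xx k E)) (coord k E w)
    refine ⟨u, ?_, ?_⟩
    · rw [← coord_symm, ← hu, LinearEquiv.symm_apply_apply]
    · rw [← coord_symm, hu, car_eq (sum_sub_gam_mem u)]

theorem add_pow_sub_mem_Ex (z w : E) :
    ((z + w ^ p) ^ (p - 1) - z ^ (p - 1)) * der k E z ∈ Ex k E := by
  have hp := (Fact.out : p.Prime).pos
  rw [add_pow, Finset.sum_range_succ]
  simp only [Nat.sub_self, pow_zero, Nat.choose_self, Nat.cast_one, mul_one, add_sub_cancel_right,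
    Finset.sum_mul]
  refine Submodule.sum_mem _ fun i hi => ?_
  have h1 := Ex_pow_mul (p := p) (w ^ (p - 1 - i) * ((p - 1).choose i : E))
    (pow_mul_der_mem_Ex (k := k) (p := p) z (n := i) (by have := Finset.mem_range.mp hi; omega))
  have h2 : (((p - 1).choose i : ℕ) : E) ^ p = ((p - 1).choose i : E) := by
    rw [← frobenius_def, map_natCast]
  convert h1 using 1
  rw [mul_pow, h2]; ring

theorem dlog_mem_Fix_iff {z : E} (hz : z ≠ 0) :
    dlog k z ∈ Fix k E p ↔ z ^ (p - 1) * der k E z - gam k p (der k E z) ∈ Ex k E := by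
  have hp := (Fact.out : p.Prime).pos
  have h1 : z ^ (p - 1) * der k E z - gam k p (der k E z) =
      z ^ p * (dlog k z - gam k p (dlog k z)) := by
    rw [mul_sub, ← gam_mul, dlog, mul_div_cancel₀ _ hz]
    have : z ^ p = z ^ (p - 1) * z := by rw [← pow_succ, Nat.sub_add_cancel hp]
    rw [this, mul_assoc, mul_div_cancel₀ _ hz]
  rw [h1]
  refine ⟨fun h => Ex_pow_mul _ h, fun h => ?_⟩
  have := Ex_pow_mul (p := p) z⁻¹ h
  rwa [← mul_assoc, ← mul_pow, inv_mul_cancel₀ hz, one_pow, one_mul] at this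

theorem dlog_mem_Fix_L [CharP (RatFunc k) p] (h : RatFunc k) :
    dlog k h ∈ Fix k (RatFunc k) p := by
  by_cases h0 : h = 0
  · rw [h0, dlog, div_zero]; exact zero_mem _
  refine ratFunc_induction (fun h => dlog k h ∈ Fix k (RatFunc k) p) ?_ ?_ ?_ ?_ h h0
  · intro c _
    have := dlog_const (E := RatFunc k) c
    simp only [RatFunc.algebraMap_eq_C] at this
    simp only [this]; exact zero_mem _
  · intro c
    have hz : (RatFunc.X - RatFunc.C c : RatFunc k) ≠ 0 := by
      simpa using RatFunc.algebraMap_ne_zero (X_sub_C_ne_zero c)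
    have hd : der k (RatFunc k) (RatFunc.X - RatFunc.C c) = 1 := by
      rw [map_sub, ← RatFunc.algebraMap_eq_C, Derivation.map_algebraMap, ← xx_self, der_xx, sub_zero]
    rw [dlog_mem_Fix_iff hz]
    obtain ⟨w, hw⟩ := const_eq_pow (E := RatFunc k) (p := p) c
    have := (Ex k (RatFunc k)).neg_mem (add_pow_sub_mem_Ex (k := k) (p := p) (RatFunc.X - RatFunc.C c) w)
    rw [← hw, RatFunc.algebraMap_eq_C, sub_add_cancel, hd] at this
    convert this using 1
    rw [hd, gam, xx_self]; ring
  · intro a b ha hb h1 h2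
    simp only [dlog_mul ha hb]
    exact add_mem h1 h2
  · intro a _ h1
    simp only [dlog_inv]
    exact neg_mem h1

end Pool.Agent.Work.MP_6f9fbb_ag
end

-- merged part: Pool.Agent.Work.MP_6f9fbb_ag.Base
section
/-! Places of the rational function field: valuations, filtrations, local expansions. -/

namespace Pool.Agent.Work.MP_6f9fbb_ag

open Polynomial WithZero IsDedekindDomain

set_option linter.unusedSectionVars false

variable {k : Type*} [Field k]

/-- The prime ideal of a finite place. -/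
noncomputable def primeAt (c : k) : HeightOneSpectrum k[X] where
  asIdeal := Ideal.span {X - C c}
  isPrime := by
    rw [Ideal.span_singleton_prime (X_sub_C_ne_zero c)]; exact prime_X_sub_C c
  ne_bot := by rw [ne_eq, Ideal.span_singleton_eq_bot]; exact X_sub_C_ne_zero c

open Classical in
/-- The valuation at a place. -/
noncomputable def vv : Option k → Valuation (RatFunc k) ℤᵐ⁰
  | none => RatFunc.inftyValuation k
  | some c => (primeAt c).valuation (RatFunc k)

/-- The uniformizer at a place. -/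
noncomputable def tt : Option k → RatFunc k
  | none => RatFunc.X⁻¹
  | some c => RatFunc.X - RatFunc.C c

theorem X_sub_ne (c : k) : (RatFunc.X - RatFunc.C c : RatFunc k) ≠ 0 := by
  simpa using RatFunc.algebraMap_ne_zero (X_sub_C_ne_zero c)

theorem tt_ne (c : Option k) : tt c ≠ 0 := by
  cases c with
  | none => exact inv_ne_zero RatFunc.X_ne_zero
  | some c => exact X_sub_ne c

theorem vv_poly (c : k) (u : k[X]) : vv (some c) (algebraMap k[X] (RatFunc k) u) ≤ 1 :=
  HeightOneSpectrum.valuation_le_one _ u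

theorem vv_tt (c : Option k) : vv c (tt c) = exp (-1) := by
  classical
  cases c with
  | none =>
    show RatFunc.inftyValuation k RatFunc.X⁻¹ = _
    rw [map_inv₀, RatFunc.inftyValuation.X, exp_neg]
  | some c =>
    have : (RatFunc.X - RatFunc.C c : RatFunc k) = algebraMap k[X] (RatFunc k) (X - C c) := by simp
    show (primeAt c).valuation (RatFunc k) (RatFunc.X - RatFunc.C c) = _
    rw [this, HeightOneSpectrum.valuation_of_algebraMap,
      HeightOneSpectrum.intValuation_singleton _ (X_sub_C_ne_zero c) rfl]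

theorem vv_C (c : Option k) {a : k} (ha : a ≠ 0) : vv c (RatFunc.C a) = 1 := by
  classical
  cases c with
  | none => exact RatFunc.inftyValuation.C k ha
  | some c =>
    have h1 := vv_poly c (C a)
    have h2 := vv_poly c (C a⁻¹)
    rw [RatFunc.algebraMap_C] at h1 h2
    rw [map_inv₀, map_inv₀] at h2
    have h0 : vv (some c) (RatFunc.C a) ≠ 0 := by simpa using ha
    exact le_antisymm h1 ((inv_le_one₀ (zero_lt_iff.mpr h0)).mp h2)

theorem vv_C_le (c : Option k) (a : k) : vv c (RatFunc.C a) ≤ 1 := by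
  by_cases ha : a = 0
  · simp [ha]
  · exact (vv_C c ha).le

/-- The filtration by the order of vanishing. -/
noncomputable def Fil (c : Option k) (l : ℤ) : Submodule k (RatFunc k) where
  carrier := {h | vv c h ≤ exp (-l)}
  add_mem' := fun ha hb => (vv c).map_add_le ha hb
  zero_mem' := by simp
  smul_mem' := by
    intro a h hh
    show vv c (a • h) ≤ _
    rw [RatFunc.smul_eq_C_mul, map_mul]
    exact (mul_le_of_le_one_left' (vv_C_le c a)).trans hh

variable {c : Option k}

theorem mem_Fil {l : ℤ} {h : RatFunc k} : h ∈ Fil c l ↔ vv c h ≤ exp (-l) := Iff.rfl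

theorem Fil_mono {l l' : ℤ} {h : RatFunc k} (hh : h ∈ Fil c l) (hl : l' ≤ l) : h ∈ Fil c l' :=
  le_trans hh (exp_le_exp.mpr (by omega))

theorem Fil_mul {l l' m : ℤ} {h g : RatFunc k} (hh : h ∈ Fil c l) (hg : g ∈ Fil c l')
    (hm : m ≤ l + l') : h * g ∈ Fil c m := by
  rw [mem_Fil, map_mul]
  refine (mul_le_mul' hh hg).trans ?_
  rw [← exp_add, exp_le_exp]; omega

theorem C_mem_Fil (a : k) : RatFunc.C a ∈ Fil c 0 := by
  rw [mem_Fil, neg_zero, exp_zero]; exact vv_C_le c a

theorem one_mem_Fil : (1 : RatFunc k) ∈ Fil c 0 := by simpa using C_mem_Fil (c := c) 1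

theorem intCast_mem_Fil (n : ℤ) : (n : RatFunc k) ∈ Fil c 0 := by
  simpa using C_mem_Fil (c := c) (n : k)

theorem Fil_pow {l : ℤ} {h : RatFunc k} (hh : h ∈ Fil c l) (n : ℕ) : h ^ n ∈ Fil c (n * l) := by
  induction n with
  | zero => simpa using one_mem_Fil
  | succ n ih => rw [pow_succ]; exact Fil_mul ih hh (by push_cast; linarith)

theorem vv_tt_zpow (l : ℤ) : vv c (tt c ^ l) = exp (-l) := by
  rw [map_zpow₀, vv_tt, ← exp_zsmul]; simp

theorem tt_zpow_mem (l : ℤ) : tt c ^ l ∈ Fil c l := (vv_tt_zpow l).le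

theorem tt_mem : tt c ∈ Fil c 1 := by simpa using tt_zpow_mem (c := c) 1

theorem tt_inv_mem : (tt c)⁻¹ ∈ Fil c (-1) := by simpa using tt_zpow_mem (c := c) (-1)

/-- Exact order. -/
def HasOrd (c : Option k) (l : ℤ) (h : RatFunc k) : Prop := vv c h = exp (-l)

theorem HasOrd.mem {l : ℤ} {h : RatFunc k} (hh : HasOrd c l h) : h ∈ Fil c l := hh.le

theorem HasOrd.ne {l : ℤ} {h : RatFunc k} (hh : HasOrd c l h) : h ≠ 0 := by
  rintro rfl
  exact exp_ne_zero (hh.symm.trans (map_zero _))

theorem HasOrd.le {l m : ℤ} {h : RatFunc k} (hh : HasOrd c l h) (hm : h ∈ Fil c m) : m ≤ l := by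
  rw [mem_Fil, hh, exp_le_exp] at hm; omega

theorem HasOrd.mul {l m : ℤ} {h g : RatFunc k} (hh : HasOrd c l h) (hg : HasOrd c m g) :
    HasOrd c (l + m) (h * g) := by
  unfold HasOrd at *
  rw [map_mul, hh, hg, ← exp_add]; congr 1; ring

theorem HasOrd.inv {l : ℤ} {h : RatFunc k} (hh : HasOrd c l h) : HasOrd c (-l) h⁻¹ := by
  unfold HasOrd at *
  rw [map_inv₀, hh, ← exp_neg]

theorem HasOrd.neg {l : ℤ} {h : RatFunc k} (hh : HasOrd c l h) : HasOrd c l (-h) := by
  unfold HasOrd at *
  rw [Valuation.map_neg, hh]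

theorem HasOrd.zpow {l : ℤ} {h : RatFunc k} (hh : HasOrd c l h) (n : ℤ) :
    HasOrd c (n * l) (h ^ n) := by
  unfold HasOrd at *
  rw [map_zpow₀, hh, ← exp_zsmul]; congr 1; simp

theorem HasOrd.pow {l : ℤ} {h : RatFunc k} (hh : HasOrd c l h) (n : ℕ) :
    HasOrd c (n * l) (h ^ n) := by simpa using hh.zpow n

theorem HasOrd.add {l : ℤ} {h g : RatFunc k} (hh : HasOrd c l h) (hg : g ∈ Fil c (l + 1)) :
    HasOrd c l (h + g) := by
  unfold HasOrd at *
  rw [← hh]
  apply Valuation.map_add_eq_of_lt_left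
  rw [hh]
  exact lt_of_le_of_lt hg (exp_lt_exp.mpr (by omega))

theorem HasOrd.cast {l m : ℤ} {h : RatFunc k} (hh : HasOrd c l h) (e : l = m) : HasOrd c m h :=
  e ▸ hh

theorem hasOrd_C {a : k} (ha : a ≠ 0) : HasOrd c 0 (RatFunc.C a) := by
  simpa [HasOrd] using vv_C c ha

theorem hasOrd_one : HasOrd c 0 (1 : RatFunc k) := by simp [HasOrd]

theorem hasOrd_tt : HasOrd c 1 (tt c) := vv_tt c

theorem hasOrd_tt_zpow (l : ℤ) : HasOrd c l (tt c ^ l) := vv_tt_zpow l

theorem exists_hasOrd (c : Option k) {h : RatFunc k} (hh : h ≠ 0) : ∃ l, HasOrd c l h := by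
  have : vv c h ≠ 0 := by simpa using hh
  exact ⟨-log (vv c h), by simp [HasOrd, exp_log this]⟩

theorem exists_mem_Fil (c : Option k) (h : RatFunc k) : ∃ l, h ∈ Fil c l := by
  by_cases hh : h = 0
  · exact ⟨0, hh ▸ zero_mem _⟩
  · obtain ⟨l, hl⟩ := exists_hasOrd c hh
    exact ⟨l, hl.mem⟩

theorem hasOrd_or {l : ℤ} {h : RatFunc k} (hh : h ∈ Fil c l) : HasOrd c l h ∨ h ∈ Fil c (l + 1) := by
  by_cases h0 : h = 0
  · right; rw [h0]; exact zero_mem _
  obtain ⟨m, hm⟩ := exists_hasOrd c h0
  rcases (hm.le hh).eq_or_lt with rfl | h1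
  · exact Or.inl hm
  · exact Or.inr (Fil_mono hm.mem h1)

/-- The order of `dlog t / dx`. -/
def ep : Option k → ℤ
  | none => 1
  | some _ => -1

/-- The coefficient of `dlog t`. -/
noncomputable def dl (c : Option k) : RatFunc k := dlog k (tt c)

theorem der_X : der k (RatFunc k) RatFunc.X = 1 := der_xx

theorem der_C (a : k) : der k (RatFunc k) (RatFunc.C a) = 0 :=
  Derivation.map_algebraMap _ a

theorem dlog_X_sub (a : k) :
    dlog k (RatFunc.X - RatFunc.C a : RatFunc k) = (RatFunc.X - RatFunc.C a)⁻¹ := by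
  rw [dlog, map_sub, der_X, der_C, sub_zero, one_div]

theorem dl_none : dl (none : Option k) = -tt none := by
  show dlog k (RatFunc.X⁻¹) = -RatFunc.X⁻¹
  rw [dlog_inv, dlog, der_X, one_div]

theorem dl_some (a : k) : dl (some a) = (tt (some a))⁻¹ := dlog_X_sub a

theorem hasOrd_dl (c : Option k) : HasOrd c (ep c) (dl c) := by
  cases c with
  | none => rw [dl_none]; exact hasOrd_tt.neg
  | some a => rw [dl_some]; exact hasOrd_tt.inv

/-- Functions with a prescribed simple zero and a simple pole at infinity. -/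
noncomputable def ww : Option k → RatFunc k
  | none => 1
  | some c => RatFunc.X - RatFunc.C c

theorem ww_ne (c : Option k) : ww c ≠ 0 := by
  cases c with
  | none => exact one_ne_zero
  | some c => exact X_sub_ne c

/-- The leading term and the residue of the logarithmic derivative. -/
def Good (c : Option k) (h : RatFunc k) : Prop :=
  ∃ (l : ℤ) (a : k), a ≠ 0 ∧ h * tt c ^ (-l) - RatFunc.C a ∈ Fil c 1 ∧
    dlog k h - l * dl c ∈ Fil c (1 + ep c)

theorem hasOrd_of_lead {l : ℤ} {a : k} {h : RatFunc k} (ha : a ≠ 0)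
    (h1 : h * tt c ^ (-l) - RatFunc.C a ∈ Fil c 1) : HasOrd c l h := by
  have h2 := ((hasOrd_C ha).add (l := 0) h1).mul (hasOrd_tt_zpow l)
  rwa [add_sub_cancel, mul_assoc, ← zpow_add₀ (tt_ne c), neg_add_cancel, zpow_zero, mul_one,
    zero_add] at h2

theorem good_X_sub (c : Option k) (b : k) : Good c (RatFunc.X - RatFunc.C b) := by
  have hb := X_sub_ne b
  cases c with
  | none =>
    have hX : (RatFunc.X : RatFunc k) ≠ 0 := RatFunc.X_ne_zero
    have h1 : (RatFunc.X - RatFunc.C b) * tt none ^ (- -1 : ℤ) - RatFunc.C 1 ∈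
        Fil (none : Option k) 1 := by
      have : (RatFunc.X - RatFunc.C b) * tt none ^ (- -1 : ℤ) - RatFunc.C 1 =
          -(RatFunc.C b * tt none) := by
        simp only [tt, neg_neg, zpow_one, map_one]; field_simp; ring
      rw [this]
      exact neg_mem (Fil_mul (C_mem_Fil b) tt_mem (by omega))
    refine ⟨-1, 1, one_ne_zero, h1, ?_⟩
    have : dlog k (RatFunc.X - RatFunc.C b) - ((-1 : ℤ) : RatFunc k) * dl none =
        RatFunc.C b * tt none * (RatFunc.X - RatFunc.C b)⁻¹ := by
      rw [dlog_X_sub, dl_none]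
      simp only [tt]; push_cast; field_simp; ring
    rw [this]
    exact Fil_mul (Fil_mul (C_mem_Fil b) tt_mem le_rfl) (hasOrd_of_lead one_ne_zero h1).inv.mem
      (by simp [ep])
  | some a =>
    by_cases hab : a = b
    · subst hab
      refine ⟨1, 1, one_ne_zero, ?_, ?_⟩
      · simp [tt, hb]
      · simp [dl, tt]
    · have h1 : (RatFunc.X - RatFunc.C b) * tt (some a) ^ (-0 : ℤ) - RatFunc.C (a - b) ∈
          Fil (some a) 1 := by
        convert tt_mem (c := some a) using 1
        simp [tt]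
      refine ⟨0, a - b, sub_ne_zero.mpr hab, h1, ?_⟩
      rw [dlog_X_sub]
      simpa [ep] using (hasOrd_of_lead (sub_ne_zero.mpr hab) h1).inv.mem

theorem good_all [IsAlgClosed k] (c : Option k) {h : RatFunc k} (h0 : h ≠ 0) : Good c h := by
  refine ratFunc_induction (Good c) ?_ (good_X_sub c) ?_ ?_ h h0
  · intro a ha
    refine ⟨0, a, ha, by simp, ?_⟩
    have := dlog_const (E := RatFunc k) a
    rw [RatFunc.algebraMap_eq_C] at this
    simp [this]
  · rintro u w hu hw ⟨l, a, ha, h1, h2⟩ ⟨m, b, hb, h3, h4⟩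
    refine ⟨l + m, a * b, mul_ne_zero ha hb, ?_, ?_⟩
    · have h5 := add_mem (add_mem (Fil_mul h1 h3 (m := 1) (by omega))
        (Fil_mul h1 (C_mem_Fil b) (m := 1) (by omega))) (Fil_mul (C_mem_Fil a) h3 (m := 1) (by omega))
      convert h5 using 1
      rw [neg_add, zpow_add₀ (tt_ne c), map_mul]; ring
    · convert add_mem h2 h4 using 1
      rw [dlog_mul hu hw]; push_cast; ring
  · rintro u hu ⟨l, a, ha, h1, h2⟩
    refine ⟨-l, a⁻¹, inv_ne_zero ha, ?_, ?_⟩
    · have h3 := ((hasOrd_C ha).add (l := 0) h1).inv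
      rw [add_sub_cancel] at h3
      have h5 := neg_mem (Fil_mul (Fil_mul h1 h3.mem (m := 1) (by omega)) (C_mem_Fil a⁻¹)
        (m := 1) (by omega))
      convert h5 using 1
      have := tt_ne c
      have h6 : RatFunc.C a ≠ 0 := by simpa using ha
      rw [map_inv₀, neg_neg, zpow_neg]
      field_simp
      ring
    · convert neg_mem h2 using 1
      rw [dlog_inv]; push_cast; ring

variable [IsAlgClosed k]

theorem HasOrd.lead {l : ℤ} {h : RatFunc k} (hh : HasOrd c l h) :
    ∃ a : k, a ≠ 0 ∧ h - a • tt c ^ l ∈ Fil c (l + 1) ∧ dlog k h - l * dl c ∈ Fil c (1 + ep c) := by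
  obtain ⟨m, a, ha, h1, h2⟩ := good_all c hh.ne
  have h3 := hasOrd_of_lead ha h1
  obtain rfl : l = m := le_antisymm (h3.le hh.mem) (hh.le h3.mem)
  refine ⟨a, ha, ?_, h2⟩
  convert Fil_mul h1 (tt_zpow_mem l) (m := l + 1) (by omega) using 1
  rw [sub_mul, mul_assoc, ← zpow_add₀ (tt_ne c), neg_add_cancel, zpow_zero, mul_one,
    RatFunc.smul_eq_C_mul]

theorem exists_sub_smul {l : ℤ} {h g : RatFunc k} (hh : h ∈ Fil c l) (hg : HasOrd c l g) :
    ∃ a : k, h - a • g ∈ Fil c (l + 1) := by
  rcases hasOrd_or hh with h1 | h1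
  · obtain ⟨a, -, h2, -⟩ := h1.lead
    obtain ⟨b, hb, h3, -⟩ := hg.lead
    refine ⟨a / b, ?_⟩
    convert sub_mem h2 (Submodule.smul_mem _ (a / b) h3) using 1
    rw [smul_sub, smul_smul, div_mul_cancel₀ _ hb]; abel
  · exact ⟨0, by simpa using h1⟩

theorem der_sub_mem {l : ℤ} {h : RatFunc k} (hh : h ∈ Fil c l) :
    der k (RatFunc k) h - l * dl c * h ∈ Fil c (l + 1 + ep c) := by
  have key : ∀ m, HasOrd c m h → der k (RatFunc k) h - m * dl c * h ∈ Fil c (m + 1 + ep c) := by
    intro m hm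
    obtain ⟨a, -, -, h2⟩ := hm.lead
    convert Fil_mul h2 hm.mem (m := m + 1 + ep c) (by omega) using 1
    rw [sub_mul, dlog, div_mul_cancel₀ _ hm.ne]
  by_cases h0 : h = 0
  · simp [h0]
  obtain ⟨m, hm⟩ := exists_hasOrd c h0
  rcases (hm.le hh).eq_or_lt with rfl | h1
  · exact key _ hm
  · have h2 := Fil_mul (Fil_mul (intCast_mem_Fil (m - l)) (hasOrd_dl c).mem le_rfl) hm.mem
      (m := l + 1 + ep c) (by omega)
    convert add_mem (Fil_mono (key m hm) (l' := l + 1 + ep c) (by omega)) h2 using 1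
    push_cast; ring

theorem der_mem {l : ℤ} {h : RatFunc k} (hh : h ∈ Fil c l) :
    der k (RatFunc k) h ∈ Fil c (l + ep c) := by
  have h2 := Fil_mul (Fil_mul (intCast_mem_Fil l) (hasOrd_dl c).mem le_rfl) hh
    (m := l + ep c) (by omega)
  simpa using add_mem (Fil_mono (der_sub_mem hh) (l' := l + ep c) (by omega)) h2

theorem der_mem_zero {h : RatFunc k} (hh : h ∈ Fil c 0) :
    der k (RatFunc k) h ∈ Fil c (1 + ep c) := by
  simpa using der_sub_mem hh

end Pool.Agent.Work.MP_6f9fbb_ag
end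

-- merged part: Pool.Agent.Work.MP_6f9fbb_ag.Base2
section
/-! Global facts on the projective line. -/

namespace Pool.Agent.Work.MP_6f9fbb_ag

open Polynomial WithZero

set_option linter.unusedSectionVars false

theorem val_le_sum {R Γ ι : Type*} [Ring R] [LinearOrderedCommGroupWithZero Γ]
    (v : Valuation R Γ) (s : Finset ι) (g : ι → R)
    (h : ∀ i ∈ s, ∀ j ∈ s, i ≠ j → v (g i) ≠ 0 → v (g i) ≠ v (g j)) {i : ι} (hi : i ∈ s) :
    v (g i) ≤ v (∑ j ∈ s, g j) := by
  classical
  obtain ⟨m, hm, h1⟩ := s.exists_max_image (fun j => v (g j)) ⟨i, hi⟩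
  by_cases h0 : v (g m) = 0
  · exact (h1 i hi).trans (h0 ▸ zero_le)
  rw [v.map_sum_eq_of_lt hm]
  · exact h1 i hi
  · intro j hj
    rw [Finset.mem_sdiff, Finset.mem_singleton] at hj
    exact lt_of_le_of_ne (h1 j hj.1) (h m hm j hj.1 (Ne.symm hj.2) h0).symm

variable {k : Type*} [Field k]

theorem poly_mem_Fil (c : k) (u : k[X]) : algebraMap k[X] (RatFunc k) u ∈ Fil (some c) 0 := by
  rw [mem_Fil, neg_zero, exp_zero]; exact vv_poly c u

theorem hasOrd_poly (c : k) {u : k[X]} (hu : u ≠ 0) :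
    HasOrd (some c) (u.rootMultiplicity c) (algebraMap k[X] (RatFunc k) u) := by
  obtain ⟨q, h1, h2⟩ := exists_eq_pow_rootMultiplicity_mul_and_not_dvd u hu c
  obtain ⟨r, hr⟩ := X_sub_C_dvd_sub_C_eval (p := q) (a := c)
  have h3 : HasOrd (some c) 0 (algebraMap k[X] (RatFunc k) q) := by
    have h4 : algebraMap k[X] (RatFunc k) q =
        RatFunc.C (q.eval c) + tt (some c) * algebraMap k[X] (RatFunc k) r := by
      rw [sub_eq_iff_eq_add'] at hr
      conv_lhs => rw [hr]
      simp [tt]
    rw [h4]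
    exact (hasOrd_C (by rwa [dvd_iff_isRoot] at h2)).add
      (Fil_mul tt_mem (poly_mem_Fil c r) (by omega))
  have h5 := ((hasOrd_tt (c := some c)).pow (u.rootMultiplicity c)).mul h3
  generalize u.rootMultiplicity c = m at *
  rw [h1]
  simpa [tt] using h5

theorem hasOrd_none {h : RatFunc k} (h0 : h ≠ 0) : HasOrd none (-h.intDegree) h := by
  classical
  show RatFunc.inftyValuation k h = _
  rw [RatFunc.inftyValuation_apply, RatFunc.inftyValuation_of_nonzero _ h0, neg_neg]

/-- The order of the pole. -/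
noncomputable def pd (f : RatFunc k) : Option k → ℕ
  | none => f.intDegree.toNat
  | some c => f.denom.rootMultiplicity c

theorem pd_spec (f : RatFunc k) (c : Option k) :
    (pd f c = 0 ∧ f ∈ Fil c 0) ∨ (0 < pd f c ∧ HasOrd c (-pd f c) f) := by
  by_cases h0 : f = 0
  · left
    refine ⟨?_, h0 ▸ zero_mem _⟩
    cases c <;> simp [pd, h0]
  cases c with
  | none =>
    by_cases h1 : 0 < f.intDegree
    · exact Or.inr ⟨by simpa [pd] using h1, (hasOrd_none h0).cast (by simp [pd]; omega)⟩
    · exact Or.inl ⟨by simp [pd]; omega, Fil_mono (hasOrd_none h0).mem (by omega)⟩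
  | some c =>
    have h2 := (hasOrd_poly c (RatFunc.num_ne_zero h0)).mul (hasOrd_poly c f.denom_ne_zero).inv
    rw [← div_eq_mul_inv, RatFunc.num_div_denom] at h2
    by_cases h1 : 0 < f.denom.rootMultiplicity c
    · refine Or.inr ⟨h1, h2.cast ?_⟩
      have h3 : ¬ f.num.IsRoot c := by
        intro h4
        obtain ⟨a, b, hab⟩ := f.isCoprime_num_denom
        have := congrArg (eval c) hab
        simp [h4.eq_zero, (rootMultiplicity_pos'.mp h1).2.eq_zero] at this
      simp [pd, rootMultiplicity_eq_zero h3]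
    · exact Or.inl ⟨Nat.eq_zero_of_not_pos h1, Fil_mono h2.mem (by omega)⟩

theorem pd_mem (f : RatFunc k) (c : Option k) : f ∈ Fil c (-pd f c) := by
  rcases pd_spec f c with ⟨h1, h2⟩ | ⟨-, h2⟩
  · simpa [h1] using h2
  · exact h2.mem

open Classical in
/-- A finite set containing the poles and infinity. -/
noncomputable def bad (f : RatFunc k) : Finset (Option k) :=
  insert none (f.denom.roots.toFinset.image some)

theorem none_mem_bad (f : RatFunc k) : none ∈ bad f := by simp [bad]

theorem pd_of_not_mem_bad {f : RatFunc k} {c : Option k} (h : c ∉ bad f) : pd f c = 0 := by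
  classical
  cases c with
  | none => exact absurd (none_mem_bad f) h
  | some c =>
    apply rootMultiplicity_eq_zero
    intro h1
    exact h (by simp [bad, f.denom_ne_zero, h1.eq_zero])

theorem mem_of_not_mem_bad {f : RatFunc k} {c : Option k} (h : c ∉ bad f) : f ∈ Fil c 0 := by
  simpa [pd_of_not_mem_bad h] using pd_mem f c

variable [IsAlgClosed k]

theorem eq_zero_of_regular {h : RatFunc k} (h1 : ∀ c : k, h ∈ Fil (some c) 0)
    (h2 : h ∈ Fil none 1) : h = 0 := by
  by_contra h0
  have h3 : h.denom.natDegree = 0 := by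
    by_contra h4
    obtain ⟨c, hc⟩ := IsAlgClosed.exists_root h.denom (by
      rw [degree_eq_natDegree h.denom_ne_zero]; exact_mod_cast h4)
    rcases pd_spec h (some c) with ⟨h5, -⟩ | ⟨h5, h6⟩
    · exact absurd h5 (rootMultiplicity_pos'.mpr ⟨h.denom_ne_zero, hc⟩).ne'
    · have := h6.le (h1 c); omega
  have := (hasOrd_none h0).le h2
  rw [RatFunc.intDegree, h3] at this
  omega

open Classical in
theorem hasOrd_ww (c c' : Option k) :
    HasOrd c' ((if c' = c then 1 else 0) - if c' = none then 1 else 0) (ww c) := by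
  cases c with
  | none => simpa [ww] using hasOrd_one
  | some b =>
    cases c' with
    | none =>
      have h1 : (RatFunc.X - RatFunc.C b : RatFunc k) = algebraMap k[X] (RatFunc k) (X - C b) := by
        simp
      have := hasOrd_none (X_sub_ne b)
      rw [h1, RatFunc.intDegree_polynomial, natDegree_X_sub_C, ← h1] at this
      simpa [ww] using this
    | some a =>
      have := hasOrd_poly a (X_sub_C_ne_zero b)
      rw [rootMultiplicity_X_sub_C] at this
      by_cases hab : a = b <;> simpa [ww, hab] using this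

/-- A function with a simple zero at `c` and a simple pole at `c0`. -/
noncomputable def zz (c c0 : Option k) : RatFunc k := ww c * (ww c0)⁻¹

open Classical in
theorem hasOrd_zz (c c0 c' : Option k) :
    HasOrd c' ((if c' = c then 1 else 0) - if c' = c0 then 1 else 0) (zz c c0) :=
  ((hasOrd_ww c c').mul (hasOrd_ww c0 c').inv).cast (by ring)

theorem eq_zero_of_vanish {h : RatFunc k} (h1 : ∀ c, h ∈ Fil c 0) {c0 : Option k}
    (h2 : h ∈ Fil c0 1) : h = 0 := by
  classical
  have h3 : h * zz none c0 = 0 := by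
    apply eq_zero_of_regular
    · intro c
      by_cases hc : some c = c0
      · subst hc
        exact Fil_mul h2 (hasOrd_zz none _ _).mem (by simp)
      · exact Fil_mul (h1 _) (hasOrd_zz none c0 _).mem (by simp [hc])
    · by_cases hc : none = c0
      · exact Fil_mul (hc ▸ h2) (hasOrd_zz none c0 _).mem (by simp [hc])
      · exact Fil_mul (h1 _) (hasOrd_zz none c0 _).mem (by simp [hc])
  exact (mul_eq_zero.mp h3).resolve_right (hasOrd_zz none c0 none).ne

theorem exists_const {h : RatFunc k} (h1 : ∀ c, h ∈ Fil c 0) : ∃ a : k, h = RatFunc.C a := by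
  obtain ⟨a, ha⟩ := exists_sub_smul (h1 none) hasOrd_one
  refine ⟨a, ?_⟩
  have := eq_zero_of_vanish (fun c => sub_mem (h1 c) (Submodule.smul_mem _ a one_mem_Fil)) ha
  rwa [RatFunc.smul_eq_C_mul, mul_one, sub_eq_zero] at this

theorem form_eq_zero {η : RatFunc k} {c0 : Option k} (h1 : ∀ c, c ≠ c0 → η ∈ Fil c (1 + ep c))
    (h2 : η ∈ Fil c0 (ep c0)) : η = 0 := by
  classical
  have h3 : η * ww c0 = 0 := by
    apply eq_zero_of_regular
    · intro c
      by_cases hc : some c = c0
      · subst hc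
        exact Fil_mul h2 (hasOrd_ww _ _).mem (by simp [ep])
      · exact Fil_mul (h1 _ hc) (hasOrd_ww c0 _).mem (by simp [hc, ep])
    · by_cases hc : none = c0
      · subst hc
        exact Fil_mul h2 (hasOrd_ww _ _).mem (by simp [ep])
      · exact Fil_mul (h1 _ hc) (hasOrd_ww c0 _).mem (by simp [hc, ep])
  exact (mul_eq_zero.mp h3).resolve_right (ww_ne c0)

theorem tt_inv_mem_of_ne {c c' : Option k} (h : c' ≠ c) : (tt c)⁻¹ ∈ Fil c' 0 := by
  classical
  cases c with
  | none =>
    cases c' with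
    | none => exact absurd rfl h
    | some a => simpa [tt] using poly_mem_Fil a X
  | some b => exact Fil_mono (hasOrd_ww (some b) c').inv.mem (by simp [h]; split_ifs <;> omega)

theorem tt_zpow_mem_of_ne {c c' : Option k} (h : c' ≠ c) {l : ℤ} (hl : l ≤ 0) :
    tt c ^ l ∈ Fil c' 0 := by
  obtain ⟨n, rfl⟩ : ∃ n : ℕ, l = -n := ⟨(-l).toNat, by omega⟩
  rw [zpow_neg, zpow_natCast, ← inv_pow]
  simpa using Fil_pow (tt_inv_mem_of_ne h) n

theorem exists_polar (c : Option k) (a : RatFunc k) :
    ∃ h, a - h ∈ Fil c 0 ∧ ∀ c', c' ≠ c → h ∈ Fil c' 0 := by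
  have key : ∀ n : ℕ, ∀ a ∈ Fil c (-n), ∃ h, a - h ∈ Fil c 0 ∧ ∀ c', c' ≠ c → h ∈ Fil c' 0 := by
    intro n
    induction n with
    | zero => exact fun a ha => ⟨0, by simpa using ha, fun _ _ => zero_mem _⟩
    | succ n ih =>
      intro a ha
      obtain ⟨b, hb⟩ := exists_sub_smul ha (hasOrd_tt_zpow _)
      obtain ⟨h, h1, h2⟩ := ih _ (Fil_mono hb (by push_cast; omega))
      refine ⟨b • tt c ^ (-((n + 1 : ℕ) : ℤ)) + h, by rwa [← sub_sub], fun c' hc => ?_⟩
      exact add_mem (Submodule.smul_mem _ _ (tt_zpow_mem_of_ne hc (by omega))) (h2 c' hc)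
  obtain ⟨l, hl⟩ := exists_mem_Fil c a
  exact key (-l).toNat a (Fil_mono hl (by omega))

theorem exists_glue (P : Finset (Option k)) (a : Option k → RatFunc k)
    (ha : ∀ c, c ∉ P → a c ∈ Fil c 0) : ∃ h, ∀ c, a c - h ∈ Fil c 0 := by
  classical
  choose g h1 h2 using fun c => exists_polar c (a c)
  refine ⟨∑ c ∈ P, g c, fun c => ?_⟩
  by_cases hc : c ∈ P
  · rw [← Finset.add_sum_erase _ _ hc, ← sub_sub]
    exact sub_mem (h1 c) (Submodule.sum_mem _ fun c' hc' => h2 c' c (Finset.ne_of_mem_erase hc').symm)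
  · exact sub_mem (ha c hc) (Submodule.sum_mem _ fun c' hc' => h2 c' c (by rintro rfl; exact hc hc'))

theorem exists_ord (P : Finset (Option k)) (l : Option k → ℤ) (hl : ∀ c, c ∉ P → l c = 0)
    (c0 : Option k) : ∃ G : RatFunc k, G ≠ 0 ∧ ∀ c, c ≠ c0 → HasOrd c (l c) G := by
  classical
  induction P using Finset.induction_on generalizing l with
  | empty => exact ⟨1, one_ne_zero, fun c _ => hasOrd_one.cast (hl c (by simp)).symm⟩
  | insert b P hb ih =>
    obtain ⟨G, h0, hG⟩ := ih (Function.update l b 0) (fun c hc => by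
      by_cases h : c = b
      · simp [h]
      · rw [Function.update_of_ne h]; exact hl c (by simp [h, hc]))
    refine ⟨G * zz b c0 ^ l b, mul_ne_zero h0 (zpow_ne_zero _ (hasOrd_zz b c0 b).ne),
      fun c hc => ((hG c hc).mul ((hasOrd_zz b c0 c).zpow (l b))).cast ?_⟩
    by_cases h : c = b
    · subst h; simp [hc]
    · simp [h, hc]

theorem exists_approx (P : Finset (Option k)) (a : Option k → RatFunc k) (l : Option k → ℤ)
    (hl : ∀ c, c ∉ P → l c = 0) (ha : ∀ c, c ∉ P → a c ∈ Fil c 0) (c0 : Option k) :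
    ∃ h, ∀ c, c ≠ c0 → a c - h ∈ Fil c (l c) := by
  classical
  obtain ⟨G, h0, hG⟩ := exists_ord P l hl c0
  obtain ⟨h, hh⟩ := exists_glue (insert c0 P) (fun c => a c * G⁻¹) (fun c hc => by
    rw [Finset.mem_insert, not_or] at hc
    exact Fil_mul (ha c hc.2) (hG c hc.1).inv.mem (by simp [hl c hc.2]))
  refine ⟨h * G, fun c hc => ?_⟩
  convert Fil_mul (hh c) (hG c hc).mem (m := l c) (by omega) using 1
  field_simp

section Val

variable {Γ : Type*} [LinearOrderedCommGroupWithZero Γ] {w : Valuation (RatFunc k) Γ}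

theorem val_C (hw : ∀ a : k, w (RatFunc.C a) ≤ 1) {a : k} (ha : a ≠ 0) : w (RatFunc.C a) = 1 := by
  have h2 := hw a⁻¹
  rw [map_inv₀, map_inv₀] at h2
  have h0 : w (RatFunc.C a) ≠ 0 := by simpa using ha
  exact le_antisymm (hw a) ((inv_le_one₀ (zero_lt_iff.mpr h0)).mp h2)

theorem val_of_hasOrd (hw : ∀ a : k, w (RatFunc.C a) ≤ 1) {c : Option k} (ht : w (tt c) < 1)
    {l : ℤ} {h : RatFunc k} (hh : HasOrd c l h) : w h = w (tt c) ^ l := by
  classical
  have h0 : w (tt c) ≠ 0 := by simpa using tt_ne c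
  have key : ∃ l, HasOrd c l h ∧ w h = w (tt c) ^ l := by
    refine ratFunc_induction (fun h => ∃ l, HasOrd c l h ∧ w h = w (tt c) ^ l) ?_ ?_ ?_ ?_ h hh.ne
    · exact fun a ha => ⟨0, hasOrd_C ha, by simp [val_C hw ha]⟩
    · intro b
      refine ⟨_, hasOrd_ww (some b) c, ?_⟩
      cases c with
      | none =>
        have h1 : 1 < w RatFunc.X := by
          have h2 : w (tt none) = (w RatFunc.X)⁻¹ := map_inv₀ _ _
          rw [h2] at ht h0
          exact (inv_lt_one₀ (zero_lt_iff.mpr (by simpa using h0))).mp ht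
        rw [Valuation.map_sub_eq_of_lt_left _ (lt_of_le_of_lt (hw b) h1)]
        simp [tt]
      | some a =>
        by_cases hab : a = b
        · simp [hab, tt]
        · have h1 : (RatFunc.X - RatFunc.C b : RatFunc k) = RatFunc.C (a - b) + tt (some a) := by
            simp [tt]
          rw [h1, Valuation.map_add_eq_of_lt_left _ (by rwa [val_C hw (sub_ne_zero.mpr hab)]),
            val_C hw (sub_ne_zero.mpr hab)]
          simp [hab]
    · rintro a b _ _ ⟨l, h1, h2⟩ ⟨m, h3, h4⟩
      exact ⟨l + m, h1.mul h3, by rw [map_mul, h2, h4, zpow_add₀ h0]⟩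
    · rintro a _ ⟨l, h1, h2⟩
      exact ⟨-l, h1.inv, by rw [map_inv₀, h2, zpow_neg]⟩
  obtain ⟨m, h1, h2⟩ := key
  obtain rfl : l = m := le_antisymm (h1.le hh.mem) (hh.le h1.mem)
  exact h2

theorem val_le_iff (hw : ∀ a : k, w (RatFunc.C a) ≤ 1) {c : Option k} (ht : w (tt c) < 1)
    {l : ℤ} {h : RatFunc k} : w h ≤ w (tt c) ^ l ↔ h ∈ Fil c l := by
  have h0 : 0 < w (tt c) := zero_lt_iff.mpr (by simpa using tt_ne c)
  by_cases hh : h = 0
  · simp [hh]
  obtain ⟨m, hm⟩ := exists_hasOrd c hh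
  rw [val_of_hasOrd hw ht hm, zpow_le_zpow_iff_right_of_lt_one₀ h0 ht]
  exact ⟨fun h1 => Fil_mono hm.mem h1, fun h1 => hm.le h1⟩

theorem val_classify (hw : ∀ a : k, w (RatFunc.C a) ≤ 1) :
    (∀ h, w h ≤ 1) ∨ ∃ c, w (tt c) < 1 := by
  by_cases h : ∃ c, w (tt c) < 1
  · exact Or.inr h
  left
  push Not at h
  have hX : w RatFunc.X ≤ 1 := by
    have := h none
    rw [show w (tt none) = (w RatFunc.X)⁻¹ from map_inv₀ _ _] at this
    exact (one_le_inv₀ (zero_lt_iff.mpr (by simpa using RatFunc.X_ne_zero))).mp this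
  intro g
  by_cases h0 : g = 0
  · simp [h0]
  refine (ratFunc_induction (fun h => w h = 1) (fun a ha => val_C hw ha) ?_ ?_ ?_ g h0).le
  · exact fun b => le_antisymm (w.map_sub_le hX (hw b)) (h (some b))
  · intro a b _ _ ha hb
    rw [map_mul, ha, hb, one_mul]
  · intro a _ ha
    rw [map_inv₀, ha, inv_one]

end Val

theorem car_mem {p : ℕ} [Fact p.Prime] [CharP (RatFunc k) p] {c : Option k} {l : ℤ}
    {η : RatFunc k} (h : η ∈ Fil c (l + ep c)) :
    ∃ l' : ℤ, l ≤ p * l' ∧ car k p η ∈ Fil c (l' + ep c) := by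
  have hp := (Fact.out : p.Prime).pos
  have hX : xx k (RatFunc k) ∈ Dec p (tt c) := by
    cases c with
    | none => simpa [tt, xx_self] using inv_mem_Dec (self_mem_Dec (p := p) (tt (none : Option k)))
    | some a =>
      obtain ⟨w, hw⟩ := const_eq_pow (E := RatFunc k) (p := p) a
      have := add_mem (self_mem_Dec (p := p) (tt (some a))) (pow_mem_Dec (tt (some a)) w)
      rw [← hw] at this
      simpa [tt, xx_self] using this
  obtain ⟨u, hu⟩ := Dec_top hX (η * (dl c)⁻¹)
  have hd := (hasOrd_dl c).ne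
  have h1 : car k p η = u 0 * dl c := by
    apply car_eq
    have h2 : η = (∑ i ∈ Finset.range p, u i ^ p * tt c ^ i) * dl c := by
      rw [← hu]; field_simp
    have h3 : Finset.range p = Finset.range (p - 1 + 1) := by rw [Nat.sub_add_cancel hp]
    rw [h2, h3, Finset.sum_range_succ', gam_mul, add_mul, add_sub_assoc, pow_zero, mul_one,
      ← mul_sub, Finset.sum_mul]
    refine add_mem (Submodule.sum_mem _ fun i hi => ?_) (Ex_pow_mul _ (dlog_mem_Fix_L (tt c)))
    have h4 := Ex_pow_mul (p := p) (u (i + 1)) (pow_mul_der_mem_Ex (k := k) (p := p) (tt c) (n := i)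
      (by have := Finset.mem_range.mp hi; omega))
    convert h4 using 1
    have := tt_ne c
    rw [dl, dlog]; field_simp; ring
  by_cases h0 : u 0 = 0
  · refine ⟨max l 0, ?_, by simp [h1, h0]⟩
    have : (1 : ℤ) ≤ p := by exact_mod_cast hp
    nlinarith [le_max_left l 0, le_max_right l 0]
  obtain ⟨m, hm⟩ := exists_hasOrd c h0
  refine ⟨m, ?_, h1 ▸ Fil_mul hm.mem (hasOrd_dl c).mem le_rfl⟩
  have h5 := val_le_sum (vv c) (Finset.range p) (fun i => u i ^ p * tt c ^ i) (i := 0) ?_
    (Finset.mem_range.mpr hp)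
  · rw [← hu, pow_zero, mul_one] at h5
    exact (hm.pow p).le (h5.trans (Fil_mul h (hasOrd_dl c).inv.mem (by omega)))
  · intro i hi j hj hij h6 h7
    have hi0 : u i ≠ 0 := by rintro h8; simp [h8, hp.ne'] at h6
    have hj0 : u j ≠ 0 := by rintro h8; rw [h7] at h6; simp [h8, hp.ne'] at h6
    obtain ⟨a, ha⟩ := exists_hasOrd c hi0
    obtain ⟨b, hb⟩ := exists_hasOrd c hj0
    rw [(ha.pow p).mul (hasOrd_tt.pow i), (hb.pow p).mul (hasOrd_tt.pow j), exp_inj] at h7
    have h9 : (p : ℤ) ∣ (i : ℤ) - j := ⟨b - a, by linarith⟩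
    have := Int.eq_zero_of_abs_lt_dvd h9 (by
      have := Finset.mem_range.mp hi; have := Finset.mem_range.mp hj
      rw [abs_lt]; constructor <;> omega)
    omega

end Pool.Agent.Work.MP_6f9fbb_ag
end

-- merged part: Pool.Agent.Work.MP_6f9fbb_ag.AS
section
/-! The Artin-Schreier extension: basis of divided powers and the operator `T = d/dy`. -/

namespace Pool.Agent.Work.MP_6f9fbb_ag

open Polynomial WithZero

set_option linter.unusedSectionVars false

section bb

variable {K : Type*} [Field K] (p : ℕ) [Fact p.Prime] [CharP K p]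

/-- Divided powers `Y ^ (p - 1 - n) / (p - 1 - n)!`. -/
noncomputable def bb (Y : K) (n : ℕ) : K :=
  if n < p then (((p - 1 - n).factorial : ℕ) : K)⁻¹ * Y ^ (p - 1 - n) else 0

variable {p}

theorem bb_of_le (Y : K) {n : ℕ} (h : p ≤ n) : bb p Y n = 0 := if_neg (by omega)

theorem bb_last (Y : K) : bb p Y (p - 1) = 1 := by
  have := (Fact.out : p.Prime).pos
  simp [bb, show p - 1 < p by omega]

theorem bb_ne {Y : K} (hY : Y ≠ 0) {n : ℕ} (h : n < p) : bb p Y n ≠ 0 := by
  rw [bb, if_pos h]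
  exact mul_ne_zero (inv_ne_zero (factorial_ne_zero_of_lt (p := p) (by omega))) (pow_ne_zero _ hY)

theorem bb_pow (Y : K) (n : ℕ) : bb p Y n ^ p = bb p (Y ^ p) n := by
  unfold bb
  split_ifs
  · rw [mul_pow, inv_pow, ← frobenius_def p (_ : K), map_natCast, ← pow_mul, ← pow_mul, mul_comm p]
  · exact zero_pow (Fact.out : p.Prime).ne_zero

theorem bb_add (Y φ : K) (n : ℕ) :
    bb p (Y + φ) n = ∑ j ∈ Finset.range p, ((j.factorial : K)⁻¹ * φ ^ j) * bb p Y (n + j) := by
  by_cases hn : n < p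
  · rw [← Finset.sum_subset (s₁ := Finset.range (p - 1 - n + 1))]
    · rw [bb, if_pos hn, add_comm Y, add_pow, Finset.mul_sum]
      refine Finset.sum_congr rfl fun j hj => ?_
      have hj' := Finset.mem_range.mp hj
      rw [bb, if_pos (by omega), show p - 1 - (n + j) = p - 1 - n - j by omega]
      have h1 := Nat.choose_mul_factorial_mul_factorial (n := p - 1 - n) (k := j) (by omega)
      have h2 := factorial_ne_zero_of_lt (E := K) (p := p) (n := j) (by omega)
      have h3 := factorial_ne_zero_of_lt (E := K) (p := p) (n := p - 1 - n - j) (by omega)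
      have h4 := factorial_ne_zero_of_lt (E := K) (p := p) (n := p - 1 - n) (by omega)
      field_simp
      rw [← h1]; push_cast; ring
    · intro j hj
      rw [Finset.mem_range] at *; omega
    · intro j _ hj
      rw [bb_of_le _ (by rw [Finset.mem_range] at hj; omega), mul_zero]
  · rw [bb_of_le _ (by omega), Finset.sum_eq_zero]
    intro j _
    rw [bb_of_le _ (by omega), mul_zero]

theorem der_bb {k : Type*} [Field k] [Algebra k K] (D : Derivation k K K) (Y : K) (n : ℕ) :
    D (bb p Y n) = D Y * bb p Y (n + 1) := by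
  by_cases hn : n + 1 < p
  · obtain ⟨m, hm⟩ : ∃ m, p - 1 - n = m + 1 := ⟨p - 1 - n - 1, by omega⟩
    rw [bb, bb, if_pos (by omega), if_pos hn, show p - 1 - (n + 1) = m by omega, hm,
      Derivation.leibniz, Derivation.leibniz_inv, Derivation.map_natCast, Derivation.leibniz_pow,
      Nat.factorial_succ]
    have h2 := factorial_ne_zero_of_lt (E := K) (p := p) (n := m) (by omega)
    have h3 := natCast_ne_zero_of_lt (E := K) (p := p) (n := m + 1) (by omega) (by omega)
    simp only [smul_eq_mul, nsmul_eq_mul, Nat.add_sub_cancel, Nat.cast_mul]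
    field_simp
    ring
  · rw [bb_of_le Y (n := n + 1) (by omega), mul_zero]
    by_cases h : n = p - 1
    · rw [h, bb_last, Derivation.map_one_eq_zero]
    · rw [bb_of_le _ (by omega), map_zero]

end bb

/-- The data of an Artin-Schreier extension with pole orders dividing `p - 1`. -/
structure ASData (k : Type*) [Field k] (p : ℕ) (K : Type*) [Field K] [Algebra (RatFunc k) K] where
  /-- the right hand side -/
  f : RatFunc k
  /-- the generator -/
  y : K
  hy : y ^ p - y = algebraMap (RatFunc k) K f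
  hK : Algebra.adjoin (RatFunc k) {y} = ⊤
  /-- a chosen pole -/
  q0 : Option k
  hq0 : 0 < pd f q0
  hd : ∀ c, 0 < pd f c → pd f c ∣ p - 1

variable {k : Type*} [Field k] [IsAlgClosed k] {p : ℕ} [Fact p.Prime]
  {K : Type*} [Field K] [Algebra k K] [Algebra (RatFunc k) K] [IsScalarTower k (RatFunc k) K]
  [Algebra.IsSeparable (RatFunc k) K] [CharP K p] [CharP (RatFunc k) p]

/-- `V` contains the constants and dominates the place `c`. -/
structure Dom (V : ValuationSubring K) (c : Option k) : Prop where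
  const : ∀ a : k, (V.valuation.comap (algebraMap (RatFunc k) K)) (RatFunc.C a) ≤ 1
  lt : (V.valuation.comap (algebraMap (RatFunc k) K)) (tt c) < 1

variable (K) in
theorem exists_dom (c : Option k) : ∃ V : ValuationSubring K, Dom V c := by
  let A : Subring K := (vv c).valuationSubring.toSubring.map (algebraMap (RatFunc k) K)
  have hA : ∀ h ∈ Fil c 0, algebraMap (RatFunc k) K h ∈ A := fun h hh =>
    ⟨h, by simpa [mem_Fil] using hh, rfl⟩
  let t : A := ⟨algebraMap _ K (tt c), hA _ (Fil_mono tt_mem (by omega))⟩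
  have ht : Ideal.span {t} ≠ ⊤ := by
    rw [Ne, Ideal.span_singleton_eq_top, isUnit_iff_exists_inv]
    rintro ⟨⟨_, u, hu, rfl⟩, h1⟩
    have h2 : tt c * u = 1 := by
      apply (algebraMap (RatFunc k) K).injective
      rw [map_mul, map_one]
      exact congrArg Subtype.val h1
    have h3 : u ∈ Fil c 0 := by simpa [mem_Fil] using hu
    have := hasOrd_one.le (h2 ▸ Fil_mul tt_mem h3 (m := 1) (by omega))
    omega
  obtain ⟨V, h1, h2⟩ := Ideal.image_subset_nonunits_valuationSubring _ ht
  refine ⟨V, fun a => ?_, ?_⟩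
  · exact (V.valuation_le_one_iff _).mpr (h1 (hA _ (C_mem_Fil a)))
  · exact V.mem_nonunits_iff.mp (h2 ⟨t, Ideal.subset_span rfl, rfl⟩)

namespace ASData

variable (A : ASData k p K)

/-- The basis elements. -/
noncomputable def b (n : ℕ) : K := bb p A.y n

/-- The pole order at a place. -/
noncomputable def d (c : Option k) : ℕ := pd A.f c

theorem hasOrd_f {c : Option k} (hc : 0 < A.d c) : HasOrd c (-A.d c) A.f := by
  rcases pd_spec A.f c with ⟨h1, -⟩ | ⟨-, h2⟩
  · exact absurd h1 hc.ne'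
  · exact h2

theorem f_mem (c : Option k) : A.f ∈ Fil c (-A.d c) := pd_mem A.f c

theorem d_lt (c : Option k) : A.d c < p := by
  have := (Fact.out : p.Prime).two_le
  rcases Nat.eq_zero_or_pos (A.d c) with h | h
  · omega
  · have := Nat.le_of_dvd (by omega) (A.hd c h)
    unfold d; omega

theorem y_ne : A.y ≠ 0 := by
  intro h
  have h1 := A.hy
  rw [h, zero_pow (Fact.out : p.Prime).ne_zero, sub_zero, eq_comm, map_eq_zero] at h1
  exact (A.hasOrd_f A.hq0).ne h1

theorem b_of_le {n : ℕ} (h : p ≤ n) : A.b n = 0 := bb_of_le _ h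

theorem b_last : A.b (p - 1) = 1 := bb_last _

variable {A}

theorem val_y {V : ValuationSubring K} {c : Option k} (hV : Dom V c) (hc : 0 < A.d c) :
    V.valuation A.y ^ p = V.valuation (algebraMap (RatFunc k) K (tt c)) ^ (-A.d c : ℤ) := by
  have h1 := val_of_hasOrd hV.const hV.lt (A.hasOrd_f hc)
  simp only [Valuation.comap_apply] at h1
  rw [← A.hy] at h1
  have h0 : 0 < V.valuation (algebraMap (RatFunc k) K (tt c)) :=
    zero_lt_iff.mpr (by simpa using tt_ne c)
  have h2 : 1 < V.valuation (A.y ^ p - A.y) := by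
    rw [h1]; exact one_lt_zpow_of_neg₀ h0 hV.lt (by omega)
  have h3 : 1 < V.valuation A.y := by
    by_contra h4
    push Not at h4
    exact absurd (V.valuation.map_sub_le (by rw [map_pow]; exact pow_le_one' h4 p) h4) h2.not_ge
  rw [← h1, Valuation.map_sub_eq_of_lt_left, map_pow]
  rw [map_pow]
  simpa using pow_lt_pow_right₀ h3 (Fact.out : p.Prime).one_lt

theorem val_mono {V : ValuationSubring K} {c : Option k} (hV : Dom V c) (hc : 0 < A.d c)
    {n : ℕ} (hn : n < p) {l : ℤ} {h : RatFunc k} (hh : HasOrd c l h) :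
    V.valuation (h • A.b n) ^ p = V.valuation (algebraMap (RatFunc k) K (tt c)) ^
      (p * l + A.d c * n - A.d c * (p - 1) : ℤ) := by
  have h1 := val_of_hasOrd hV.const hV.lt hh
  simp only [Valuation.comap_apply] at h1
  have h0 : V.valuation (algebraMap (RatFunc k) K (tt c)) ≠ 0 := by simpa using tt_ne c
  have h2 : V.valuation (((p - 1 - n).factorial : ℕ) : K) = 1 := by
    have h3 := factorial_ne_zero_of_lt (E := K) (p := p) (n := p - 1 - n) (by omega)
    have := val_C hV.const (a := (((p - 1 - n).factorial : ℕ) : k)) (by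
      intro h4
      apply h3
      rw [← map_natCast (algebraMap k K), h4, map_zero])
    simpa using this
  rw [Algebra.smul_def, b, bb, if_pos hn, map_mul, map_mul, map_inv₀, h2, inv_one, one_mul, map_pow,
    mul_pow, ← pow_mul, mul_comm (p - 1 - n), pow_mul, val_y hV hc, h1, ← zpow_natCast,
    ← zpow_natCast, ← zpow_mul, ← zpow_mul, ← zpow_add₀ h0]
  congr 1
  have : ((p - 1 - n : ℕ) : ℤ) = p - 1 - n := by omega
  rw [this]; ring

theorem val_term_le {V : ValuationSubring K} {c : Option k} (hV : Dom V c) (hc : 0 < A.d c)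
    (g : ℕ → RatFunc k) {n : ℕ} (hn : n < p) :
    V.valuation (g n • A.b n) ≤ V.valuation (∑ m ∈ Finset.range p, g m • A.b m) := by
  refine val_le_sum V.valuation _ (fun m => g m • A.b m) ?_ (Finset.mem_range.mpr hn)
  intro i hi j hj hij h6 h7
  have hi' := Finset.mem_range.mp hi
  have hj' := Finset.mem_range.mp hj
  have hi0 : g i ≠ 0 := by rintro h8; simp [h8] at h6
  have hj0 : g j ≠ 0 := by rintro h8; rw [h7] at h6; simp [h8] at h6
  obtain ⟨a, ha⟩ := exists_hasOrd c hi0
  obtain ⟨b, hb⟩ := exists_hasOrd c hj0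
  have h0 : 0 < V.valuation (algebraMap (RatFunc k) K (tt c)) :=
    zero_lt_iff.mpr (by simpa using tt_ne c)
  have h8 := congrArg (· ^ p) h7
  simp only [val_mono hV hc hi' ha, val_mono hV hc hj' hb] at h8
  have h9 := zpow_right_injective₀ h0 hV.lt.ne h8
  have h10 : (p : ℤ) ∣ A.d c * ((i : ℤ) - j) := ⟨b - a, by linarith⟩
  rcases (Nat.prime_iff_prime_int.mp (Fact.out : p.Prime)).dvd_or_dvd h10 with h | h
  · have := Int.le_of_dvd (by exact_mod_cast hc) h
    have := A.d_lt c
    omega
  · have := Int.eq_zero_of_abs_lt_dvd h (by rw [abs_lt]; constructor <;> omega)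
    omega

variable (A)

theorem indep : LinearIndependent (RatFunc k) fun n : Fin p => A.b n := by
  rw [Fintype.linearIndependent_iff]
  intro g hg n
  obtain ⟨V, hV⟩ := exists_dom K A.q0
  have h1 := val_term_le (A := A) hV A.hq0 (fun m => if h : m < p then g ⟨m, h⟩ else 0) n.2
  rw [Finset.sum_range] at h1
  simp only [Fin.is_lt, dite_true, Fin.eta, hg, map_zero, le_zero_iff, map_eq_zero,
    smul_eq_zero] at h1
  exact h1.resolve_right (bb_ne A.y_ne n.2)

theorem span_top : ⊤ ≤ Submodule.span (RatFunc k) (Set.range fun n : Fin p => A.b n) := by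
  have hp := (Fact.out : p.Prime).two_le
  set S := Submodule.span (RatFunc k) (Set.range fun n : Fin p => A.b n)
  have h1 : ∀ r, A.y ^ r ∈ S := by
    intro r
    induction r using Nat.strong_induction_on with
    | _ r ih =>
      by_cases hr : r < p
      · have h2 : A.b (p - 1 - r) ∈ S := Submodule.subset_span ⟨⟨p - 1 - r, by omega⟩, rfl⟩
        have h3 := S.smul_mem ((r.factorial : ℕ) : RatFunc k) h2
        rwa [b, bb, if_pos (by omega), show p - 1 - (p - 1 - r) = r by omega, Algebra.smul_def,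
          map_natCast, mul_inv_cancel_left₀ (factorial_ne_zero_of_lt (p := p) hr)] at h3
      · have h2 : A.y ^ r = A.y ^ (r - p + 1) + A.f • A.y ^ (r - p) := by
          rw [Algebra.smul_def, ← A.hy]
          conv_lhs => rw [show r = r - p + p by omega]
          ring
        rw [h2]
        exact add_mem (ih _ (by omega)) (S.smul_mem _ (ih _ (by omega)))
  intro g _
  have h2 : g ∈ Algebra.adjoin (RatFunc k) {A.y} := A.hK ▸ Algebra.mem_top
  rw [Algebra.adjoin_singleton_eq_range_aeval] at h2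
  obtain ⟨u, rfl⟩ := h2
  show aeval A.y u ∈ S
  rw [aeval_eq_sum_range]
  exact S.sum_mem fun i _ => S.smul_mem _ (h1 i)

/-- The basis of divided powers. -/
noncomputable def basis : Module.Basis (Fin p) (RatFunc k) K := Module.Basis.mk A.indep A.span_top

theorem basis_apply (n : Fin p) : A.basis n = A.b n := by simp [basis]

/-- The coefficients. -/
noncomputable def cf (n : ℕ) : K →ₗ[RatFunc k] RatFunc k :=
  if h : n < p then A.basis.coord ⟨n, h⟩ else 0

theorem sum_cf (g : K) : ∑ n ∈ Finset.range p, A.cf n g • A.b n = g := by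
  conv_rhs => rw [← A.basis.sum_repr g]
  rw [Finset.sum_range]
  exact Finset.sum_congr rfl fun n _ => by simp [cf, basis_apply]

theorem cf_of_le {n : ℕ} (h : p ≤ n) (g : K) : A.cf n g = 0 := by simp [cf, Nat.not_lt.mpr h]

theorem cf_b (n m : ℕ) : A.cf n (A.b m) = if n = m ∧ n < p then 1 else 0 := by
  by_cases hn : n < p
  · by_cases hm : m < p
    · have := A.basis_apply ⟨m, hm⟩
      simp only at this
      rw [← this]
      simp [cf, hn, Finsupp.single_apply, eq_comm]
    · rw [A.b_of_le (by omega), map_zero, if_neg (by omega)]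
  · rw [A.cf_of_le (by omega), if_neg (by omega)]

theorem ind {P : K → Prop} (h0 : P 0) (h1 : ∀ a b, P a → P b → P (a + b)) (g : K)
    (h2 : ∀ n < p, P (A.cf n g • A.b n)) : P g := by
  rw [← A.sum_cf g]
  exact Finset.sum_induction _ P h1 h0 fun n hn => h2 n (Finset.mem_range.mp hn)

theorem ext_cf {g : K} (h : ∀ n < p, A.cf n g = 0) : g = 0 :=
  A.ind (P := fun g => g = 0) rfl (fun a b ha hb => by rw [ha, hb, add_zero]) g
    fun n hn => by simp [h n hn]

/-- The operator `d/dy`. -/
noncomputable def T : Module.End (RatFunc k) K := A.basis.constr (RatFunc k) fun n => A.b (n + 1)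

theorem T_b (n : ℕ) : A.T (A.b n) = A.b (n + 1) := by
  by_cases hn : n < p
  · have := A.basis_apply ⟨n, hn⟩
    simp only at this
    rw [← this, T, Module.Basis.constr_basis]
  · rw [A.b_of_le (by omega), map_zero, A.b_of_le (by omega)]

theorem T_pow_b (m n : ℕ) : (A.T ^ m) (A.b n) = A.b (n + m) := by
  induction m with
  | zero => simp
  | succ m ih => rw [pow_succ', Module.End.mul_apply, ih, T_b, add_assoc]

theorem der_y : der k K A.y = -algebraMap (RatFunc k) K (der k (RatFunc k) A.f) := by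
  rw [← der_algebraMap, ← A.hy, map_sub, der_pow_p, zero_sub, neg_neg]

theorem der_b (n : ℕ) : der k K (A.b n) = -(der k (RatFunc k) A.f • A.b (n + 1)) := by
  rw [b, der_bb, der_y, Algebra.smul_def, neg_mul, b]

theorem der_mono (h : RatFunc k) (n : ℕ) : der k K (h • A.b n) =
    der k (RatFunc k) h • A.b n - (h * der k (RatFunc k) A.f) • A.b (n + 1) := by
  rw [der_smul, der_b, smul_neg, smul_smul, sub_eq_add_neg]

theorem b_pow (n : ℕ) : A.b n ^ p = ∑ j ∈ Finset.range p,
    ((j.factorial : RatFunc k)⁻¹ * A.f ^ j) • A.b (n + j) := by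
  rw [b, bb_pow, show A.y ^ p = A.y + algebraMap (RatFunc k) K A.f by rw [← A.hy]; ring, bb_add]
  exact Finset.sum_congr rfl fun j _ => by simp [Algebra.smul_def, b]

theorem b_eq (n : ℕ) : A.b n = ∑ j ∈ Finset.range p,
    ((j.factorial : RatFunc k)⁻¹ * (-A.f) ^ j) • A.b (n + j) ^ p := by
  have : A.b n = bb p (A.y ^ p + -algebraMap (RatFunc k) K A.f) n := by
    rw [b, ← A.hy]; congr 1; ring
  rw [this, bb_add]
  exact Finset.sum_congr rfl fun j _ => by simp [Algebra.smul_def, b, bb_pow]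

theorem T_der (g : K) : A.T (der k K g) = der k K (A.T g) := by
  refine A.ind (P := fun g => A.T (der k K g) = der k K (A.T g)) (by simp)
    (fun a b ha hb => by simp only [map_add, ha, hb]) g fun n _ => ?_
  simp only [der_mono, map_sub, map_smul, T_b]

theorem T_frob (g : K) : A.T (g ^ p) = A.T g ^ p := by
  refine A.ind (P := fun g => A.T (g ^ p) = A.T g ^ p)
    (by simp [(Fact.out : p.Prime).ne_zero])
    (fun a b ha hb => by simp only [map_add, add_pow_char, ha, hb]) g fun n _ => ?_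
  simp only [_root_.smul_pow, map_smul, T_b, b_pow, map_sum, add_right_comm]

theorem T_gam (g : K) : A.T (gam k p g) = gam k p (A.T g) := by
  have : ∀ g : K, gam k p g = (RatFunc.X ^ (p - 1) : RatFunc k) • g ^ p := fun g => by
    rw [gam, Algebra.smul_def, map_pow, mul_comm]; rfl
  rw [this, this, map_smul, T_frob]

theorem T_car (g : K) : A.T (car k p g) = car k p (A.T g) := by
  symm
  apply car_eq
  obtain ⟨u, hu⟩ := car_spec (k := k) (p := p) g
  rw [← T_gam, ← map_sub, ← hu]
  exact ⟨A.T u, (A.T_der u).symm⟩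

end ASData

end Pool.Agent.Work.MP_6f9fbb_ag
end
end

-- merged part: Pool.Agent.Work.MP_6f9fbb_ag.Chart
section
-- merged part: Pool.Agent.Work.MP_6f9fbb_ag.Local
section
/-! Local lattices of regular functions and regular forms over a place of the base. -/

namespace Pool.Agent.Work.MP_6f9fbb_ag

open Polynomial WithZero

set_option linter.unusedSectionVars false

variable {k : Type*} [Field k] [IsAlgClosed k] {p : ℕ} [Fact p.Prime]
  {K : Type*} [Field K] [Algebra k K] [Algebra (RatFunc k) K] [IsScalarTower k (RatFunc k) K]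
  [Algebra.IsSeparable (RatFunc k) K] [CharP K p] [CharP (RatFunc k) p]

variable (K) in
/-- The functions regular at all places over `c`. -/
def IC (c : Option k) : Subring K where
  carrier := {g | ∀ V : ValuationSubring K, Dom V c → g ∈ V}
  mul_mem' := fun ha hb V hV => mul_mem (ha V hV) (hb V hV)
  one_mem' := fun V _ => one_mem V
  add_mem' := fun ha hb V hV => add_mem (ha V hV) (hb V hV)
  zero_mem' := fun V _ => zero_mem V
  neg_mem' := fun ha V hV => neg_mem (ha V hV)

theorem Dom.mem_iff {V : ValuationSubring K} {c : Option k} (hV : Dom V c) {h : RatFunc k} :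
    algebraMap (RatFunc k) K h ∈ V ↔ h ∈ Fil c 0 := by
  rw [← val_le_iff hV.const hV.lt, zpow_zero, Valuation.comap_apply, V.valuation_le_one_iff]

theorem algebraMap_mem_IC {c : Option k} {h : RatFunc k} :
    algebraMap (RatFunc k) K h ∈ IC K c ↔ h ∈ Fil c 0 := by
  refine ⟨fun h1 => ?_, fun h1 V hV => hV.mem_iff.mpr h1⟩
  obtain ⟨V, hV⟩ := exists_dom K c
  exact hV.mem_iff.mp (h1 V hV)

theorem Dom.pos {V : ValuationSubring K} (c : Option k) :
    0 < V.valuation (algebraMap (RatFunc k) K (tt c)) :=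
  zero_lt_iff.mpr (by simpa using tt_ne c)

namespace ASData

variable (A : ASData k p K)

/-- The filtration of `K` over a place of the base. -/
def W (c : Option k) (N : ℤ) : Submodule k K where
  carrier := {g | ∀ n < p, ∃ l : ℤ, N ≤ p * l + A.d c * n ∧ A.cf n g ∈ Fil c l}
  add_mem' := by
    intro a b ha hb n hn
    obtain ⟨l, h1, h2⟩ := ha n hn
    obtain ⟨m, h3, h4⟩ := hb n hn
    rw [map_add]
    rcases le_total l m with h | h
    · exact ⟨l, h1, add_mem h2 (Fil_mono h4 h)⟩
    · exact ⟨m, h3, add_mem (Fil_mono h2 h) h4⟩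
  zero_mem' := by
    intro n _
    refine ⟨max N 0, ?_, by simp⟩
    have : (1 : ℤ) ≤ p := by exact_mod_cast (Fact.out : p.Prime).pos
    nlinarith [le_max_left N 0, le_max_right N 0, Int.natCast_nonneg (A.d c), Int.natCast_nonneg n]
  smul_mem' := by
    intro a g hg n hn
    obtain ⟨l, h1, h2⟩ := hg n hn
    exact ⟨l, h1, by rw [LinearMap.map_smul_of_tower]; exact Submodule.smul_mem _ a h2⟩

/-- Regular functions over `c`. -/
noncomputable def M (c : Option k) : Submodule k K := A.W c (A.d c * (p - 1))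

/-- Regular forms over `c` (coefficients of `dx`). -/
noncomputable def N (c : Option k) : Submodule k K := A.W c (1 + p * ep c)

variable {A} {c : Option k}

theorem mono_mem_W {N l : ℤ} {h : RatFunc k} {n : ℕ} (hh : h ∈ Fil c l)
    (hl : n < p → N ≤ p * l + A.d c * n) : h • A.b n ∈ A.W c N := by
  intro m hm
  rw [map_smul, cf_b]
  split_ifs with h1
  · exact ⟨l, h1.1 ▸ hl (h1.1 ▸ hm), by simpa using hh⟩
  · simpa using (A.W c N).zero_mem m hm

theorem W_ind {N : ℤ} {P : K → Prop} (h0 : P 0) (h1 : ∀ a b, P a → P b → P (a + b))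
    (h2 : ∀ n < p, ∀ l : ℤ, ∀ h ∈ Fil c l, N ≤ p * l + A.d c * n → P (h • A.b n))
    {g : K} (hg : g ∈ A.W c N) : P g :=
  A.ind h0 h1 g fun n hn => by
    obtain ⟨l, h3, h4⟩ := hg n hn
    exact h2 n hn l _ h4 h3

theorem W_mono {N N' : ℤ} {g : K} (hg : g ∈ A.W c N) (h : N' ≤ N) : g ∈ A.W c N' := fun n hn => by
  obtain ⟨l, h1, h2⟩ := hg n hn
  exact ⟨l, h.trans h1, h2⟩

theorem smul_mem_W {N N' m : ℤ} {h : RatFunc k} {g : K} (hh : h ∈ Fil c m) (hg : g ∈ A.W c N)
    (hN : N' ≤ N + p * m) : h • g ∈ A.W c N' := fun n hn => by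
  obtain ⟨l, h1, h2⟩ := hg n hn
  refine ⟨m + l, by linarith, ?_⟩
  rw [map_smul]
  exact Fil_mul hh h2 le_rfl

theorem T_mem_W {N : ℤ} {g : K} (hg : g ∈ A.W c N) : A.T g ∈ A.W c N := by
  refine W_ind (P := fun g => A.T g ∈ A.W c N) (by simp)
    (fun a b ha hb => by rw [map_add]; exact add_mem ha hb) ?_ hg
  intro n _ l h hh hl
  rw [map_smul, T_b]
  exact mono_mem_W hh fun _ => by push_cast; nlinarith [Int.natCast_nonneg (A.d c)]

theorem T_pow_mem_W {N : ℤ} {g : K} (hg : g ∈ A.W c N) (m : ℕ) : (A.T ^ m) g ∈ A.W c N := by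
  induction m with
  | zero => simpa using hg
  | succ m ih => rw [pow_succ', Module.End.mul_apply]; exact T_mem_W ih

theorem exists_mem_W (c : Option k) (g : K) : ∃ N, g ∈ A.W c N := by
  refine A.ind (P := fun g => ∃ N, g ∈ A.W c N) ⟨0, zero_mem _⟩ ?_ g fun n _ => ?_
  · rintro a b ⟨N, ha⟩ ⟨N', hb⟩
    exact ⟨min N N', add_mem (W_mono ha (min_le_left _ _)) (W_mono hb (min_le_right _ _))⟩
  · obtain ⟨l, hl⟩ := exists_mem_Fil c (A.cf n g)
    exact ⟨_, mono_mem_W hl fun _ => le_rfl⟩

theorem mem_W_iff_val {V : ValuationSubring K} (hV : Dom V c) (hc : 0 < A.d c) {N : ℤ} {g : K} :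
    g ∈ A.W c N ↔ V.valuation g ^ p ≤
      V.valuation (algebraMap (RatFunc k) K (tt c)) ^ (N - A.d c * (p - 1)) := by
  have hp := (Fact.out : p.Prime).pos
  constructor
  · refine W_ind (P := fun g => V.valuation g ^ p ≤ _) (by simp [hp.ne']) ?_ ?_
    · intro a b ha hb
      rw [← map_pow, add_pow_char]
      exact V.valuation.map_add_le (by rwa [map_pow]) (by rwa [map_pow])
    · intro n hn l h hh hl
      by_cases h0 : h = 0
      · simp [h0, hp.ne']
      obtain ⟨m, hm⟩ := exists_hasOrd c h0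
      rw [val_mono hV hc hn hm, zpow_le_zpow_iff_right_of_lt_one₀ (Dom.pos c) hV.lt]
      have := hm.le hh
      nlinarith
  · intro h n hn
    by_cases h0 : A.cf n g = 0
    · simpa [h0] using (A.W c N).zero_mem n hn
    obtain ⟨m, hm⟩ := exists_hasOrd c h0
    refine ⟨m, ?_, hm.mem⟩
    have h1 := val_term_le (A := A) hV hc (fun n => A.cf n g) hn
    rw [A.sum_cf] at h1
    have h2 := (pow_le_pow_left' h1 p).trans h
    rw [val_mono hV hc hn hm, zpow_le_zpow_iff_right_of_lt_one₀ (Dom.pos c) hV.lt] at h2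
    linarith

theorem mem_M_iff_val {V : ValuationSubring K} (hV : Dom V c) (hc : 0 < A.d c) {g : K} :
    g ∈ A.M c ↔ g ∈ V := by
  rw [M, mem_W_iff_val hV hc, sub_self, zpow_zero, pow_le_one_iff (Fact.out : p.Prime).ne_zero,
    V.valuation_le_one_iff]

variable (A) in
theorem exists_shift : ∃ σ : K →ₐ[RatFunc k] K, σ A.y = A.y + 1 := by
  have hp := (Fact.out : p.Prime).two_le
  have hint : IsIntegral (RatFunc k) A.y := Algebra.IsIntegral.isIntegral _
  let pb := PowerBasis.ofAdjoinEqTop hint A.hK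
  have hgen : pb.gen = A.y := by simp [pb]
  let P : (RatFunc k)[X] := X ^ p - (X + C A.f)
  have hdeg : (X + C A.f : (RatFunc k)[X]).degree < p := by
    rw [degree_X_add_C]; exact_mod_cast hp
  have hP : P.Monic := monic_X_pow_sub hdeg
  have hPd : P.natDegree = p := by
    rw [natDegree_sub_eq_left_of_natDegree_lt] <;> simp; omega
  have h1 : aeval A.y P = 0 := by
    simp only [P, map_sub, map_add, map_pow, aeval_X, aeval_C, ← A.hy]; ring
  have h2 : (minpoly (RatFunc k) A.y).natDegree = p := by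
    rw [← hgen, pb.natDegree_minpoly, ← pb.finrank, Module.finrank_eq_card_basis A.basis]; simp
  have h3 : P = minpoly (RatFunc k) A.y :=
    eq_of_monic_of_dvd_of_natDegree_le (minpoly.monic hint) hP (minpoly.dvd _ _ h1) (by omega)
  have h4 : aeval (A.y + 1) (minpoly (RatFunc k) pb.gen) = 0 := by
    rw [hgen, ← h3]
    simp only [P, map_sub, map_add, map_pow, aeval_X, aeval_C, ← A.hy, add_pow_char]; ring
  have h5 := pb.lift_gen (A.y + 1) h4
  exact ⟨pb.lift (A.y + 1) h4, (congrArg _ hgen.symm).trans h5⟩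

theorem cf_shift {σ : K →ₐ[RatFunc k] K} (hσ : σ A.y = A.y + 1) (n m : ℕ) (hm : m ≤ n + 1) :
    A.cf m (σ (A.b n) - A.b n) = if m = n + 1 ∧ m < p then 1 else 0 := by
  have hp := (Fact.out : p.Prime).two_le
  have h1 : σ (A.b n) = bb p (A.y + 1) n := by
    unfold b bb
    split_ifs <;> simp [hσ]
  have h2 : Finset.range p = Finset.range (p - 2 + 1 + 1) := by congr 1; omega
  rw [h1, bb_add, h2, Finset.sum_range_succ', Finset.sum_range_succ']
  simp only [one_pow, mul_one, Nat.factorial_zero, Nat.cast_one, inv_one, one_mul, add_zero,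
    zero_add, Nat.factorial_one]
  rw [b, add_sub_cancel_right, map_add, map_sum, Finset.sum_eq_zero, zero_add]
  · exact A.cf_b m (n + 1)
  · intro j _
    have h3 : (((j + 1 + 1).factorial : ℕ) : K)⁻¹ * bb p A.y (n + (j + 1 + 1)) =
        (((j + 1 + 1).factorial : ℕ) : RatFunc k)⁻¹ • A.b (n + (j + 1 + 1)) := by
      simp [Algebra.smul_def, b]
    rw [h3, map_smul, cf_b, if_neg (by omega), smul_zero]

theorem b_mem_IC (hc : A.d c = 0) (n : ℕ) : A.b n ∈ IC K c := by
  have hy : A.y ∈ IC K c := by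
    intro V hV
    have h1 : A.y ^ p - A.y ∈ V := by
      rw [A.hy, hV.mem_iff]; simpa [hc] using A.f_mem c
    by_contra h2
    rw [← V.valuation_le_one_iff] at h1 h2
    push Not at h2
    have h3 : V.valuation A.y < V.valuation (A.y ^ p) := by
      simpa using pow_lt_pow_right₀ h2 (Fact.out : p.Prime).one_lt
    rw [Valuation.map_sub_eq_of_lt_left _ h3] at h1
    exact absurd (h2.trans h3) h1.not_gt
  unfold b bb
  split_ifs
  · refine mul_mem ?_ (pow_mem hy _)
    have := algebraMap_mem_IC (K := K) (c := c).mpr (C_mem_Fil (((p - 1 - n).factorial : ℕ) : k)⁻¹)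
    simpa using this
  · exact zero_mem _

theorem cf_mem_of_IC (hc : A.d c = 0) {g : K} (hg : g ∈ IC K c) (n : ℕ) : A.cf n g ∈ Fil c 0 := by
  obtain ⟨σ, hσ⟩ := A.exists_shift
  have hIC : ∀ g ∈ IC K c, σ g ∈ IC K c := by
    intro g hg V hV
    refine hg (V.comap σ.toRingHom) ⟨fun a => ?_, ?_⟩
    · rw [Valuation.comap_apply, ValuationSubring.valuation_le_one_iff]
      simpa using hV.mem_iff.mpr (C_mem_Fil a)
    · have := hV.lt
      rw [Valuation.comap_apply, ← ValuationSubring.mem_nonunits_iff,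
        ValuationSubring.mem_nonunits_iff_or] at this ⊢
      simpa using this
  have key : ∀ j m, p ≤ m + j → ∀ g ∈ IC K c, (∀ n < m, A.cf n g = 0) →
      ∀ n, A.cf n g ∈ Fil c 0 := by
    intro j
    induction j with
    | zero =>
      intro m hm g _ h n
      by_cases hn : n < p
      · rw [h n (by omega)]; exact zero_mem _
      · rw [A.cf_of_le (by omega)]; exact zero_mem _
    | succ j ih =>
      intro m hm g hg h
      have h1 : A.cf m g ∈ Fil c 0 := by
        by_cases hm1 : m + 1 < p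
        · have h3 : ∀ r ≤ m + 1, A.cf r (σ g - g) = if r = m + 1 then A.cf m g else 0 := by
            intro r hr
            conv_lhs => rw [← A.sum_cf g]
            rw [map_sum, ← Finset.sum_sub_distrib, map_sum, Finset.sum_eq_single m]
            · rw [map_smul, ← smul_sub, map_smul, cf_shift hσ m r hr]
              by_cases h4 : r = m + 1 <;> simp [h4, hm1]
            · intro i _ hi
              rcases lt_or_gt_of_ne hi with h4 | h4
              · simp [h i h4]
              · rw [map_smul, ← smul_sub, map_smul, cf_shift hσ i r (by omega), if_neg (by omega),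
                  smul_zero]
            · intro h4
              rw [Finset.mem_range] at h4; omega
          have h2 := ih (m + 1) (by omega) _ (sub_mem (hIC g hg) hg)
            (fun n hn => by rw [h3 n hn.le, if_neg hn.ne]) (m + 1)
          rwa [h3 _ le_rfl, if_pos rfl] at h2
        · by_cases hm2 : m < p
          · have h3 : g = algebraMap (RatFunc k) K (A.cf m g) := by
              conv_lhs => rw [← A.sum_cf g]
              rw [Finset.sum_eq_single m, show m = p - 1 by omega, b_last,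
                Algebra.algebraMap_eq_smul_one]
              · intro i hi h4
                rw [h i (by rw [Finset.mem_range] at hi; omega), zero_smul]
              · intro h4
                rw [Finset.mem_range] at h4; omega
            rw [h3] at hg
            exact algebraMap_mem_IC.mp hg
          · rw [A.cf_of_le (by omega)]; exact zero_mem _
      have h2 := ih (m + 1) (by omega) (g - A.cf m g • A.b m) (sub_mem hg (by
        rw [Algebra.smul_def]
        exact mul_mem (algebraMap_mem_IC.mpr h1) (b_mem_IC hc m))) (fun n hn => by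
          rw [map_sub, map_smul, cf_b]
          rcases (Nat.le_of_lt_succ hn).eq_or_lt with rfl | h4
          · by_cases h5 : n < p
            · simp [h5]
            · simp [h5, A.cf_of_le (Nat.not_lt.mp h5)]
          · rw [h n h4, if_neg (by omega)]; simp)
      intro n
      by_cases hn : n = m
      · rw [hn]; exact h1
      · simpa [cf_b, hn] using h2 n
  exact key p 0 (by omega) g hg (by omega) n

theorem mem_M_iff {g : K} : g ∈ A.M c ↔ g ∈ IC K c := by
  have hp : (0 : ℤ) < p := by exact_mod_cast (Fact.out : p.Prime).pos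
  rcases Nat.eq_zero_or_pos (A.d c) with hc | hc
  · constructor
    · refine W_ind (P := fun g => g ∈ IC K c) (zero_mem _) (fun a b => add_mem) ?_
      intro n _ l h hh hl
      rw [Algebra.smul_def]
      refine mul_mem (algebraMap_mem_IC.mpr (Fil_mono hh ?_)) (b_mem_IC hc n)
      simp only [hc, Nat.cast_zero, zero_mul, add_zero] at hl
      exact nonneg_of_mul_nonneg_right hl hp
    · exact fun hg n _ => ⟨0, by simp [hc], cf_mem_of_IC hc hg n⟩
  · refine ⟨fun h V hV => (mem_M_iff_val hV hc).mp h, fun h => ?_⟩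
    obtain ⟨V, hV⟩ := exists_dom K c
    exact (mem_M_iff_val hV hc).mpr (h V hV)

theorem mul_mem_M {g h : K} (hg : g ∈ A.M c) (hh : h ∈ A.M c) : g * h ∈ A.M c :=
  mem_M_iff.mpr (mul_mem (mem_M_iff.mp hg) (mem_M_iff.mp hh))

theorem pow_mem_M {g : K} (hg : g ∈ A.M c) (n : ℕ) : g ^ n ∈ A.M c :=
  mem_M_iff.mpr (pow_mem (mem_M_iff.mp hg) n)

theorem algebraMap_mem_M {h : RatFunc k} : algebraMap (RatFunc k) K h ∈ A.M c ↔ h ∈ Fil c 0 := by
  rw [mem_M_iff, algebraMap_mem_IC]

end ASData

end Pool.Agent.Work.MP_6f9fbb_ag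
end

-- merged part: Pool.Agent.Work.MP_6f9fbb_ag.Local2
section
/-! Regular forms: local generator, stability under the Cartier operator. -/

namespace Pool.Agent.Work.MP_6f9fbb_ag

open Polynomial WithZero

set_option linter.unusedSectionVars false

variable {k : Type*} [Field k] [IsAlgClosed k] {p : ℕ} [Fact p.Prime]
  {K : Type*} [Field K] [Algebra k K] [Algebra (RatFunc k) K] [IsScalarTower k (RatFunc k) K]
  [Algebra.IsSeparable (RatFunc k) K] [CharP K p] [CharP (RatFunc k) p]

theorem hasOrd_natCast {c : Option k} {n : ℕ} (h0 : n ≠ 0) (hn : n < p) :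
    HasOrd c 0 (n : RatFunc k) := by
  have h1 := natCast_ne_zero_of_lt (E := RatFunc k) (p := p) h0 hn
  have := hasOrd_C (c := c) (a := (n : k)) (by
    intro h; apply h1; rw [← map_natCast RatFunc.C, h, map_zero])
  simpa using this

theorem fact_inv_mem {c : Option k} (n : ℕ) : ((n.factorial : ℕ) : RatFunc k)⁻¹ ∈ Fil c 0 := by
  simpa using C_mem_Fil (c := c) ((n.factorial : ℕ) : k)⁻¹

theorem hasOrd_der_tt (c : Option k) : HasOrd c (1 + ep c) (der k (RatFunc k) (tt c)) := by
  have := hasOrd_tt.mul (hasOrd_dl c)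
  rwa [dl, dlog, mul_div_cancel₀ _ (tt_ne c)] at this

namespace ASData

variable {A : ASData k p K} {c : Option k}

theorem hasOrd_der_f (hc : 0 < A.d c) :
    HasOrd c (-A.d c + ep c) (der k (RatFunc k) A.f) := by
  have h1 := ((hasOrd_natCast (p := p) hc.ne' (A.d_lt c)).neg.mul (hasOrd_dl c)).mul (A.hasOrd_f hc)
  have h2 := h1.add (Fil_mono (der_sub_mem (A.f_mem c)) (by omega))
  refine HasOrd.cast ?_ (show 0 + ep c + -(A.d c : ℤ) = _ by ring)
  convert h2 using 1
  push_cast; ring

theorem der_f_mem (c : Option k) : der k (RatFunc k) A.f ∈ Fil c (-A.d c + ep c) :=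
  der_mem (A.f_mem c)

theorem der_mem_N {g : K} (hg : g ∈ A.M c) : der k K g ∈ A.N c := by
  have hp : (2 : ℤ) ≤ p := by exact_mod_cast (Fact.out : p.Prime).two_le
  refine W_ind (P := fun g => der k K g ∈ A.N c) (by simp)
    (fun a b ha hb => by rw [map_add]; exact add_mem ha hb) ?_ hg
  intro n hn l h hh hl
  rw [der_mono]
  rcases Nat.eq_zero_or_pos (A.d c) with hc | hc
  · simp only [hc, Nat.cast_zero, zero_mul, add_zero] at hl
    have hl0 : 0 ≤ l := nonneg_of_mul_nonneg_right hl (by omega)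
    have h1 : der k (RatFunc k) A.f ∈ Fil c (1 + ep c) :=
      der_mem_zero (by simpa [hc] using A.f_mem c)
    refine sub_mem (mono_mem_W (der_mem_zero (Fil_mono hh hl0)) fun _ => ?_)
      (mono_mem_W (Fil_mul (Fil_mono hh hl0) h1 le_rfl) fun _ => ?_)
    · rw [hc]; push_cast; linarith
    · rw [hc]; push_cast; linarith
  · have hd : (1 : ℤ) ≤ A.d c := by exact_mod_cast hc
    refine sub_mem (mono_mem_W (der_mem hh) fun _ => by nlinarith)
      (mono_mem_W (Fil_mul hh (der_f_mem c) le_rfl) fun hn1 => ?_)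
    have h1 : (A.d c : ℤ) * (p - 1) ≠ p * l + A.d c * n := by
      intro h2
      have h10 : (p : ℤ) ∣ A.d c * ((p : ℤ) - 1 - n) := ⟨l, by linarith⟩
      rcases (Nat.prime_iff_prime_int.mp (Fact.out : p.Prime)).dvd_or_dvd h10 with h | h
      · have := Int.le_of_dvd (by omega) h
        have := A.d_lt c
        omega
      · have := Int.le_of_dvd (by omega) h
        omega
    have h2 := Int.add_one_le_of_lt (lt_of_le_of_ne hl h1)
    push_cast; linarith

variable (A) in
theorem dlog_y : dlog k A.y ∈ Fix k K p := by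
  have hf := (A.hasOrd_f A.hq0).ne
  have h1 := Ex_algebraMap (E := K) ((dlog_mem_Fix_iff hf).mp (dlog_mem_Fix_L (p := p) A.f))
  rw [map_sub, map_mul, map_pow, ← gam_algebraMap, ← neg_neg (algebraMap _ K (der k _ A.f)),
    ← A.der_y, ← A.hy, gam_neg] at h1
  have h2 := add_pow_sub_mem_Ex (k := k) (p := p) (-A.y) A.y
  have h3 : (-A.y) ^ (p - 1) = A.y ^ (p - 1) := by
    have h4 : (-A.y) ^ p = -A.y ^ p := by rw [← frobenius_def, map_neg, frobenius_def]
    have h5 : ∀ z : K, z ^ p = z ^ (p - 1) * z := fun z => by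
      rw [← pow_succ, Nat.sub_add_cancel (Fact.out : p.Prime).pos]
    rw [h5, h5 A.y, ← mul_neg] at h4
    exact mul_right_cancel₀ (neg_ne_zero.mpr A.y_ne) h4
  rw [dlog_mem_Fix_iff A.y_ne]
  convert sub_mem h2 h1 using 1
  rw [h3, map_neg, neg_add_eq_sub]; ring

variable (A) in
theorem dlog_b {n : ℕ} (hn : n < p) : dlog k (A.b n) ∈ Fix k K p := by
  have h1 := factorial_ne_zero_of_lt (E := K) (p := p) (n := p - 1 - n) (by omega)
  rw [b, bb, if_pos hn, dlog_mul (inv_ne_zero h1) (pow_ne_zero _ A.y_ne), dlog_inv, dlog_pow,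
    ← map_natCast (algebraMap k K), dlog_const]
  exact add_mem (by simp) (nsmul_mem A.dlog_y _)

variable (A c) in
theorem exists_pi : ∃ π ∈ A.M c, π ≠ 0 ∧ (∀ w, w ∈ A.N c ↔ ∃ h ∈ A.M c, w = h * der k K π) ∧
    dlog k π ∈ Fix k K p := by
  have hp := (Fact.out : p.Prime).two_le
  have ht := hasOrd_der_tt c
  have htF : dlog k (algebraMap (RatFunc k) K (tt c)) ∈ Fix k K p := by
    rw [dlog_algebraMap]; exact Fix_algebraMap (dlog_mem_Fix_L _)
  have ht0 : algebraMap (RatFunc k) K (tt c) ≠ 0 := by simpa using tt_ne c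
  rcases Nat.eq_zero_or_pos (A.d c) with hc | hc
  · refine ⟨algebraMap _ K (tt c), algebraMap_mem_M.mpr (Fil_mono tt_mem (by omega)), ht0,
      fun w => ⟨fun hw => ⟨(der k (RatFunc k) (tt c))⁻¹ • w, ?_, ?_⟩, ?_⟩, htF⟩
    · have h1 : w ∈ A.W c (p * (1 + ep c)) := by
        intro n hn
        obtain ⟨l, h1, h2⟩ := hw n hn
        refine ⟨l, ?_, h2⟩
        simp only [hc, Nat.cast_zero, zero_mul, add_zero] at h1 ⊢
        have h3 : ep c < l := by
          by_contra h4
          push Not at h4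
          linarith only [h1, mul_le_mul_of_nonneg_left h4 (Int.natCast_nonneg p)]
        exact mul_le_mul_of_nonneg_left (by omega) (Int.natCast_nonneg p)
      exact smul_mem_W ht.inv.mem h1 (by rw [hc]; push_cast; linarith)
    · rw [der_algebraMap, mul_comm, ← Algebra.smul_def, smul_smul, mul_inv_cancel₀ ht.ne, one_smul]
    · rintro ⟨h, hh, rfl⟩
      rw [der_algebraMap, mul_comm, ← Algebra.smul_def]
      exact smul_mem_W ht.mem hh (by rw [hc]; push_cast; linarith)
  · obtain ⟨s, hs⟩ := A.hd c hc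
    change p - 1 = A.d c * s at hs
    have hs0 : 0 < s := Nat.pos_of_ne_zero (by rintro rfl; omega)
    have hs1 : s ≤ p - 1 := hs ▸ Nat.le_mul_of_pos_left s hc
    have hs2 : (A.d c : ℤ) * s = p - 1 := by
      rw [← Nat.cast_mul, ← hs]; omega
    have hn : ((p - 1 - s : ℕ) : ℤ) = p - 1 - s := by omega
    obtain ⟨V, hV⟩ := exists_dom K c
    set τ := V.valuation (algebraMap (RatFunc k) K (tt c)) with hτ
    have hb : A.b (p - 1 - s) ≠ 0 := bb_ne A.y_ne (by omega)
    have h1 : V.valuation (der k K (tt c • A.b (p - 1 - s))) ^ p =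
        τ ^ (1 + p * ep c - A.d c * (p - 1)) := by
      have h2 := val_mono (A := A) hV hc (n := p - 1 - s) (by omega) ht
      have h3 := val_mono (A := A) hV hc (n := p - 1 - s + 1) (by omega)
        (hasOrd_tt.mul (hasOrd_der_f hc))
      have h4 : (p * (1 + (-(A.d c : ℤ) + ep c)) + A.d c * (p - 1 - s + 1 : ℕ) - A.d c * (p - 1)) =
          1 + p * ep c - A.d c * (p - 1) := by
        push_cast; rw [hn]; linarith only [hs2]
      rw [h4] at h3
      rw [der_mono, Valuation.map_sub_eq_of_lt_right, h3]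
      refine lt_of_pow_lt_pow_left' p ?_
      rw [h2, h3, zpow_lt_zpow_iff_right_of_lt_one₀ (Dom.pos c) hV.lt, hn]
      have h5 : (0 : ℤ) < A.d c := by exact_mod_cast hc
      have h6 : (0 : ℤ) < p - 1 := by omega
      linarith only [hs2, mul_pos h5 h6]
    have h0 : τ ^ (1 + p * ep c - A.d c * (p - 1)) ≠ 0 := zpow_ne_zero _ (Dom.pos c).ne'
    have h5 : der k K (tt c • A.b (p - 1 - s)) ≠ 0 := by
      intro h
      rw [h, map_zero, zero_pow (by omega)] at h1
      exact h0 h1.symm
    have h6 : ∀ h : K, h * der k K (tt c • A.b (p - 1 - s)) ∈ A.N c ↔ h ∈ A.M c := by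
      intro h
      rw [N, M, mem_W_iff_val hV hc, mem_W_iff_val hV hc, map_mul, mul_pow, h1, sub_self, zpow_zero]
      exact mul_le_iff_le_one_left (zero_lt_iff.mpr h0)
    refine ⟨tt c • A.b (p - 1 - s), mono_mem_W tt_mem fun _ => by rw [hn]; linarith only [hs2],
      smul_ne_zero (tt_ne c) hb, fun w => ⟨fun hw => ⟨w / der k K (tt c • A.b (p - 1 - s)),
        (h6 _).mp (by rwa [div_mul_cancel₀ _ h5]), by rw [div_mul_cancel₀ _ h5]⟩, ?_⟩, ?_⟩
    · rintro ⟨h, hh, rfl⟩
      exact (h6 h).mpr hh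
    · rw [Algebra.smul_def, dlog_mul ht0 hb]
      exact add_mem htF (A.dlog_b (by omega))

theorem mul_mem_N {g w : K} (hg : g ∈ A.M c) (hw : w ∈ A.N c) : g * w ∈ A.N c := by
  obtain ⟨π, -, -, h1, -⟩ := A.exists_pi c
  obtain ⟨h, hh, rfl⟩ := (h1 w).mp hw
  exact (h1 _).mpr ⟨g * h, mul_mem_M hg hh, by ring⟩

theorem exists_gam {w : K} (hw : w ∈ A.N c) : ∃ g, gam k p w - der k K g ∈ A.N c := by
  obtain ⟨π, hπ, h0, h1, h2⟩ := A.exists_pi c
  obtain ⟨h, hh, rfl⟩ := (h1 w).mp hw
  obtain ⟨u, hu⟩ := Ex_pow_mul (p := p) h ((dlog_mem_Fix_iff h0).mp h2)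
  refine ⟨-u, (h1 _).mpr ⟨h ^ p * π ^ (p - 1), mul_mem_M (pow_mem_M hh _) (pow_mem_M hπ _), ?_⟩⟩
  rw [map_neg, show der k K u = _ from hu, gam_mul]; ring

theorem car_mono (h : RatFunc k) (n : ℕ) : car k p (h • A.b n) = ∑ j ∈ Finset.range p,
    car k p (((j.factorial : ℕ) : RatFunc k)⁻¹ * (-A.f) ^ j * h) • A.b (n + j) := by
  rw [A.b_eq n, Finset.smul_sum]
  let C : K →+ K := ⟨⟨car k p, car_zero⟩, car_add⟩
  show C _ = _
  rw [map_sum]
  refine Finset.sum_congr rfl fun j _ => ?_
  show car k p _ = _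
  rw [smul_smul, Algebra.smul_def, mul_comm, car_pow_mul, car_algebraMap, Algebra.smul_def,
    mul_comm, mul_comm h]

theorem car_mem_N {w : K} (hw : w ∈ A.N c) : car k p w ∈ A.N c := by
  have hp : (2 : ℤ) ≤ p := by exact_mod_cast (Fact.out : p.Prime).two_le
  refine W_ind (P := fun g => car k p g ∈ A.N c) (by simp [car_zero])
    (fun a b ha hb => by rw [car_add]; exact add_mem ha hb) ?_ hw
  intro n _ l h hh hl
  rw [car_mono]
  refine Submodule.sum_mem _ fun j _ => ?_
  obtain ⟨l', h1, h2⟩ := car_mem (p := p) (l := l - ep c - j * A.d c)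
    (Fil_mul (Fil_mul (fact_inv_mem j) (Fil_pow (neg_mem (A.f_mem c)) j) le_rfl) hh (by linarith))
  refine mono_mem_W h2 fun _ => ?_
  have h3 : 0 < l - ep c + A.d c * n := by
    by_contra h4
    push Not at h4
    nlinarith [mul_nonneg (Int.natCast_nonneg (A.d c)) (Int.natCast_nonneg n)]
  push_cast; linarith

variable (A) in
open Classical in
/-- A finite set of places outside which `g` is regular. -/
noncomputable def badK (g : K) : Finset (Option k) :=
  bad A.f ∪ (Finset.range p).biUnion fun n => bad (A.cf n g)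

theorem d_of_not_mem (h : c ∉ bad A.f) : A.d c = 0 := pd_of_not_mem_bad h

theorem mem_W_of_not_mem {g : K} (h : c ∉ A.badK g) : g ∈ A.W c 0 := by
  classical
  intro n hn
  simp only [badK, Finset.mem_union, Finset.mem_biUnion, not_or, not_exists, not_and] at h
  exact ⟨0, by positivity, mem_of_not_mem_bad (h.2 n (Finset.mem_range.mpr hn))⟩

theorem M_eq (h : c ∉ bad A.f) : A.M c = A.W c 0 := by simp [M, d_of_not_mem h]

theorem mem_N_iff (h : c ∉ bad A.f) {g : K} : g ∈ A.N c ↔ g ∈ A.W c 0 := by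
  have hp : (2 : ℤ) ≤ p := by exact_mod_cast (Fact.out : p.Prime).two_le
  have he : ep c = -1 := by
    cases c with
    | none => exact absurd (none_mem_bad _) h
    | some c => rfl
  refine ⟨fun hg n hn => ?_, fun hg => W_mono hg (by rw [he]; linarith)⟩
  obtain ⟨l, h1, h2⟩ := hg n hn
  refine ⟨l, ?_, h2⟩
  simp only [d_of_not_mem h, he, Nat.cast_zero, zero_mul, add_zero] at h1 ⊢
  have : 0 ≤ l := by
    by_contra h4
    push Not at h4
    nlinarith
  positivity

theorem exists_pow_smul {r : RatFunc k} (hr : r ∈ Fil c 1) (g : K) (N : ℤ) :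
    ∃ m : ℕ, r ^ m • g ∈ A.W c N := by
  have hp : (2 : ℤ) ≤ p := by exact_mod_cast (Fact.out : p.Prime).two_le
  obtain ⟨N', h⟩ := exists_mem_W (A := A) c g
  refine ⟨(N - N').toNat, smul_mem_W (Fil_pow hr _) h ?_⟩
  nlinarith [Int.self_le_toNat (N - N'), Int.natCast_nonneg (N - N').toNat]

end ASData

end Pool.Agent.Work.MP_6f9fbb_ag
end

-- merged part: Pool.Agent.Work.MP_6f9fbb_ag.Global
section
/-! The adelic model of the de Rham cohomology, with `T`, `F` and `V`. -/

namespace Pool.Agent.Work.MP_6f9fbb_ag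

set_option linter.unusedSectionVars false

variable {k : Type*} [Field k] [IsAlgClosed k] {p : ℕ} [Fact p.Prime] [CharP k p]
  {K : Type*} [Field K] [Algebra k K] [Algebra (RatFunc k) K] [IsScalarTower k (RatFunc k) K]
  [Algebra.IsSeparable (RatFunc k) K] [CharP K p] [CharP (RatFunc k) p]

theorem car_smul (a : k) (w : K) :
    car k p (a • w) = ((frobeniusEquiv k p).symm : k →+* k) a • car k p w := by
  obtain ⟨b, rfl⟩ := (frobeniusEquiv k p).surjective a
  rw [RingHom.coe_coe, RingEquiv.symm_apply_apply, frobeniusEquiv_apply, frobenius_def,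
    Algebra.smul_def, map_pow, car_pow_mul, Algebra.smul_def]

namespace ASData

variable (A : ASData k p K)

/-- Adelic cocycles. -/
noncomputable def Z : Submodule k (K × (Option k → K)) where
  carrier := {z | (∀ c, c ∉ bad A.f → z.2 c = 0) ∧ ∀ c, z.1 - der k K (z.2 c) ∈ A.N c}
  add_mem' := by
    rintro a b ⟨a1, a2⟩ ⟨b1, b2⟩
    refine ⟨fun c hc => by simp [a1 c hc, b1 c hc], fun c => ?_⟩
    convert add_mem (a2 c) (b2 c) using 1
    simp only [Prod.fst_add, Prod.snd_add, Pi.add_apply, map_add]; abel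
  zero_mem' := ⟨fun _ _ => rfl, fun c => by simp⟩
  smul_mem' := by
    rintro r a ⟨a1, a2⟩
    refine ⟨fun c hc => by simp [a1 c hc], fun c => ?_⟩
    convert Submodule.smul_mem _ r (a2 c) using 1
    simp only [Prod.smul_fst, Prod.smul_snd, Pi.smul_apply, Derivation.map_smul, smul_sub]

/-- Adelic coboundaries. -/
noncomputable def Bd : Submodule k (K × (Option k → K)) where
  carrier := {z | ∃ g, z.1 = der k K g ∧ ∀ c, z.2 c - g ∈ A.M c}
  add_mem' := by
    rintro a b ⟨g, a1, a2⟩ ⟨h, b1, b2⟩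
    refine ⟨g + h, by simp [a1, b1], fun c => ?_⟩
    convert add_mem (a2 c) (b2 c) using 1
    simp only [Prod.snd_add, Pi.add_apply]; abel
  zero_mem' := ⟨0, by simp, fun c => by simp⟩
  smul_mem' := by
    rintro r a ⟨g, a1, a2⟩
    refine ⟨r • g, by simp [a1], fun c => ?_⟩
    convert Submodule.smul_mem _ r (a2 c) using 1
    simp only [Prod.smul_snd, Pi.smul_apply, smul_sub]

/-- The adelic de Rham cohomology. -/
abbrev H : Type _ := A.Z ⧸ A.Bd.submoduleOf A.Z

open Classical in
/-- The class of a cocycle. -/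
noncomputable def cl (z : K × (Option k → K)) : A.H :=
  if h : z ∈ A.Z then Submodule.Quotient.mk ⟨z, h⟩ else 0

variable {A}

theorem cl_mk {z : K × (Option k → K)} (h : z ∈ A.Z) : A.cl z = Submodule.Quotient.mk ⟨z, h⟩ :=
  dif_pos h

theorem cl_surj (u : A.H) : ∃ z ∈ A.Z, u = A.cl z := by
  obtain ⟨⟨z, hz⟩, rfl⟩ := Submodule.Quotient.mk_surjective _ u
  exact ⟨z, hz, (cl_mk hz).symm⟩

theorem cl_add {z z' : K × (Option k → K)} (h : z ∈ A.Z) (h' : z' ∈ A.Z) :
    A.cl (z + z') = A.cl z + A.cl z' := by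
  rw [cl_mk h, cl_mk h', cl_mk (add_mem h h')]; rfl

theorem cl_sub {z z' : K × (Option k → K)} (h : z ∈ A.Z) (h' : z' ∈ A.Z) :
    A.cl (z - z') = A.cl z - A.cl z' := by
  rw [cl_mk h, cl_mk h', cl_mk (sub_mem h h')]; rfl

theorem cl_neg {z : K × (Option k → K)} (h : z ∈ A.Z) : A.cl (-z) = -A.cl z := by
  rw [cl_mk h, cl_mk (neg_mem h)]; rfl

theorem cl_smul (r : k) {z : K × (Option k → K)} (h : z ∈ A.Z) : A.cl (r • z) = r • A.cl z := by
  rw [cl_mk h, cl_mk (Submodule.smul_mem _ r h)]; rfl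

theorem cl_zero : A.cl 0 = 0 := by rw [cl_mk (zero_mem _)]; rfl

theorem cl_eq_iff {z z' : K × (Option k → K)} (h : z ∈ A.Z) (h' : z' ∈ A.Z) :
    A.cl z = A.cl z' ↔ ∃ g, z.1 - z'.1 = der k K g ∧ ∀ c, z.2 c - z'.2 c - g ∈ A.M c := by
  rw [cl_mk h, cl_mk h', Submodule.Quotient.eq]; rfl

variable (A)

/-- The subspace of cocycles whose class lies in `S`. -/
noncomputable def clIn (S : Submodule k A.H) : Submodule k (K × (Option k → K)) :=
  (S.comap (A.Bd.submoduleOf A.Z).mkQ).map A.Z.subtype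

variable {A} in
theorem mem_clIn {S : Submodule k A.H} {z : K × (Option k → K)} :
    z ∈ A.clIn S ↔ z ∈ A.Z ∧ A.cl z ∈ S := by
  constructor
  · rintro ⟨⟨z, hz⟩, h, rfl⟩
    exact ⟨hz, by rw [Submodule.coe_subtype, cl_mk hz]; exact h⟩
  · rintro ⟨hz, h⟩
    exact ⟨⟨z, hz⟩, by rw [cl_mk hz] at h; exact h, rfl⟩

/-- The map induced on cohomology. -/
noncomputable def induce {σ : k →+* k} (φ : (K × (Option k → K)) →ₛₗ[σ] (K × (Option k → K)))
    (h1 : ∀ z ∈ A.Z, φ z ∈ A.Z) (h2 : ∀ z ∈ A.Bd, φ z ∈ A.Bd) : A.H →ₛₗ[σ] A.H :=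
  Submodule.mapQ _ _ (φ.restrict h1) fun z hz => h2 z.1 hz

theorem induce_cl {σ : k →+* k} (φ : (K × (Option k → K)) →ₛₗ[σ] (K × (Option k → K)))
    (h1 : ∀ z ∈ A.Z, φ z ∈ A.Z) (h2 : ∀ z ∈ A.Bd, φ z ∈ A.Bd) {z : K × (Option k → K)}
    (hz : z ∈ A.Z) : A.induce φ h1 h2 (A.cl z) = A.cl (φ z) := by
  rw [cl_mk hz, cl_mk (h1 z hz)]; rfl

/-- `T` on cochains. -/
noncomputable def T0 : (K × (Option k → K)) →ₗ[k] (K × (Option k → K)) where
  toFun z := (A.T z.1, fun c => A.T (z.2 c))
  map_add' a b := by ext <;> simp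
  map_smul' r a := by ext <;> simp

variable (k p K) in
/-- `F` on cochains. -/
noncomputable def F0 : (K × (Option k → K)) →ₛₗ[frobenius k p] (K × (Option k → K)) where
  toFun z := (0, fun c => z.2 c ^ p)
  map_add' a b := by ext <;> simp [add_pow_char]
  map_smul' r a := by ext <;> simp [smul_pow, frobenius_def]

variable (k p K) in
/-- `V` on cochains. -/
noncomputable def V0 :
    (K × (Option k → K)) →ₛₗ[((frobeniusEquiv k p).symm : k →+* k)] (K × (Option k → K)) where
  toFun z := (car k p z.1, 0)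
  map_add' a b := by ext <;> simp [car_add]
  map_smul' r a := by
    ext
    · exact car_smul r a.1
    · simp

variable {A}

theorem T0_mem {z : K × (Option k → K)} (hz : z ∈ A.Z) :
    ((A.T z.1, fun c => A.T (z.2 c)) : K × (Option k → K)) ∈ A.Z := by
  refine ⟨fun c hc => by simp [hz.1 c hc], fun c => ?_⟩
  have := T_mem_W (hz.2 c)
  rwa [map_sub, T_der] at this

theorem hol_mem {w : K} (hw : ∀ c, w ∈ A.N c) : ((w, 0) : K × (Option k → K)) ∈ A.Z :=
  ⟨fun _ _ => rfl, fun c => by simpa using hw c⟩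

theorem F0_mem {z : K × (Option k → K)} (hz : z ∈ A.Z) :
    ((0, fun c => z.2 c ^ p) : K × (Option k → K)) ∈ A.Z :=
  ⟨fun c hc => by simp [hz.1 c hc, (Fact.out : p.Prime).ne_zero], fun c => by simp⟩

theorem car_hol {z : K × (Option k → K)} (hz : z ∈ A.Z) (c : Option k) : car k p z.1 ∈ A.N c := by
  have := car_mem_N (hz.2 c)
  rwa [car_sub, car_of_mem (der_mem_Ex _), sub_zero] at this

theorem V0_mem {z : K × (Option k → K)} (hz : z ∈ A.Z) :
    ((car k p z.1, 0) : K × (Option k → K)) ∈ A.Z := hol_mem (car_hol hz)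

variable (A)

/-- `T` on cohomology. -/
noncomputable def TH : Module.End k A.H :=
  A.induce A.T0 (fun _ => T0_mem) (by
    rintro z ⟨g, h1, h2⟩
    refine ⟨A.T g, by simp [T0, h1, T_der], fun c => ?_⟩
    have := T_mem_W (h2 c)
    rwa [map_sub] at this)

/-- `F` on cohomology. -/
noncomputable def FH : A.H →ₛₗ[frobenius k p] A.H :=
  A.induce (F0 k p K) (fun _ => F0_mem) (by
    rintro z ⟨g, -, h2⟩
    refine ⟨g ^ p, by simp [F0], fun c => ?_⟩
    have := pow_mem_M (h2 c) p
    rwa [sub_pow_char] at this)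

/-- `V` on cohomology. -/
noncomputable def VH : A.H →ₛₗ[((frobeniusEquiv k p).symm : k →+* k)] A.H :=
  A.induce (V0 k p K) (fun _ => V0_mem) (by
    rintro z ⟨g, h1, -⟩
    refine ⟨0, ?_, fun c => by simp [V0]⟩
    show car k p z.1 = _
    rw [h1, car_of_mem (der_mem_Ex _), map_zero])

variable {A}

theorem TH_cl {z : K × (Option k → K)} (hz : z ∈ A.Z) :
    A.TH (A.cl z) = A.cl (A.T z.1, fun c => A.T (z.2 c)) := A.induce_cl _ _ _ hz

theorem FH_cl {z : K × (Option k → K)} (hz : z ∈ A.Z) :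
    A.FH (A.cl z) = A.cl (0, fun c => z.2 c ^ p) := A.induce_cl _ _ _ hz

theorem VH_cl {z : K × (Option k → K)} (hz : z ∈ A.Z) :
    A.VH (A.cl z) = A.cl (car k p z.1, 0) := A.induce_cl _ _ _ hz

theorem T_pow_mem {z : K × (Option k → K)} (hz : z ∈ A.Z) (n : ℕ) :
    (((A.T ^ n) z.1, fun c => (A.T ^ n) (z.2 c)) : K × (Option k → K)) ∈ A.Z := by
  induction n with
  | zero => simpa using hz
  | succ n ih => simpa only [pow_succ', Module.End.mul_apply] using T0_mem ih

theorem TH_pow_cl {z : K × (Option k → K)} (hz : z ∈ A.Z) (n : ℕ) :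
    (A.TH ^ n) (A.cl z) = A.cl ((A.T ^ n) z.1, fun c => (A.T ^ n) (z.2 c)) := by
  induction n with
  | zero => simp
  | succ n ih =>
    rw [pow_succ', Module.End.mul_apply, ih, TH_cl (T_pow_mem hz n)]
    simp only [pow_succ', Module.End.mul_apply]

theorem FH_TH (u : A.H) : A.FH (A.TH u) = A.TH (A.FH u) := by
  obtain ⟨z, hz, rfl⟩ := cl_surj u
  rw [TH_cl hz, FH_cl (T0_mem hz), FH_cl hz, TH_cl (F0_mem hz)]
  simp [T_frob]

theorem VH_TH (u : A.H) : A.VH (A.TH u) = A.TH (A.VH u) := by
  obtain ⟨z, hz, rfl⟩ := cl_surj u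
  rw [TH_cl hz, VH_cl (T0_mem hz), VH_cl hz, TH_cl (V0_mem hz)]
  simp only [T_car, Pi.zero_apply, map_zero]
  rfl

theorem FH_VH (u : A.H) : A.FH (A.VH u) = 0 := by
  obtain ⟨z, hz, rfl⟩ := cl_surj u
  rw [VH_cl hz, FH_cl (V0_mem hz), ← cl_zero]
  congr 1
  ext <;> simp [(Fact.out : p.Prime).ne_zero]

theorem VH_FH (u : A.H) : A.VH (A.FH u) = 0 := by
  obtain ⟨z, hz, rfl⟩ := cl_surj u
  rw [FH_cl hz, VH_cl (F0_mem hz), ← cl_zero]
  congr 1
  ext <;> simp [car_zero]

end ASData

end Pool.Agent.Work.MP_6f9fbb_ag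
end

-- merged part: Pool.Agent.Work.MP_6f9fbb_ag.Span
section
/-! Explicit cocycles and nilpotence of `T`. -/

namespace Pool.Agent.Work.MP_6f9fbb_ag

open scoped Classical

set_option linter.unusedSectionVars false

variable {k : Type*} [Field k] [IsAlgClosed k] {p : ℕ} [Fact p.Prime] [CharP k p]
  {K : Type*} [Field K] [Algebra k K] [Algebra (RatFunc k) K] [IsScalarTower k (RatFunc k) K]
  [Algebra.IsSeparable (RatFunc k) K] [CharP K p] [CharP (RatFunc k) p]

theorem exists_expand {c : Option k} (G : Submodule k (RatFunc k)) (l0 : ℤ) (m : ℕ)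
    (hG : ∀ l, l0 ≤ l → l < l0 + m → ∃ g ∈ G, HasOrd c l g) {u : RatFunc k} (hu : u ∈ Fil c l0) :
    ∃ θ ∈ G, u - θ ∈ Fil c (l0 + m) := by
  induction m with
  | zero => exact ⟨0, zero_mem _, by simpa using hu⟩
  | succ m ih =>
    obtain ⟨θ, h1, h2⟩ := ih fun l h1 h2 => hG l h1 (by push_cast; omega)
    obtain ⟨g, h3, h4⟩ := hG (l0 + m) (by omega) (by push_cast; omega)
    obtain ⟨a, ha⟩ := exists_sub_smul h2 h4
    exact ⟨θ + a • g, add_mem h1 (G.smul_mem a h3), by
      rw [← sub_sub]; exact Fil_mono ha (by push_cast; omega)⟩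

/-- Functions with bounded orders away from one place. -/
noncomputable def away (q : Option k) (m : Option k → ℤ) : Submodule k (RatFunc k) :=
  ⨅ c, ⨅ _ : c ≠ q, Fil c (m c)

theorem mem_away {q : Option k} {m : Option k → ℤ} {h : RatFunc k} :
    h ∈ away q m ↔ ∀ c, c ≠ q → h ∈ Fil c (m c) := by simp [away]

theorem exists_polar_form (q : Option k) (η : RatFunc k) :
    ∃ θ, η - θ ∈ Fil q (ep q) ∧ ∀ c, c ≠ q → θ ∈ Fil c (1 + ep c) := by
  obtain ⟨l, hl⟩ := exists_mem_Fil q η
  obtain ⟨θ, h1, h2⟩ := exists_expand (c := q) (away q fun c => 1 + ep c) l (ep q - l).toNat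
    (fun l' _ h4 => ⟨der k (RatFunc k) (tt q)⁻¹ * tt q ^ (l' + 1 - ep q), mem_away.mpr fun c hc =>
      Fil_mul (der_mem_zero (tt_inv_mem_of_ne hc)) (tt_zpow_mem_of_ne hc (by omega)) (by omega), by
        have h5 := ((hasOrd_tt.inv.pow 2).neg.mul (hasOrd_der_tt q)).mul
          (hasOrd_tt_zpow (l' + 1 - ep q))
        rw [Derivation.leibniz_inv, smul_eq_mul]
        exact h5.cast (by push_cast; ring)⟩) hl
  exact ⟨θ, Fil_mono h2 (by omega), mem_away.mp h1⟩

theorem glue_mem (G : Submodule k (RatFunc k)) (P : Finset (Option k)) (m : Option k → ℤ)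
    {η : RatFunc k} (h1 : ∀ q ∈ P, ∃ θ ∈ G, η - θ ∈ Fil q (m q) ∧ θ ∈ away q m)
    (h2 : ∀ c, c ∉ P → η ∈ Fil c (m c)) : ∃ θ ∈ G, ∀ c, η - θ ∈ Fil c (m c) := by
  choose! θ h3 h4 h5 using h1
  refine ⟨∑ q ∈ P, θ q, G.sum_mem h3, fun c => ?_⟩
  by_cases hc : c ∈ P
  · rw [← Finset.add_sum_erase _ _ hc, ← sub_sub]
    exact sub_mem (h4 c hc) (Submodule.sum_mem _ fun q hq =>
      mem_away.mp (h5 q (Finset.mem_of_mem_erase hq)) c (Finset.ne_of_mem_erase hq).symm)
  · exact sub_mem (h2 c hc) (Submodule.sum_mem _ fun q hq =>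
      mem_away.mp (h5 q hq) c (by rintro rfl; exact hc hq))

theorem le_of_mul_lt {a b : ℤ} (h : (p : ℤ) * a < p * (b + 1)) : a ≤ b := by
  have hp : (0 : ℤ) < p := by exact_mod_cast (Fact.out : p.Prime).pos
  have := lt_of_mul_lt_mul_left h hp.le
  omega

namespace ASData

variable {A : ASData k p K} {c : Option k}

theorem cf_mono {n : ℕ} (hn : n < p) (h : RatFunc k) : A.cf n (h • A.b n) = h := by
  simp [cf_b, hn]

theorem cf_smul_mem_W {N : ℤ} {g : K} (hg : g ∈ A.W c N) (n : ℕ) : A.cf n g • A.b n ∈ A.W c N := by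
  by_cases hn : n < p
  · obtain ⟨l, h1, h2⟩ := hg n hn
    exact mono_mem_W h2 fun _ => h1
  · rw [A.b_of_le (by omega), smul_zero]; exact zero_mem _

theorem cf_zero_mem {w : K} (hw : w ∈ A.N c) : A.cf 0 w ∈ Fil c (1 + ep c) := by
  obtain ⟨l, h1, h2⟩ := hw 0 (Fact.out : p.Prime).pos
  refine Fil_mono h2 ?_
  have : ep c ≤ l - 1 := le_of_mul_lt (p := p) (by push_cast at h1; linarith)
  omega

theorem reg_mem_N {h : RatFunc k} (hh : h ∈ Fil c (1 + ep c)) (n : ℕ) : h • A.b n ∈ A.N c :=
  mono_mem_W hh fun _ => by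
    have hp : (1 : ℤ) ≤ p := by exact_mod_cast (Fact.out : p.Prime).pos
    nlinarith [mul_nonneg (Int.natCast_nonneg (A.d c)) (Int.natCast_nonneg n)]

theorem log_mem_N (hc : 0 < A.d c) {h : RatFunc k} (hh : h ∈ Fil c (ep c)) (n : ℕ) :
    h • A.b (n + 1) ∈ A.N c :=
  mono_mem_W hh fun _ => by
    have hp : (1 : ℤ) ≤ A.d c := by exact_mod_cast hc
    push_cast
    nlinarith [mul_nonneg (Int.natCast_nonneg (A.d c)) (Int.natCast_nonneg n)]

theorem fil_mem_M {h : RatFunc k} (hh : h ∈ Fil c (A.d c)) (n : ℕ) : h • A.b n ∈ A.M c :=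
  mono_mem_W hh fun _ => by
    nlinarith [mul_nonneg (Int.natCast_nonneg (A.d c)) (Int.natCast_nonneg n),
      Int.natCast_nonneg (A.d c)]

theorem smul_last (h : RatFunc k) : h • A.b (p - 1) = algebraMap (RatFunc k) K h := by
  rw [b_last, Algebra.algebraMap_eq_smul_one]

theorem T_pow_last (g : K) : (A.T ^ (p - 1)) g = A.cf 0 g • A.b (p - 1) := by
  have hp := (Fact.out : p.Prime).pos
  refine A.ind (P := fun g => (A.T ^ (p - 1)) g = A.cf 0 g • A.b (p - 1)) (by simp)
    (fun a b ha hb => by simp only [map_add, ha, hb, add_smul]) g fun n _ => ?_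
  rw [map_smul, T_pow_b, map_smul, cf_b]
  rcases Nat.eq_zero_or_pos n with rfl | hn
  · simp [hp]
  · rw [A.b_of_le (by omega), if_neg (by omega)]; simp

theorem cf_zero_der (g : K) : A.cf 0 (der k K g) = der k (RatFunc k) (A.cf 0 g) := by
  refine A.ind (P := fun g => A.cf 0 (der k K g) = der k (RatFunc k) (A.cf 0 g)) (by simp)
    (fun a b ha hb => by simp only [map_add, ha, hb]) g fun n _ => ?_
  rw [der_mono, map_sub, map_smul, map_smul, map_smul, cf_b, cf_b]
  split_ifs <;> simp_all

theorem cf_zero_T (g : K) : A.cf 0 (A.T g) = 0 := by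
  refine A.ind (P := fun g => A.cf 0 (A.T g) = 0) (by simp)
    (fun a b ha hb => by simp only [map_add, ha, hb, add_zero]) g fun n _ => ?_
  simp [T_b, cf_b]

theorem cf_zero_T_pow {m : ℕ} (hm : 0 < m) (g : K) : A.cf 0 ((A.T ^ m) g) = 0 := by
  obtain ⟨m, rfl⟩ : ∃ n, m = n + 1 := ⟨m - 1, by omega⟩
  rw [pow_succ', Module.End.mul_apply, cf_zero_T]

theorem base_bd {η : RatFunc k} {a : Option k → RatFunc k} (h1 : ∀ c, c ∉ bad A.f → a c = 0)
    (h2 : ∀ c, η - der k (RatFunc k) (a c) ∈ Fil c (1 + ep c)) :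
    ∃ g, η • A.b (p - 1) = der k K g ∧ ∀ c, a c • A.b (p - 1) - g ∈ A.M c := by
  obtain ⟨h, hh⟩ := exists_glue (bad A.f) a fun c hc => by rw [h1 c hc]; exact zero_mem _
  have h3 : ∀ c, η - der k (RatFunc k) h ∈ Fil c (1 + ep c) := fun c => by
    convert add_mem (h2 c) (der_mem_zero (hh c)) using 1
    rw [map_sub]; abel
  have h4 := form_eq_zero (c0 := none) (fun c _ => h3 c) (Fil_mono (h3 _) (by omega))
  refine ⟨algebraMap _ K h, ?_, fun c => ?_⟩
  · rw [smul_last, der_algebraMap, sub_eq_zero.mp h4]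
  · rw [smul_last, ← map_sub]
    exact algebraMap_mem_M.mpr (hh c)

variable (A) in
theorem TH_nil : A.TH ^ (p - 1) = 0 := by
  refine LinearMap.ext fun u => ?_
  obtain ⟨z, hz, rfl⟩ := cl_surj u
  rw [TH_pow_cl hz, LinearMap.zero_apply, ← cl_zero, cl_eq_iff (T_pow_mem hz _) (zero_mem _)]
  simpa only [T_pow_last, Prod.fst_zero, Prod.snd_zero, Pi.zero_apply, sub_zero] using
    base_bd (A := A) (η := A.cf 0 z.1) (a := fun c => A.cf 0 (z.2 c))
      (fun c hc => by rw [hz.1 c hc, map_zero])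
      (fun c => by rw [← cf_zero_der, ← map_sub]; exact cf_zero_mem (hz.2 c))

theorem mem_bad (hc : 0 < A.d c) : c ∈ bad A.f := by
  by_contra h
  exact hc.ne' (d_of_not_mem h)

variable (A)

/-- The polar part of `- t ^ l df`. -/
noncomputable def th (q : Option k) (l : ℕ) : RatFunc k :=
  (exists_polar_form q (-(tt q ^ l * der k (RatFunc k) A.f))).choose

theorem th_self (q : Option k) (l : ℕ) :
    A.th q l + tt q ^ l * der k (RatFunc k) A.f ∈ Fil q (ep q) := by
  convert neg_mem (exists_polar_form q (-(tt q ^ l * der k (RatFunc k) A.f))).choose_spec.1 using 1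
  rw [th]; ring

theorem th_away (q : Option k) (l : ℕ) {c : Option k} (h : c ≠ q) : A.th q l ∈ Fil c (1 + ep c) :=
  (exists_polar_form q (-(tt q ^ l * der k (RatFunc k) A.f))).choose_spec.2 c h

variable {A} in
theorem hasOrd_th {q : Option k} {l : ℕ} (hl : l < A.d q) :
    HasOrd q (l - A.d q + ep q) (A.th q l) := by
  have h1 := ((hasOrd_tt.pow l).mul (hasOrd_der_f (A := A) (c := q) (by omega))).neg.add
    (Fil_mono (A.th_self q l) (by omega))
  rw [add_comm (A.th q l), neg_add_cancel_left] at h1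
  exact h1.cast (by ring)

/-- The shifted basic cocycles. -/
noncomputable def eZ (q : Option k) (l n : ℕ) : K × (Option k → K) :=
  (A.th q l • A.b (n + 1), Pi.single q (tt q ^ l • A.b n))

/-- The logarithmic forms. -/
noncomputable def rho (q : Option k) : RatFunc k := dlog k (zz q A.q0)

variable {A}

theorem eZ_mem {q : Option k} (hq : 0 < A.d q) (l n : ℕ) : A.eZ q l n ∈ A.Z := by
  refine ⟨fun c hc => Pi.single_eq_of_ne (by rintro rfl; exact hc (mem_bad hq)) _, fun c => ?_⟩
  by_cases hc : c = q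
  · subst hc
    simp only [eZ, Pi.single_eq_same, der_mono]
    have h1 : tt c ^ l ∈ Fil c 0 := Fil_mono (Fil_pow tt_mem l) (by omega)
    convert sub_mem (log_mem_N hq (A.th_self c l) n) (reg_mem_N (der_mem_zero h1) n) using 1
    rw [add_smul]; abel
  · simpa [eZ, Pi.single_eq_of_ne hc] using reg_mem_N (A.th_away q l hc) (n + 1)

theorem TH_pow_eZ {q : Option k} (hq : 0 < A.d q) (l n : ℕ) :
    (A.TH ^ n) (A.cl (A.eZ q l 0)) = A.cl (A.eZ q l n) := by
  rw [TH_pow_cl (eZ_mem hq l 0)]
  congr 1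
  ext c
  · simp [eZ, T_pow_b, add_comm]
  · by_cases hc : c = q
    · subst hc; simp [eZ, T_pow_b]
    · simp [eZ, Pi.single_eq_of_ne hc]

theorem rho_sub (q c : Option k) : A.rho q -
    ((if c = q then 1 else 0) - if c = A.q0 then 1 else 0 : ℤ) * dl c ∈ Fil c (1 + ep c) :=
  (hasOrd_zz q A.q0 c).lead.choose_spec.2.2

theorem rho_mem (q c : Option k) : A.rho q ∈ Fil c (ep c) := by
  have := add_mem (Fil_mono (rho_sub (A := A) q c) (l' := ep c) (by omega))
    (Fil_mul (intCast_mem_Fil ((if c = q then 1 else 0) - if c = A.q0 then 1 else 0 : ℤ))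
      (hasOrd_dl c).mem (by omega))
  rwa [sub_add_cancel] at this

theorem rho_away {q c : Option k} (h1 : c ≠ q) (h2 : c ≠ A.q0) : A.rho q ∈ Fil c (1 + ep c) := by
  simpa [h1, h2] using rho_sub (A := A) q c

theorem hasOrd_rho {q : Option k} (h : q ≠ A.q0) : HasOrd q (ep q) (A.rho q) := by
  have h1 : A.rho q - dl q ∈ Fil q (ep q + 1) := by
    simpa [h, add_comm] using rho_sub (A := A) q q
  simpa using (hasOrd_dl q).add h1

theorem rho_hol {q : Option k} (hq : 0 < A.d q) (n : ℕ) (c : Option k) :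
    A.rho q • A.b (n + 1) ∈ A.N c := by
  rcases Nat.eq_zero_or_pos (A.d c) with hc | hc
  · refine reg_mem_N (rho_away ?_ ?_) _
    · rintro rfl; omega
    · rintro rfl; exact absurd hc A.hq0.ne'
  · exact log_mem_N hc (rho_mem q c) n

theorem TH_pow_hol {w : K} (hw : ∀ c, w ∈ A.N c) (n : ℕ) :
    (A.TH ^ n) (A.cl (w, 0)) = A.cl ((A.T ^ n) w, 0) := by
  rw [TH_pow_cl (hol_mem hw)]
  congr 1
  ext <;> simp

end ASData

end Pool.Agent.Work.MP_6f9fbb_ag
end

-- merged part: Pool.Agent.Work.MP_6f9fbb_ag.Chart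
section
/-! Regular functions and forms on the standard affine charts. -/

namespace Pool.Agent.Work.MP_6f9fbb_ag

open KaehlerDifferential Polynomial
open scoped Classical

set_option linter.unusedSectionVars false

variable {k : Type*} [Field k] [IsAlgClosed k] {p : ℕ} [Fact p.Prime] [CharP k p]
  {K : Type*} [Field K] [Algebra k K] [Algebra (RatFunc k) K] [IsScalarTower k (RatFunc k) K]
  [Algebra.IsSeparable (RatFunc k) K] [CharP K p] [CharP (RatFunc k) p]

theorem mem_regFun_iff_val {s : Set K} {g : K} :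
    g ∈ regFun k s ↔ ∀ V : ValuationSubring K, (∀ u ∈ Algebra.adjoin k s, u ∈ V) → g ∈ V := by
  have h1 := iInf_valuationSubring_superset (s := ((Algebra.adjoin k s).toSubring : Set K))
  rw [Subring.closure_eq] at h1
  have h2 : g ∈ regFun k s ↔ g ∈ (integralClosure (Algebra.adjoin k s).toSubring K).toSubring :=
    Iff.rfl
  rw [h2, ← h1, Subring.mem_iInf]
  exact ⟨fun h V hV => h ⟨V, hV⟩, fun h V => h V.1 V.2⟩

theorem mul_mem_regFun {s : Set K} {a b : K} (ha : a ∈ regFun k s) (hb : b ∈ regFun k s) :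
    a * b ∈ regFun k s :=
  ((integralClosure (Algebra.adjoin k s) K).restrictScalars k).mul_mem ha hb

theorem pow_mem_regFun {s : Set K} {a : K} (ha : a ∈ regFun k s) (n : ℕ) : a ^ n ∈ regFun k s :=
  ((integralClosure (Algebra.adjoin k s) K).restrictScalars k).pow_mem ha n

theorem smul_mem_regForm {s : Set K} {a : K} (ha : a ∈ regFun k s) {w : Ω[K⁄k]}
    (hw : w ∈ regForm k s) : a • w ∈ regForm k s := by
  induction hw using Submodule.span_induction with
  | mem x hx =>
    obtain ⟨u, hu, v, hv, rfl⟩ := hx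
    exact Submodule.subset_span ⟨a * u, mul_mem_regFun ha hu, v, hv, smul_smul _ _ _⟩
  | zero => simp
  | add x y _ _ hx hy => rw [smul_add]; exact add_mem hx hy
  | smul c x _ hx => rw [smul_comm]; exact Submodule.smul_mem _ c hx

theorem tt_inv_mem_iff {c c0 : Option k} : (tt c0)⁻¹ ∈ Fil c 0 ↔ c ≠ c0 := by
  refine ⟨?_, tt_inv_mem_of_ne⟩
  rintro h rfl
  have := hasOrd_tt.inv.le h
  omega

theorem aeval_mem_Fil {c : Option k} {z : RatFunc k} (hz : z ∈ Fil c 0) (r : k[X]) :
    aeval z r ∈ Fil c 0 := by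
  rw [aeval_eq_sum_range]
  exact Submodule.sum_mem _ fun i _ => Submodule.smul_mem _ _ (by simpa using Fil_pow hz i)

theorem hasOrd_chart (c0 : Option k) (α : k) : HasOrd c0 (-1) ((tt c0)⁻¹ - RatFunc.C α) := by
  rw [sub_eq_add_neg]
  exact hasOrd_tt.inv.add (neg_mem (C_mem_Fil α))

theorem chart_inj {c0 c c' : Option k} (hc : c ≠ c0) (hc' : c' ≠ c0) {α : k}
    (h1 : (tt c0)⁻¹ - RatFunc.C α ∈ Fil c 1) (h2 : (tt c0)⁻¹ - RatFunc.C α ∈ Fil c' 1) :
    c = c' := by
  by_contra h
  have h3 : ((tt c0)⁻¹ - RatFunc.C α) * zz c0 c' = 0 := by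
    refine eq_zero_of_vanish (c0 := c) (fun b => ?_)
      (Fil_mul h1 (hasOrd_zz c0 c' c).mem (by simp [hc, h]))
    by_cases h4 : b = c0
    · subst h4
      exact Fil_mul (hasOrd_chart b α).mem (hasOrd_zz b c' b).mem (by simp [hc'.symm])
    · by_cases h5 : b = c'
      · subst h5
        exact Fil_mul h2 (hasOrd_zz c0 b b).mem (by simp [h4])
      · exact Fil_mul (sub_mem (tt_inv_mem_of_ne h4) (C_mem_Fil α)) (hasOrd_zz c0 c' b).mem
          (by simp [h4, h5])
  exact mul_ne_zero (hasOrd_chart c0 α).ne (hasOrd_zz c0 c' c).ne h3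

theorem chart_surj (c0 : Option k) (α : k) :
    ∃ c, c ≠ c0 ∧ (tt c0)⁻¹ - RatFunc.C α ∈ Fil c 1 := by
  by_contra h
  push Not at h
  refine (hasOrd_chart c0 α).inv.ne (eq_zero_of_vanish (c0 := c0) (fun c => ?_)
    (by simpa using (hasOrd_chart c0 α).inv.mem))
  by_cases hc : c = c0
  · rw [hc]; exact Fil_mono (hasOrd_chart c0 α).inv.mem (by omega)
  · rcases hasOrd_or (sub_mem (tt_inv_mem_of_ne hc) (C_mem_Fil α)) with h1 | h1
    · simpa using h1.inv.mem
    · exact absurd h1 (h c hc)

namespace ASData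

variable {A : ASData k p K}

theorem mem_of_base {V : ValuationSubring K} (hV : ∀ h, algebraMap (RatFunc k) K h ∈ V) (g : K) :
    g ∈ V := by
  have h1 : IsIntegral (RatFunc k) g := Algebra.IsIntegral.isIntegral g
  have h2 := iInf_valuationSubring_superset (s := ((algebraMap (RatFunc k) K).range : Set K))
  rw [Subring.closure_eq] at h2
  have h3 : g ∈ (integralClosure (algebraMap (RatFunc k) K).range K).toSubring := by
    obtain ⟨P, h4, h5⟩ := h1
    exact ⟨P.map (algebraMap (RatFunc k) K).rangeRestrict, h4.map _, by rw [eval₂_map]; exact h5⟩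
  rw [← h2, Subring.mem_iInf] at h3
  exact h3 ⟨V, by rintro _ ⟨h, rfl⟩; exact hV h⟩

variable (A) in
theorem mem_regFun_iff {s : Set K} {U : Option k → Prop}
    (hs : ∀ V c, Dom V c → ((∀ u ∈ s, u ∈ V) ↔ U c)) {g : K} :
    g ∈ regFun k s ↔ ∀ c, U c → g ∈ A.M c := by
  rw [mem_regFun_iff_val]
  constructor
  · intro h c hc
    refine mem_M_iff.mpr fun V hV => h V fun u hu => ?_
    induction hu using Algebra.adjoin_induction with
    | mem x hx => exact (hs V c hV).mpr hc x hx
    | algebraMap r => rw [← algebraMap_C']; exact hV.mem_iff.mpr (C_mem_Fil r)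
    | add x y _ _ hx hy => exact add_mem hx hy
    | mul x y _ _ hx hy => exact mul_mem hx hy
  · intro h V hV
    have h1 : ∀ a : k, (V.valuation.comap (algebraMap (RatFunc k) K)) (RatFunc.C a) ≤ 1 := by
      intro a
      rw [Valuation.comap_apply, algebraMap_C', V.valuation_le_one_iff]
      exact hV _ (Subalgebra.algebraMap_mem _ a)
    rcases val_classify h1 with h2 | ⟨c, h2⟩
    · exact mem_of_base (fun u => (V.valuation_le_one_iff _).mp (h2 u)) g
    · exact mem_M_iff.mp (h c ((hs V c ⟨h1, h2⟩).mp fun u hu =>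
        hV u (Algebra.subset_adjoin hu))) V ⟨h1, h2⟩

variable (A) in
theorem mem_regFun_one (c0 : Option k) {g : K} :
    g ∈ regFun k {algebraMap (RatFunc k) K (tt c0)⁻¹} ↔ ∀ c, c ≠ c0 → g ∈ A.M c :=
  A.mem_regFun_iff fun V c hV => by
    simp only [Set.mem_singleton_iff, forall_eq, hV.mem_iff, tt_inv_mem_iff]

variable (A) in
theorem mem_regFun_two (c0 c1 : Option k) {g : K} :
    g ∈ regFun k {algebraMap (RatFunc k) K (tt c0)⁻¹, algebraMap (RatFunc k) K (tt c1)⁻¹} ↔
      ∀ c, c ≠ c0 ∧ c ≠ c1 → g ∈ A.M c :=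
  A.mem_regFun_iff fun V c hV => by
    simp only [Set.mem_insert_iff, Set.mem_singleton_iff, forall_eq_or_imp, forall_eq, hV.mem_iff,
      tt_inv_mem_iff]

theorem exists_localize {c0 c : Option k} (hc : c ≠ c0) {α : k}
    (hα : (tt c0)⁻¹ - RatFunc.C α ∈ Fil c 1) {g : K} (hg : g ∈ A.M c) :
    ∃ r : k[X], r.eval α ≠ 0 ∧ ∀ c', c' ≠ c0 → aeval (tt c0)⁻¹ r • g ∈ A.M c' := by
  have h0 : ∀ (r : k[X]) (g : K) c', c' ≠ c0 → g ∈ A.M c' → aeval (tt c0)⁻¹ r • g ∈ A.M c' :=
    fun r g c' h1 h2 => smul_mem_W (aeval_mem_Fil (tt_inv_mem_of_ne h1) r) h2 (by simp)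
  have key : ∀ P : Finset (Option k), ∃ r : k[X], r.eval α ≠ 0 ∧
      ∀ c' ∈ P, c' ≠ c0 → aeval (tt c0)⁻¹ r • g ∈ A.M c' := by
    intro P
    induction P using Finset.induction_on with
    | empty => exact ⟨1, by simp, by simp⟩
    | insert b P _ ih =>
      obtain ⟨r, h1, h2⟩ := ih
      by_cases hb : b = c0 ∨ b = c
      · refine ⟨r, h1, fun c' h3 h4 => ?_⟩
        rcases Finset.mem_insert.mp h3 with rfl | h5
        · exact h0 r g _ h4 (hb.resolve_left h4 ▸ hg)
        · exact h2 c' h5 h4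
      · push Not at hb
        obtain ⟨β, hβ⟩ := exists_sub_smul (tt_inv_mem_of_ne hb.1) hasOrd_one
        rw [RatFunc.smul_eq_C_mul, mul_one, zero_add] at hβ
        obtain ⟨m, hm⟩ := exists_pow_smul (A := A) hβ g (A.d b * (p - 1))
        have h3 : α - β ≠ 0 := fun h => hb.2 (chart_inj hb.1 hc hβ (sub_eq_zero.mp h ▸ hα))
        refine ⟨r * (X - C β) ^ m, by simp [h1, h3], fun c' h4 h5 => ?_⟩
        rcases Finset.mem_insert.mp h4 with rfl | h6
        · rw [map_mul, mul_smul]
          exact h0 _ _ _ h5 (by simpa [M] using hm)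
        · rw [mul_comm, map_mul, mul_smul]
          exact h0 _ _ _ h5 (h2 c' h6 h5)
  obtain ⟨r, h1, h2⟩ := key (bad A.f ∪ A.badK g)
  refine ⟨r, h1, fun c' h3 => ?_⟩
  by_cases h4 : c' ∈ bad A.f ∪ A.badK g
  · exact h2 c' h4 h3
  · rw [Finset.mem_union, not_or] at h4
    exact h0 r g c' h3 (M_eq h4.1 ▸ mem_W_of_not_mem h4.2)

variable (A) in
theorem mem_regForm_iff (c0 : Option k) {w : Ω[K⁄k]} :
    w ∈ regForm k {algebraMap (RatFunc k) K (tt c0)⁻¹} ↔ ∀ c, c ≠ c0 → coord k K w ∈ A.N c := by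
  constructor
  · intro hw c hc
    induction hw using Submodule.span_induction with
    | mem x hx =>
      obtain ⟨u, hu, v, hv, rfl⟩ := hx
      rw [map_smul, coord_D]
      exact mul_mem_N ((A.mem_regFun_one c0).mp hu c hc) (der_mem_N ((A.mem_regFun_one c0).mp hv c hc))
    | zero => simp
    | add x y _ _ hx hy => rw [map_add]; exact add_mem hx hy
    | smul a x _ hx => rw [LinearMapClass.map_smul_of_tower]; exact Submodule.smul_mem _ a hx
  · intro hw
    have hR : ∀ r : k[X], algebraMap (RatFunc k) K (aeval (tt c0)⁻¹ r) ∈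
        regFun k {algebraMap (RatFunc k) K (tt c0)⁻¹} := fun r =>
      (A.mem_regFun_one c0).mpr fun c hc =>
        algebraMap_mem_M.mpr (aeval_mem_Fil (tt_inv_mem_of_ne hc) r)
    let J : Ideal k[X] :=
      { carrier := {r | algebraMap (RatFunc k) K (aeval (tt c0)⁻¹ r) • w ∈
          regForm k {algebraMap (RatFunc k) K (tt c0)⁻¹}}
        add_mem' := fun ha hb => by
          simp only [Set.mem_ofPred_eq, map_add, add_smul]; exact add_mem ha hb
        zero_mem' := by simp
        smul_mem' := fun a r hr => by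
          simp only [Set.mem_ofPred_eq, smul_eq_mul, map_mul, mul_smul]
          exact smul_mem_regForm (hR a) hr }
    have hJ : ∀ α : k, ∃ r ∈ J, r.eval α ≠ 0 := by
      intro α
      obtain ⟨c, hc, hα⟩ := chart_surj c0 α
      obtain ⟨π, h1, -, h2, -⟩ := A.exists_pi c
      obtain ⟨h, h3, h4⟩ := (h2 _).mp (hw c hc)
      obtain ⟨r1, h5, h6⟩ := exists_localize hc hα h3
      obtain ⟨r2, h7, h8⟩ := exists_localize hc hα h1
      have h9 := (A.mem_regFun_one c0).mpr h6
      have h10 := (A.mem_regFun_one c0).mpr h8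
      rw [Algebra.smul_def] at h9 h10
      refine ⟨r1 * r2 * r2, ?_, by simp [h5, h7]⟩
      have h11 := (regForm k _).sub_mem
        (Submodule.subset_span ⟨_, mul_mem_regFun h9 (hR r2), _, h10, rfl⟩)
        (Submodule.subset_span ⟨_, mul_mem_regFun h9 h10, _, hR r2, rfl⟩)
      show algebraMap (RatFunc k) K _ • w ∈ regForm k _
      convert h11 using 1
      apply (coord k K).injective
      simp only [map_smul, map_sub, map_add, coord_D, h4, map_mul, Derivation.leibniz, smul_eq_mul]
      ring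
    obtain ⟨g, hg⟩ := (IsPrincipalIdealRing.principal J).principal
    have h1 : g.degree = 0 := by
      by_contra h
      obtain ⟨α, hα⟩ := IsAlgClosed.exists_root g h
      obtain ⟨r, h2, h3⟩ := hJ α
      rw [hg] at h2
      obtain ⟨u, rfl⟩ := Ideal.mem_span_singleton'.mp h2
      simp [hα.eq_zero] at h3
    have h2 : (1 : k[X]) ∈ J := by
      rw [hg, ← Ideal.eq_top_iff_one]
      exact Ideal.span_singleton_eq_top.mpr (isUnit_iff_degree_eq_zero.mpr h1)
    simpa [J] using h2

theorem exists_approxK {a : Option k → K} (ha : ∀ c, c ∉ bad A.f → a c = 0) (c0 : Option k) :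
    ∃ h, ∀ c, c ≠ c0 → a c - h ∈ A.M c := by
  choose h hh using fun n => exists_approx (bad A.f) (fun c => A.cf n (a c)) (fun c => A.d c)
    (fun c hc => by simp [d_of_not_mem hc]) (fun c hc => by simp [ha c hc]) c0
  refine ⟨∑ n ∈ Finset.range p, h n • A.b n, fun c hc => ?_⟩
  conv => rhs; lhs; rw [← A.sum_cf (a c)]
  rw [← Finset.sum_sub_distrib]
  exact Submodule.sum_mem _ fun n _ => by rw [← sub_smul]; exact fil_mem_M (hh n c hc) n

end ASData

end Pool.Agent.Work.MP_6f9fbb_ag
end
end
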