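import Mathlib

/-!
Definitions: the first de Rham cohomology group of the smooth projective curve with function
field `K`, computed with the standard affine cover attached to a function `x`, with Frobenius
and Verschiebung (Oda), and the elementary sequence.
-/

namespace Pool.Agent.Work.MP_6f9fbb_ag

open KaehlerDifferential

section SubQuot

variable {k M : Type*} [Field k] [AddCommGroup M] [Module k M] (Z B : Submodule k M)

/-- The quotient of `Z` by its intersection with `B`. -/
def SubQuot : Type _ := Z ⧸ B.submoduleOf Z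

instance SubQuot.addCommGroup : AddCommGroup (SubQuot Z B) :=
  Submodule.Quotient.addCommGroup (B.submoduleOf Z)

instance SubQuot.module : Module k (SubQuot Z B) := Submodule.Quotient.module (B.submoduleOf Z)

/-- `z` lies in `Z` and `u` is its class. -/
def IsClass (z : M) (u : SubQuot Z B) : Prop :=
  ∃ h : z ∈ Z, u = Submodule.Quotient.mk (p := B.submoduleOf Z) ⟨z, h⟩

end SubQuot

section Cover

variable (k : Type*) {K : Type*} [Field k] [Field K] [Algebra k K]

/-- The functions regular on the affine open set where all members of `s` are regular: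
the integral closure of `k[s]` in `K`. -/
def regFun (s : Set K) : Submodule k K :=
  Subalgebra.toSubmodule ((integralClosure (Algebra.adjoin k s) K).restrictScalars k)

/-- The differential forms regular on that open set: the span of the forms `a db`. -/
noncomputable def regForm (s : Set K) : Submodule k Ω[K⁄k] :=
  Submodule.span k {w | ∃ a ∈ regFun k s, ∃ b ∈ regFun k s, w = a • D k K b}

/-- Cech cocycles `(w0, w1, g)` for the cover by the loci where `x`, resp. `1/x`, is regular. -/
noncomputable def cocycles (x : K) : Submodule k (Ω[K⁄k] × Ω[K⁄k] × K) where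
  carrier := {z | z.1 ∈ regForm k {x} ∧ z.2.1 ∈ regForm k {x⁻¹} ∧ z.2.2 ∈ regFun k {x, x⁻¹} ∧
    D k K z.2.2 = z.1 - z.2.1}
  add_mem' := by
    rintro a b ⟨a1, a2, a3, a4⟩ ⟨b1, b2, b3, b4⟩
    refine ⟨add_mem a1 b1, add_mem a2 b2, add_mem a3 b3, ?_⟩
    simp only [Prod.snd_add, Prod.fst_add, map_add, a4, b4]
    abel
  zero_mem' := ⟨zero_mem _, zero_mem _, zero_mem _, by simp⟩
  smul_mem' := by
    rintro c a ⟨a1, a2, a3, a4⟩
    refine ⟨Submodule.smul_mem _ c a1, Submodule.smul_mem _ c a2, Submodule.smul_mem _ c a3, ?_⟩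
    simp only [Prod.smul_snd, Prod.smul_fst, Derivation.map_smul, a4, smul_sub]

/-- Cech coboundaries `(d g0, d g1, g0 - g1)`. -/
noncomputable def coboundaries (x : K) : Submodule k (Ω[K⁄k] × Ω[K⁄k] × K) where
  carrier := {z | ∃ g0 ∈ regFun k {x}, ∃ g1 ∈ regFun k {x⁻¹},
    z = (D k K g0, D k K g1, g0 - g1)}
  add_mem' := by
    rintro _ _ ⟨a0, ha0, a1, ha1, rfl⟩ ⟨b0, hb0, b1, hb1, rfl⟩
    refine ⟨a0 + b0, add_mem ha0 hb0, a1 + b1, add_mem ha1 hb1, ?_⟩
    simp only [Prod.mk_add_mk, map_add, Prod.mk.injEq, true_and]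
    abel
  zero_mem' := ⟨0, zero_mem _, 0, zero_mem _, by simp [Prod.ext_iff]⟩
  smul_mem' := by
    rintro c _ ⟨a0, ha0, a1, ha1, rfl⟩
    refine ⟨c • a0, Submodule.smul_mem _ c ha0, c • a1, Submodule.smul_mem _ c ha1, ?_⟩
    simp only [Prod.smul_mk, Derivation.map_smul, smul_sub]

/-- The first de Rham cohomology group: cocycles modulo coboundaries. -/
def HdR (x : K) : Type _ := SubQuot (cocycles k x) (coboundaries k x)

noncomputable instance HdR.addCommGroup (x : K) : AddCommGroup (HdR k x) :=
  SubQuot.addCommGroup _ _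

noncomputable instance HdR.module (x : K) : Module k (HdR k x) := SubQuot.module _ _

/-- `(w0, w1, g)` is a cocycle and `u` is its class. -/
def Rep (x : K) (w0 w1 : Ω[K⁄k]) (g : K) (u : HdR k x) : Prop :=
  IsClass (cocycles k x) (coboundaries k x) (w0, w1, g) u

variable (p : ℕ)

/-- The Cartier operator as a relation: `w = (h_0^p + h_1^p x + ... + h_{p-1}^p x^{p-1}) dx`
is sent to `h_{p-1} dx`. -/
def IsCartier (x : K) (w w' : Ω[K⁄k]) : Prop :=
  ∃ h : ℕ → K, w = (∑ i ∈ Finset.range p, h i ^ p * x ^ i) • D k K x ∧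
    w' = h (p - 1) • D k K x

/-- `F` sends the class of `(w0, w1, g)` to the class of `(0, 0, g ^ p)`. -/
def IsFrob (x : K) (F : HdR k x → HdR k x) : Prop :=
  ∀ w0 w1 g u, Rep k x w0 w1 g u → Rep k x 0 0 (g ^ p) (F u)

/-- `V` sends the class of `(w0, w1, g)` to the class of `(C w0, C w1, 0)`,
`C` the Cartier operator, which is defined and single valued on `w0` and `w1`. -/
def IsVer (x : K) (V : HdR k x → HdR k x) : Prop :=
  ∀ w0 w1 g u, Rep k x w0 w1 g u → ∃ c0 c1, (∀ w, IsCartier k p x w0 w ↔ w = c0) ∧
    (∀ w, IsCartier k p x w1 w ↔ w = c1) ∧ Rep k x c0 c1 0 (V u)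

end Cover

/-- The `p`-th root map of an algebraically closed field of characteristic `p`. -/
noncomputable def frobInv (k : Type*) [Field k] [IsAlgClosed k] (p : ℕ) [Fact p.Prime]
    [CharP k p] : k →+* k := (frobeniusEquiv k p).symm

instance frobInv.surjective (k : Type*) [Field k] [IsAlgClosed k] (p : ℕ) [Fact p.Prime]
    [CharP k p] : RingHomSurjective (frobInv k p) := ⟨(frobeniusEquiv k p).symm.surjective⟩

/-- Frobenius and Verschiebung on the first de Rham cohomology group. -/
structure Dieudonne (k : Type*) {K : Type*} [Field k] [IsAlgClosed k] [Field K] [Algebra k K]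
    (p : ℕ) [Fact p.Prime] [CharP k p] (x : K) where
  /-- Frobenius, a `p`-linear map -/
  F : HdR k x →ₛₗ[frobenius k p] HdR k x
  /-- Verschiebung, a `1/p`-linear map -/
  V : HdR k x →ₛₗ[frobInv k p] HdR k x
  isFrob : IsFrob k p x F
  isVer : IsVer k p x V

section Elementary

variable {k : Type*} [Field k] {M : Type*} [AddCommGroup M] [Module k M]
  {σ τ : k →+* k} [RingHomSurjective τ]

/-- The canonical filtration: the subspaces obtained from `0` and `M` by repeatedly taking the image
under `V` and the preimage under `F`. -/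
inductive Canonical (F : M →ₛₗ[σ] M) (V : M →ₛₗ[τ] M) : Submodule k M → Prop
  | bot : Canonical F V ⊥
  | top : Canonical F V ⊤
  | image {N : Submodule k M} : Canonical F V N → Canonical F V (N.map V)
  | preimage {N : Submodule k M} : Canonical F V N → Canonical F V (N.comap F)

/-- The final type (its first `g` values are the elementary sequence): the function with value
`dim V N` at `dim N` for `N` canonical, interpolated between consecutive canonical subspaces. -/
noncomputable def finalType (F : M →ₛₗ[σ] M) (V : M →ₛₗ[τ] M) (i : ℕ) : ℕ :=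
  sInf {n | ∃ N : Submodule k M, Canonical F V N ∧
    n = Module.finrank k (N.map V) + (i - Module.finrank k N)}

/-- There is a linear isomorphism commuting with `F` and `V`. -/
def FVIso {M' : Type*} [AddCommGroup M'] [Module k M'] (F : M →ₛₗ[σ] M) (V : M →ₛₗ[τ] M)
    (F' : M' →ₛₗ[σ] M') (V' : M' →ₛₗ[τ] M') : Prop :=
  ∃ e : M ≃ₗ[k] M', ∀ h, e (F h) = F' (e h) ∧ e (V h) = V' (e h)

end Elementary

/-- `K = k(x)(y)` with `y ^ p - y = f`. -/
def IsArtinSchreier {k K : Type*} [Field k] [Field K] [Algebra (RatFunc k) K] (p : ℕ)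
    (f : RatFunc k) (y : K) : Prop :=
  y ^ p - y = algebraMap (RatFunc k) K f ∧ ∀ g : K, g ∈ IntermediateField.adjoin (RatFunc k) {y}

open Classical in
/-- The multiset of the orders of the poles of a rational function on the projective line. -/
noncomputable def poleOrders {k : Type*} [Field k] (f : RatFunc k) : Multiset ℕ :=
  (f.denom.roots.toFinset.val.map fun c => f.denom.rootMultiplicity c) +
    if 0 < f.intDegree then {f.intDegree.toNat} else 0

end Pool.Agent.Work.MP_6f9fbb_ag
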