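import Pool.Agent.Work.MP_6f9fbb_ag.Defs
import Pool.Agent.Work.MP_6f9fbb_ag.Chart

-- merged part: Pool.Agent.Work.MP_6f9fbb_ag.Uel
section
-- merged part: Pool.Agent.Work.MP_6f9fbb_ag.Abstract
section
/-! Semilinear algebra: the normal form of a module with `F`, `V` and a nilpotent `T`. -/

namespace Pool.Agent.Work.MP_6f9fbb_ag

open Module

set_option linter.unusedSectionVars false

section NF

variable {k : Type*} [Field k] [IsAlgClosed k] {p : ℕ} [Fact p.Prime] [CharP k p]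
variable {H : Type*} [AddCommGroup H] [Module k H]

theorem exists_AS (κ c : k) (hκ : κ ≠ 0) : ∃ z : k, z - κ * z ^ p = c := by
  have hp : 2 ≤ p := (Fact.out : p.Prime).two_le
  set P : Polynomial k := Polynomial.C κ * Polynomial.X ^ p - (Polynomial.X - Polynomial.C c)
    with hP
  have h1 : (Polynomial.C κ * Polynomial.X ^ p : Polynomial k).degree = p := by
    rw [Polynomial.degree_C_mul_X_pow _ hκ]
  have h2 : (Polynomial.X - Polynomial.C c : Polynomial k).degree < p := by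
    rw [Polynomial.degree_X_sub_C]; exact_mod_cast hp
  have h3 : P.degree = p := by
    rw [hP, Polynomial.degree_sub_eq_left_of_degree_lt (by rw [h1]; exact h2), h1]
  obtain ⟨z, hz⟩ := IsAlgClosed.exists_root P (by
    rw [h3]; exact_mod_cast (by omega : p ≠ 0))
  refine ⟨z, ?_⟩
  simp only [hP, Polynomial.IsRoot, Polynomial.eval_sub, Polynomial.eval_mul, Polynomial.eval_C,
    Polynomial.eval_pow, Polynomial.eval_X] at hz
  linear_combination -hz

theorem exists_fix (κ : k) (hκ : κ ≠ 0) : ∃ z : k, z ≠ 0 ∧ z - κ * z ^ p = 0 := by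
  have hp : 2 ≤ p := (Fact.out : p.Prime).two_le
  obtain ⟨z, hz⟩ := IsAlgClosed.exists_pow_nat_eq κ⁻¹ (n := p - 1) (by omega)
  have hz0 : z ≠ 0 := by
    rintro rfl
    rw [zero_pow (by omega)] at hz
    exact hκ (inv_eq_zero.mp hz.symm)
  refine ⟨z, hz0, ?_⟩
  have : z ^ p = z ^ (p - 1) * z := by rw [← pow_succ]; congr 1; omega
  rw [this, hz]; field_simp; ring

variable (F : H →ₛₗ[frobenius k p] H) (V : H →ₛₗ[((frobeniusEquiv k p).symm : k →+* k)] H)
  (T : Module.End k H)

/-- Pairs with `F w.1 = T ^ a w.2` and `V w.2 = - T ^ c w.1`. -/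
def pairs (a c : ℕ) : AddSubgroup (H × H) where
  carrier := {w | F w.1 = (T ^ a) w.2 ∧ V w.2 = -(T ^ c) w.1}
  add_mem' := by
    rintro w w' ⟨h1, h2⟩ ⟨h3, h4⟩
    refine ⟨by simp [h1, h3], ?_⟩
    simp only [Prod.snd_add, Prod.fst_add, map_add, h2, h4]; abel
  zero_mem' := by simp
  neg_mem' := by
    rintro w ⟨h1, h2⟩
    exact ⟨by simp [h1], by simp [h2]⟩

variable {F V T}

theorem comm_pow (G : H → H) (hG : ∀ h, G (T h) = T (G h)) (n : ℕ) (h : H) :
    G ((T ^ n) h) = (T ^ n) (G h) := by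
  induction n generalizing h with
  | zero => simp
  | succ n ih => rw [pow_succ', Module.End.mul_apply, hG, ih, Module.End.mul_apply]

theorem pow_pow_apply (m n : ℕ) (h : H) : (T ^ m) ((T ^ n) h) = (T ^ (m + n)) h := by
  rw [pow_add, Module.End.mul_apply]

theorem pairs_T (hF : ∀ h, F (T h) = T (F h)) (hV : ∀ h, V (T h) = T (V h)) {a c : ℕ}
    {w : H × H} (hw : w ∈ pairs F V T a c) (n : ℕ) :
    ((T ^ n) w.1, (T ^ n) w.2) ∈ pairs F V T a c := by
  refine ⟨?_, ?_⟩
  · show F ((T ^ n) w.1) = (T ^ a) ((T ^ n) w.2)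
    rw [comm_pow F hF, hw.1, pow_pow_apply, pow_pow_apply, add_comm]
  · show V ((T ^ n) w.2) = -(T ^ c) ((T ^ n) w.1)
    rw [comm_pow V hV, hw.2, map_neg, pow_pow_apply, pow_pow_apply, add_comm]

theorem pairs_smul {a c : ℕ} {w : H × H} (hw : w ∈ pairs F V T a c) (z : k) :
    (z • w.1, z ^ p • w.2) ∈ pairs F V T a c := by
  refine ⟨?_, ?_⟩
  · show F (z • w.1) = (T ^ a) (z ^ p • w.2)
    rw [map_smulₛₗ, hw.1, map_smul, frobenius_def]
  · show V (z ^ p • w.2) = -(T ^ c) (z • w.1)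
    rw [map_smulₛₗ, hw.2, map_smul, smul_neg]
    congr 2
    exact (frobeniusEquiv k p).symm_apply_apply z

theorem pow_mem_range {n : ℕ} (hn : 0 < n) (h : H) : (T ^ n) h ∈ LinearMap.range T := by
  obtain ⟨m, rfl⟩ : ∃ m, n = m + 1 := ⟨n - 1, by omega⟩
  exact ⟨(T ^ m) h, by rw [pow_succ', Module.End.mul_apply]⟩

variable {I : Type*} (a : I → ℕ) (E : I → H) (T)

/-- The slope filtration modulo `T`. -/
def slopeFil (b : ℕ) : Submodule k H :=
  Submodule.span k {h | ∃ m, b ≤ a m ∧ h = E m} ⊔ LinearMap.range T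

variable {a E T}

theorem slopeFil_anti {b b' : ℕ} (h : b ≤ b') : slopeFil T a E b' ≤ slopeFil T a E b := by
  refine sup_le_sup_right (Submodule.span_mono ?_) _
  rintro _ ⟨m, hm, rfl⟩
  exact ⟨m, h.trans hm, rfl⟩

theorem mem_slopeFil_E {b : ℕ} {m : I} (h : b ≤ a m) : E m ∈ slopeFil T a E b :=
  Submodule.mem_sup_left (Submodule.subset_span ⟨m, h, rfl⟩)

theorem mem_slopeFil_T {b : ℕ} {h : H} (hh : h ∈ LinearMap.range T) : h ∈ slopeFil T a E b :=
  Submodule.mem_sup_right hh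

theorem slopeFil_induction {b : ℕ} (P : AddSubgroup H) (h1 : ∀ h ∈ LinearMap.range T, h ∈ P)
    (h2 : ∀ m, b ≤ a m → ∀ z : k, z • E m ∈ P) {h : H} (hh : h ∈ slopeFil T a E b) : h ∈ P := by
  obtain ⟨u, hu, v, hv, rfl⟩ := Submodule.mem_sup.mp hh
  refine add_mem ?_ (h1 v hv)
  have : ∀ z : k, z • u ∈ P := by
    clear hh
    induction hu using Submodule.span_induction with
    | mem x hx => obtain ⟨m, hm, rfl⟩ := hx; exact h2 m hm
    | zero => intro z; simp
    | add x y _ _ hx hy => intro z; rw [smul_add]; exact add_mem (hx z) (hy z)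
    | smul c x _ hx => intro z; rw [smul_smul]; exact hx _
  simpa using this 1

theorem exists_pair (hFT : ∀ h, F (T h) = T (F h)) (hVT : ∀ h, V (T h) = T (V h))
    {e : ℕ} (ha : ∀ i, a i ≤ e) {U : I → H} {κ : I → k} (hκ : ∀ i, κ i ≠ 0)
    (hU : ∀ i, U i - κ i • E i ∈ slopeFil T a E (a i + 1))
    (hF : ∀ i, F (E i) = (T ^ a i) (U i)) (hV : ∀ i, V (U i) = -(T ^ (e - a i)) (E i))
    {a0 : ℕ} (ha0 : a0 ≤ e) (m : I) (c : k) :
    ∃ w ∈ pairs F V T a0 (e - a0), w.1 - w.2 - c • E m ∈ slopeFil T a E (a m + 1) ∧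
      w.1 ∈ slopeFil T a E (a m) := by
  have hUm : U m ∈ slopeFil T a E (a m) := by
    have := add_mem (slopeFil_anti (Nat.le_succ _) (hU m))
      (Submodule.smul_mem _ (κ m) (mem_slopeFil_E (T := T) (E := E) (le_refl (a m))))
    simpa using this
  rcases lt_trichotomy (a m) a0 with h | h | h
  · have hw : ((T ^ (a0 - a m)) (E m), U m) ∈ pairs F V T a0 (e - a0) := by
      refine ⟨?_, ?_⟩
      · show F ((T ^ (a0 - a m)) (E m)) = (T ^ a0) (U m)
        rw [comm_pow F hFT, hF, pow_pow_apply]; congr 2; omega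
      · show V (U m) = -(T ^ (e - a0)) ((T ^ (a0 - a m)) (E m))
        rw [hV, pow_pow_apply]; congr 3; omega
    obtain ⟨z, hz⟩ := IsAlgClosed.exists_pow_nat_eq (-c / κ m) (n := p)
      (Fact.out : p.Prime).pos
    have hr : z • (T ^ (a0 - a m)) (E m) ∈ LinearMap.range T :=
      Submodule.smul_mem _ _ (pow_mem_range (by omega) _)
    refine ⟨_, pairs_smul hw z, ?_, mem_slopeFil_T hr⟩
    have : z • (T ^ (a0 - a m)) (E m) - z ^ p • U m - c • E m =
        z • (T ^ (a0 - a m)) (E m) - z ^ p • (U m - κ m • E m) := by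
      rw [smul_sub, smul_smul, hz, div_mul_cancel₀ _ (hκ m), neg_smul]; abel
    simp only [this]
    exact sub_mem (mem_slopeFil_T hr) (Submodule.smul_mem _ _ (hU m))
  · have hw : (E m, U m) ∈ pairs F V T a0 (e - a0) := by
      subst h; exact ⟨hF m, hV m⟩
    obtain ⟨z, hz⟩ := exists_AS (p := p) (κ m) c (hκ m)
    refine ⟨_, pairs_smul hw z, ?_, Submodule.smul_mem _ _ (mem_slopeFil_E le_rfl)⟩
    have : z • E m - z ^ p • U m - c • E m = -(z ^ p • (U m - κ m • E m)) := by
      rw [smul_sub, smul_smul, ← hz, sub_smul, mul_comm (κ m)]; abel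
    simp only [this]
    exact neg_mem (Submodule.smul_mem _ _ (hU m))
  · have hw : (E m, (T ^ (a m - a0)) (U m)) ∈ pairs F V T a0 (e - a0) := by
      refine ⟨?_, ?_⟩
      · show F (E m) = (T ^ a0) ((T ^ (a m - a0)) (U m))
        rw [hF, pow_pow_apply]; congr 2; omega
      · show V ((T ^ (a m - a0)) (U m)) = -(T ^ (e - a0)) (E m)
        have := ha m
        rw [comm_pow V hVT, hV, map_neg, pow_pow_apply]; congr 3; omega
    refine ⟨_, pairs_smul hw c, ?_, Submodule.smul_mem _ _ (mem_slopeFil_E le_rfl)⟩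
    have : c • E m - c ^ p • (T ^ (a m - a0)) (U m) - c • E m =
        -(c ^ p • (T ^ (a m - a0)) (U m)) := by abel
    simp only [this]
    exact neg_mem (Submodule.smul_mem _ _ (mem_slopeFil_T (pow_mem_range (by omega) _)))

theorem exists_normal (hFT : ∀ h, F (T h) = T (F h)) (hVT : ∀ h, V (T h) = T (V h))
    {e : ℕ} (hT : T ^ e = 0) (ha : ∀ i, a i ≤ e) {U : I → H} {κ : I → k} (hκ : ∀ i, κ i ≠ 0)
    (hspan : slopeFil T a E 0 = ⊤)
    (hU : ∀ i, U i - κ i • E i ∈ slopeFil T a E (a i + 1))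
    (hF : ∀ i, F (E i) = (T ^ a i) (U i)) (hV : ∀ i, V (U i) = -(T ^ (e - a i)) (E i))
    (j : I) : ∃ (z : k) (E' : H), z ≠ 0 ∧ E' - z • E j ∈ slopeFil T a E (a j + 1) ∧
      F E' = (T ^ a j) E' ∧ V E' = -(T ^ (e - a j)) E' := by
  set W := pairs F V T (a j) (e - a j) with hW
  have key : ∀ n b, e + 1 ≤ b + n → ∀ h ∈ slopeFil T a E b, ∃ w ∈ W,
      w.1 - w.2 - h ∈ LinearMap.range T ∧ w.1 ∈ slopeFil T a E b := by
    have base : ∀ b, (∀ m, b ≤ a m → ∀ z : k, ∃ w ∈ W,
        w.1 - w.2 - z • E m ∈ LinearMap.range T ∧ w.1 ∈ slopeFil T a E b) →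
        ∀ h ∈ slopeFil T a E b, ∃ w ∈ W,
        w.1 - w.2 - h ∈ LinearMap.range T ∧ w.1 ∈ slopeFil T a E b := by
      intro b hb h hh
      let P : AddSubgroup H :=
        { carrier := {h | ∃ w ∈ W, w.1 - w.2 - h ∈ LinearMap.range T ∧ w.1 ∈ slopeFil T a E b}
          add_mem' := by
            rintro u v ⟨w, hw, h1, h2⟩ ⟨w', hw', h3, h4⟩
            refine ⟨w + w', add_mem hw hw', ?_, add_mem h2 h4⟩
            convert add_mem h1 h3 using 1
            simp only [Prod.fst_add, Prod.snd_add]; abel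
          zero_mem' := ⟨0, zero_mem _, by simp, by simp⟩
          neg_mem' := by
            rintro u ⟨w, hw, h1, h2⟩
            refine ⟨-w, neg_mem hw, ?_, neg_mem h2⟩
            convert neg_mem h1 using 1
            simp only [Prod.fst_neg, Prod.snd_neg]; abel }
      refine slopeFil_induction P (fun h hh => ⟨0, zero_mem _, by simpa using hh, by simp⟩) hb hh
    intro n
    induction n with
    | zero =>
      intro b hb
      exact base b fun m hm => by have := ha m; omega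
    | succ n ih =>
      intro b hb
      refine base b fun m hm z => ?_
      rcases hm.eq_or_lt with rfl | hm'
      · obtain ⟨w, hw, h1, h2⟩ := exists_pair hFT hVT ha hκ hU hF hV (ha j) m z
        obtain ⟨w', hw', h3, h4⟩ := ih (a m + 1) (by omega) _ h1
        refine ⟨w - w', sub_mem hw hw', ?_, sub_mem h2 (slopeFil_anti (Nat.le_succ _) h4)⟩
        convert neg_mem h3 using 1
        simp only [Prod.fst_sub, Prod.snd_sub]; abel
      · obtain ⟨w, hw, h3, h4⟩ := ih (b + 1) (by omega) _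
          (Submodule.smul_mem _ z (mem_slopeFil_E (T := T) (E := E) hm'))
        exact ⟨w, hw, h3, slopeFil_anti (Nat.le_succ _) h4⟩
  obtain ⟨z, hz0, hz⟩ := exists_fix (p := p) (κ j) (hκ j)
  have step : ∀ n, ∃ w ∈ W, w.1 - w.2 ∈ LinearMap.range (T ^ (n + 1)) ∧
      w.1 - z • E j ∈ slopeFil T a E (a j + 1) := by
    intro n
    induction n with
    | zero =>
      have hw : (z • E j, z ^ p • U j) ∈ W := pairs_smul (w := (E j, U j)) ⟨hF j, hV j⟩ z
      have h1 : z • E j - z ^ p • U j ∈ slopeFil T a E (a j + 1) := by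
        have : z • E j - z ^ p • U j = -(z ^ p • (U j - κ j • E j)) := by
          have h2 : z = z ^ p * κ j := by linear_combination hz
          rw [smul_sub, smul_smul, ← h2]; abel
        rw [this]
        exact neg_mem (Submodule.smul_mem _ _ (hU j))
      obtain ⟨w', hw', h3, h4⟩ := key (e + 1) (a j + 1) (by omega) _ h1
      refine ⟨(z • E j, z ^ p • U j) - w', sub_mem hw hw', ?_, ?_⟩
      · rw [zero_add, pow_one]
        convert neg_mem h3 using 1
        simp only [Prod.fst_sub, Prod.snd_sub]; abel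
      · convert neg_mem h4 using 1
        simp only [Prod.fst_sub]; abel
    | succ n ih =>
      obtain ⟨w, hw, ⟨h, hh⟩, h2⟩ := ih
      obtain ⟨w', hw', ⟨h', hh'⟩, -⟩ := key (e + 1) 0 (by omega) h (by rw [hspan]; trivial)
      refine ⟨w - ((T ^ (n + 1)) w'.1, (T ^ (n + 1)) w'.2),
        sub_mem hw (pairs_T hFT hVT hw' _), ⟨-h', ?_⟩, ?_⟩
      · rw [map_neg, pow_succ, Module.End.mul_apply, hh', map_sub, map_sub, hh]
        simp only [Prod.fst_sub, Prod.snd_sub]; abel
      · convert sub_mem h2 (mem_slopeFil_T (pow_mem_range (Nat.succ_pos n) w'.1)) using 1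
        simp only [Prod.fst_sub]; abel
  obtain ⟨w, hw, ⟨h, hh⟩, h2⟩ := step e
  have h0 : w.1 = w.2 := by
    rw [pow_succ, hT, zero_mul, LinearMap.zero_apply] at hh
    exact sub_eq_zero.mp hh.symm
  refine ⟨z, w.1, hz0, h2, ?_, ?_⟩
  · rw [hw.1, h0]
  · conv_lhs => rw [h0]
    exact hw.2

theorem span_of_triangular {e : ℕ} (ha : ∀ i, a i ≤ e) (hspan : slopeFil T a E 0 = ⊤)
    {z : I → k} {E' : I → H} (hz : ∀ j, z j ≠ 0)
    (h : ∀ j, E' j - z j • E j ∈ slopeFil T a E (a j + 1)) :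
    Submodule.span k (Set.range E') ⊔ LinearMap.range T = ⊤ := by
  set S := Submodule.span k (Set.range E') ⊔ LinearMap.range T with hS
  have key : ∀ n b, e + 1 ≤ b + n → slopeFil T a E b ≤ S := by
    intro n
    induction n with
    | zero =>
      intro b hb
      refine sup_le (Submodule.span_le.mpr ?_) le_sup_right
      rintro _ ⟨m, hm, rfl⟩
      have := ha m; omega
    | succ n ih =>
      intro b hb
      refine sup_le (Submodule.span_le.mpr ?_) le_sup_right
      rintro _ ⟨m, hm, rfl⟩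
      have h1 : E' m ∈ S := Submodule.mem_sup_left (Submodule.subset_span ⟨m, rfl⟩)
      have h2 := ih (a m + 1) (by omega) (h m)
      have h3 := Submodule.smul_mem S (z m)⁻¹ (sub_mem h1 h2)
      rw [sub_sub_cancel, smul_smul, inv_mul_cancel₀ (hz m), one_smul] at h3
      exact h3
  exact top_unique (hspan ▸ key (e + 1) 0 (by omega))

theorem span_pow {e : ℕ} (hT : T ^ e = 0) {E' : I → H}
    (h : Submodule.span k (Set.range E') ⊔ LinearMap.range T = ⊤) :
    ⊤ ≤ Submodule.span k (Set.range fun x : I × Fin e => (T ^ (x.2 : ℕ)) (E' x.1)) := by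
  set S := Submodule.span k (Set.range fun x : I × Fin e => (T ^ (x.2 : ℕ)) (E' x.1)) with hS
  have hG : ∀ i r, (T ^ r) (E' i) ∈ S := by
    intro i r
    by_cases hr : r < e
    · exact Submodule.subset_span ⟨(i, ⟨r, hr⟩), rfl⟩
    · obtain ⟨m, rfl⟩ : ∃ m, r = m + e := ⟨r - e, by omega⟩
      rw [pow_add, hT]; simp
  have key : ∀ n r, e ≤ r + n → ∀ u, (T ^ r) u ∈ S := by
    intro n
    induction n with
    | zero =>
      intro r hr u
      obtain ⟨m, rfl⟩ : ∃ m, r = m + e := ⟨r - e, by omega⟩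
      rw [pow_add, hT]; simp
    | succ n ih =>
      intro r hr u
      obtain ⟨v, hv, w, ⟨w', rfl⟩, rfl⟩ := Submodule.mem_sup.mp (h ▸ Submodule.mem_top (x := u))
      rw [map_add]
      refine add_mem ?_ ?_
      · have : Submodule.span k (Set.range E') ≤ S.comap (T ^ r) := by
          refine Submodule.span_le.mpr ?_
          rintro _ ⟨i, rfl⟩
          exact hG i r
        exact this hv
      · have := ih (r + 1) (by omega) w'
        rwa [pow_succ, Module.End.mul_apply] at this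
  intro u _
  simpa using key e 0 (by omega) u

end NF

end Pool.Agent.Work.MP_6f9fbb_ag
end

-- merged part: Pool.Agent.Work.MP_6f9fbb_ag.Abstract2
section
/-! Normal form, isomorphism and invariance of the final type. -/

namespace Pool.Agent.Work.MP_6f9fbb_ag

open Module

set_option linter.unusedSectionVars false

variable {k : Type*} [Field k] [IsAlgClosed k] {p : ℕ} [Fact p.Prime] [CharP k p]
variable {H : Type*} [AddCommGroup H] [Module k H]
variable {H' : Type*} [AddCommGroup H'] [Module k H']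

theorem indep_pow {T : Module.End k H} {I : Type*} [Fintype I] {e : ℕ} (hT : T ^ e = 0)
    {E : I → H} (h : LinearIndependent k fun i => (T ^ (e - 1)) (E i)) :
    LinearIndependent k fun x : I × Fin e => (T ^ (x.2 : ℕ)) (E x.1) := by
  classical
  rw [Fintype.linearIndependent_iff] at h ⊢
  intro g hg
  have key : ∀ n (r : Fin e), (r : ℕ) < n → ∀ i, g (i, r) = 0 := by
    intro n
    induction n with
    | zero => intro r hr; omega
    | succ n ih =>
      intro r hr
      apply h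
      have h1 := congrArg (T ^ (e - 1 - r)) hg
      rw [map_sum, map_zero, Fintype.sum_prod_type] at h1
      rw [← h1]
      refine Finset.sum_congr rfl fun i _ => ?_
      rw [Finset.sum_eq_single r]
      · rw [map_smul, pow_pow_apply]
        have h2 : e - 1 - (r : ℕ) + r = e - 1 := by have := r.2; omega
        simp only [h2]
      · intro r' _ hr'
        rcases lt_or_gt_of_ne (Fin.val_ne_of_ne hr') with h2 | h2
        · rw [ih r' (by omega) i, zero_smul, map_zero]
        · obtain ⟨m, hm⟩ : ∃ m, e - 1 - r + r' = m + e := ⟨e - 1 - r + r' - e, by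
            have := r.2; omega⟩
          rw [map_smul, pow_pow_apply, hm, pow_add, hT]; simp
      · simp
  rintro ⟨i, r⟩
  exact key (r + 1) r (Nat.lt_succ_self _) i

/-- The normal form: a basis `G i r`, `r < e`, on which `F` and `V` shift `r`. -/
def NormalForm (F : H →ₛₗ[frobenius k p] H)
    (V : H →ₛₗ[((frobeniusEquiv k p).symm : k →+* k)] H) {I : Type*} (a : I → ℕ) (e : ℕ) : Prop :=
  ∃ (b : Basis (I × Fin e) k H) (G : I → ℕ → H), (∀ i r, b (i, r) = G i r) ∧
    (∀ i r, e ≤ r → G i r = 0) ∧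
    ∀ i r, F (G i r) = G i (r + a i) ∧ V (G i r) = -G i (r + (e - a i))

theorem normalForm_of {F : H →ₛₗ[frobenius k p] H}
    {V : H →ₛₗ[((frobeniusEquiv k p).symm : k →+* k)] H} {T : Module.End k H}
    {I : Type*} [Fintype I] {a : I → ℕ} {E : I → H}
    (hFT : ∀ h, F (T h) = T (F h)) (hVT : ∀ h, V (T h) = T (V h))
    {e : ℕ} (hT : T ^ e = 0) (ha : ∀ i, a i ≤ e) {U : I → H} {κ : I → k} (hκ : ∀ i, κ i ≠ 0)
    (hspan : slopeFil T a E 0 = ⊤)
    (hU : ∀ i, U i - κ i • E i ∈ slopeFil T a E (a i + 1))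
    (hF : ∀ i, F (E i) = (T ^ a i) (U i)) (hV : ∀ i, V (U i) = -(T ^ (e - a i)) (E i))
    {E0 : I → H} (h0 : LinearIndependent k fun i => (T ^ (e - 1)) (E0 i)) :
    NormalForm F V a e := by
  classical
  choose z E' hz h1 h2 h3 using exists_normal hFT hVT hT ha hκ hspan hU hF hV
  have hs := span_pow hT (span_of_triangular ha hspan hz h1)
  have : Module.Finite k H := by
    rw [Module.finite_def, ← top_unique hs]
    exact Submodule.fg_span (Set.finite_range _)
  have hc : Fintype.card (I × Fin e) = finrank k H :=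
    le_antisymm (indep_pow hT h0).fintype_card_le_finrank (finrank_le_of_span_eq_top (top_unique hs))
  refine ⟨basisOfTopLeSpanOfCardEqFinrank _ hs hc, fun i r => (T ^ r) (E' i), ?_, ?_, ?_⟩
  · intro i r
    simp [coe_basisOfTopLeSpanOfCardEqFinrank]
  · intro i r hr
    obtain ⟨m, rfl⟩ : ∃ m, r = m + e := ⟨r - e, by omega⟩
    simp [pow_add, hT]
  · intro i r
    refine ⟨?_, ?_⟩
    · rw [comm_pow F hFT, h2, pow_pow_apply]
    · rw [comm_pow V hVT, h3, map_neg, pow_pow_apply]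

theorem NormalForm.iso {F : H →ₛₗ[frobenius k p] H}
    {V : H →ₛₗ[((frobeniusEquiv k p).symm : k →+* k)] H} {F' : H' →ₛₗ[frobenius k p] H'}
    {V' : H' →ₛₗ[((frobeniusEquiv k p).symm : k →+* k)] H'} {I : Type*} {a : I → ℕ} {e : ℕ}
    (h : NormalForm F V a e) (h' : NormalForm F' V' a e) :
    ∃ φ : H ≃ₗ[k] H', ∀ u, φ (F u) = F' (φ u) ∧ φ (V u) = V' (φ u) := by
  obtain ⟨b, G, h1, h2, h3⟩ := h
  obtain ⟨b', G', h1', h2', h3'⟩ := h'
  set φ := b.equiv b' (Equiv.refl _) with hφ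
  have hG : ∀ i r, φ (G i r) = G' i r := by
    intro i r
    by_cases hr : r < e
    · have := b.equiv_apply (i, ⟨r, hr⟩) b' (Equiv.refl _)
      rwa [Equiv.refl_apply, h1, h1'] at this
    · rw [h2 i r (by omega), h2' i r (by omega), map_zero]
  have e1 : φ.toLinearMap.comp F = F'.comp φ.toLinearMap := by
    refine b.ext ?_
    rintro ⟨i, r⟩
    simp only [LinearMap.comp_apply, LinearEquiv.coe_coe, h1, (h3 i r).1, hG, (h3' i r).1]
  have e2 : φ.toLinearMap.comp V = V'.comp φ.toLinearMap := by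
    refine b.ext ?_
    rintro ⟨i, r⟩
    simp only [LinearMap.comp_apply, LinearEquiv.coe_coe, h1, (h3 i r).2, hG, (h3' i r).2, map_neg]
  exact ⟨φ, fun u => ⟨LinearMap.congr_fun e1 u, LinearMap.congr_fun e2 u⟩⟩

theorem NormalForm.transfer {F : H →ₛₗ[frobenius k p] H}
    {V : H →ₛₗ[((frobeniusEquiv k p).symm : k →+* k)] H} {F' : H' →ₛₗ[frobenius k p] H'}
    {V' : H' →ₛₗ[((frobeniusEquiv k p).symm : k →+* k)] H'} {I : Type*} {a : I → ℕ} {e : ℕ}
    (h : NormalForm F V a e) (φ : H ≃ₗ[k] H')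
    (hφ : ∀ u, φ (F u) = F' (φ u) ∧ φ (V u) = V' (φ u)) : NormalForm F' V' a e := by
  obtain ⟨b, G, h1, h2, h3⟩ := h
  refine ⟨b.map φ, fun i r => φ (G i r), fun i r => by simp [h1], fun i r hr => by
    simp [h2 i r hr], fun i r => ⟨?_, ?_⟩⟩
  · rw [← (hφ _).1, (h3 i r).1]
  · rw [← (hφ _).2, (h3 i r).2, map_neg]

theorem NormalForm.finrank {F : H →ₛₗ[frobenius k p] H}
    {V : H →ₛₗ[((frobeniusEquiv k p).symm : k →+* k)] H} {I : Type*} [Fintype I] {a : I → ℕ}
    {e : ℕ} (h : NormalForm F V a e) :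
    Module.Finite k H ∧ Module.finrank k H = Fintype.card I * e := by
  obtain ⟨b, -⟩ := h
  exact ⟨Module.Finite.of_basis b, by rw [finrank_eq_card_basis b]; simp⟩

section

variable {σ τ : k →+* k} [RingHomSurjective τ] {F : H →ₛₗ[σ] H} {V : H →ₛₗ[τ] H}
  {F' : H' →ₛₗ[σ] H'} {V' : H' →ₛₗ[τ] H'}

theorem map_V_iso (φ : H ≃ₗ[k] H') (hφ : ∀ u, φ (F u) = F' (φ u) ∧ φ (V u) = V' (φ u))
    (N : Submodule k H) : (N.map V).map φ.toLinearMap = (N.map φ.toLinearMap).map V' := by
  ext u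
  simp only [Submodule.mem_map, LinearEquiv.coe_coe]
  constructor
  · rintro ⟨_, ⟨v, hv, rfl⟩, rfl⟩
    exact ⟨φ v, ⟨v, hv, rfl⟩, (hφ v).2.symm⟩
  · rintro ⟨_, ⟨v, hv, rfl⟩, rfl⟩
    exact ⟨V v, ⟨v, hv, rfl⟩, (hφ v).2⟩

theorem canonical_iso (φ : H ≃ₗ[k] H') (hφ : ∀ u, φ (F u) = F' (φ u) ∧ φ (V u) = V' (φ u))
    {N : Submodule k H} (hN : Canonical F V N) : Canonical F' V' (N.map φ.toLinearMap) := by
  induction hN with
  | bot => rw [Submodule.map_bot]; exact Canonical.bot
  | top => rw [Submodule.map_top, LinearEquiv.range]; exact Canonical.top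
  | image _ ih => rw [map_V_iso φ hφ]; exact ih.image
  | @preimage N _ ih =>
    have : (N.comap F).map φ.toLinearMap = (N.map φ.toLinearMap).comap F' := by
      ext u
      obtain ⟨v, rfl⟩ := φ.surjective u
      simp only [Submodule.mem_map, LinearEquiv.coe_coe, Submodule.mem_comap,
        EmbeddingLike.apply_eq_iff_eq, exists_eq_right, ← (hφ v).1]
    rw [this]; exact ih.preimage

theorem finalType_sub (φ : H ≃ₗ[k] H') (hφ : ∀ u, φ (F u) = F' (φ u) ∧ φ (V u) = V' (φ u))
    (i : ℕ) : {n | ∃ N : Submodule k H, Canonical F V N ∧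
      n = Module.finrank k (N.map V) + (i - Module.finrank k N)} ⊆
    {n | ∃ N : Submodule k H', Canonical F' V' N ∧
      n = Module.finrank k (N.map V') + (i - Module.finrank k N)} := by
  rintro _ ⟨N, hN, rfl⟩
  refine ⟨_, canonical_iso φ hφ hN, ?_⟩
  rw [← map_V_iso φ hφ, LinearEquiv.finrank_map_eq, LinearEquiv.finrank_map_eq]

theorem finalType_iso (φ : H ≃ₗ[k] H') (hφ : ∀ u, φ (F u) = F' (φ u) ∧ φ (V u) = V' (φ u)) :
    finalType F V = finalType F' V' := by
  funext i
  unfold finalType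
  congr 1
  refine Set.Subset.antisymm (finalType_sub φ hφ i) (finalType_sub φ.symm (fun u => ?_) i)
  obtain ⟨v, rfl⟩ := φ.surjective u
  rw [← (hφ v).1, ← (hφ v).2]
  simp

end

end Pool.Agent.Work.MP_6f9fbb_ag
end

-- merged part: Pool.Agent.Work.MP_6f9fbb_ag.Span2
section
/-! Spanning statements for the adelic cohomology. -/

namespace Pool.Agent.Work.MP_6f9fbb_ag

open scoped Classical

set_option linter.unusedSectionVars false

variable {k : Type*} [Field k] [IsAlgClosed k] {p : ℕ} [Fact p.Prime] [CharP k p]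
  {K : Type*} [Field K] [Algebra k K] [Algebra (RatFunc k) K] [IsScalarTower k (RatFunc k) K]
  [Algebra.IsSeparable (RatFunc k) K] [CharP K p] [CharP (RatFunc k) p]

namespace ASData

variable (A : ASData k p K)

/-- The slope step at a pole. -/
noncomputable def s (q : Option k) : ℕ := (p - 1) / A.d q

/-- The set of poles. -/
noncomputable def poles : Finset (Option k) := (bad A.f).filter fun c => 0 < A.d c

/-- Forms placed in level `n`. -/
noncomputable def formL (n : ℕ) : RatFunc k →ₗ[k] K × (Option k → K) where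
  toFun η := (η • A.b n, 0)
  map_add' a b := by simp [add_smul]
  map_smul' r a := by simp [smul_assoc]

/-- Local functions placed in level `n`. -/
noncomputable def adL (q : Option k) (n : ℕ) : RatFunc k →ₗ[k] (Option k → K) where
  toFun θ := Pi.single q (θ • A.b n)
  map_add' a b := by simp [add_smul, Pi.single_add]
  map_smul' r a := by simp [smul_assoc, Pi.single_smul']

variable {A}

theorem mem_poles {c : Option k} : c ∈ A.poles ↔ 0 < A.d c := by
  simp only [poles, Finset.mem_filter, and_iff_right_iff_imp]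
  exact mem_bad

theorem d_mul_s {q : Option k} (hq : 0 < A.d q) : A.d q * A.s q = p - 1 :=
  Nat.mul_div_cancel' (A.hd q hq)

theorem d_mul_s' {q : Option k} (hq : 0 < A.d q) : (p : ℤ) = A.d q * A.s q + 1 := by
  have h1 := d_mul_s hq
  have := (Fact.out : p.Prime).pos
  rw [← Nat.cast_mul, h1]; omega

theorem s_pos {q : Option k} (hq : 0 < A.d q) : 0 < A.s q := by
  have h1 := d_mul_s hq
  have := (Fact.out : p.Prime).two_le
  exact Nat.pos_of_ne_zero fun h => by rw [h] at h1; omega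

theorem cl_eZ_hol {q : Option k} (hq : 0 < A.d q) {l n : ℕ} (h : tt q ^ l • A.b n ∈ A.M q) :
    ((A.th q l • A.b (n + 1), 0) : K × (Option k → K)) ∈ A.Z ∧
      A.cl (A.eZ q l n) = A.cl (A.th q l • A.b (n + 1), 0) := by
  have h1 : ∀ c, (A.eZ q l n).2 c ∈ A.M c := fun c => by
    by_cases hc : c = q
    · subst hc; simpa [eZ] using h
    · simp [eZ, Pi.single_eq_of_ne hc]
  have h2 : ∀ c, A.th q l • A.b (n + 1) ∈ A.N c := fun c => by
    simpa [eZ] using add_mem ((eZ_mem hq l n).2 c) (der_mem_N (h1 c))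
  exact ⟨hol_mem h2, (cl_eq_iff (eZ_mem hq l n) (hol_mem h2)).mpr ⟨0, by simp [eZ], by simpa using h1⟩⟩

theorem hol_level {S : Submodule k A.H} (hT : LinearMap.range A.TH ≤ S) {n : ℕ} (hn : n + 1 < p)
    (hρ : ∀ q, 0 < A.d q → q ≠ A.q0 → A.cl (A.rho q • A.b (n + 1), 0) ∈ S) {η : RatFunc k}
    (hη : ∀ c, η • A.b (n + 1) ∈ A.N c) : A.cl (η • A.b (n + 1), 0) ∈ S := by
  let G := (A.clIn S).comap (A.formL (n + 1))
  let m : Option k → ℤ := fun c => if c = A.q0 then ep c else 1 + ep c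
  have hm : ∀ c, m c ≤ 1 + ep c := fun c => by simp only [m]; split_ifs <;> omega
  suffices h : η ∈ G from (mem_clIn.mp h).2
  have key0 := glue_mem G A.poles m (η := η) ?_ ?_
  · obtain ⟨θ, h1, h2⟩ := key0
    have h3 := form_eq_zero (c0 := A.q0) (η := η - θ) (fun c hc => by simpa [m, hc] using h2 c)
      (by simpa [m] using h2 A.q0)
    rwa [sub_eq_zero.mp h3]
  · intro q hq
    rw [mem_poles] at hq
    obtain ⟨l0, h1, h2⟩ := hη q (n + 1) hn
    rw [cf_mono hn] at h2
    have hp := d_mul_s' hq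
    have hd : (1 : ℤ) ≤ A.d q := by exact_mod_cast hq
    have hs : (1 : ℤ) ≤ A.s q := by exact_mod_cast s_pos hq
    have key : ∀ l, l0 ≤ l → l < l0 + (m q - l0).toNat → ∃ g ∈ G ⊓ away q m, HasOrd q l g := by
      intro l h3 h4
      have h5 : l < m q := by omega
      by_cases h6 : l < ep q
      · obtain ⟨i, hi⟩ : ∃ i : ℕ, (i : ℤ) = ep q - l := ⟨(ep q - l).toNat, by omega⟩
        have h7 : 1 + p * (i : ℤ) ≤ A.d q * (n + 1) := by
          have : (p : ℤ) * l0 ≤ p * l := mul_le_mul_of_nonneg_left h3 (by positivity)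
          push_cast at h1
          rw [hi]; linarith only [this, h1]
        have h8 : (A.s q : ℤ) * i ≤ n := by
          by_contra h9
          push Not at h9
          have : (A.d q : ℤ) * (n + 1) ≤ A.d q * (A.s q * i) :=
            mul_le_mul_of_nonneg_left h9 (Int.natCast_nonneg _)
          have e : (p : ℤ) * i = A.d q * (A.s q * i) + i := by rw [hp]; ring
          linarith only [h7, this, e, Int.natCast_nonneg i]
        have h9 : i < A.d q := by
          by_contra h9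
          push Not at h9
          have h10 : (A.d q : ℤ) ≤ i := by exact_mod_cast h9
          have : (n : ℤ) + 1 < p := by exact_mod_cast hn
          linarith only [mul_le_mul_of_nonneg_left h10 (zero_le_one.trans hs), h8, this, hp]
        have h10 : ((A.d q - i : ℕ) : ℤ) = A.d q - i := by omega
        have h11 : tt q ^ (A.d q - i) • A.b n ∈ A.M q :=
          mono_mem_W (Fil_pow tt_mem _) fun _ => by
            rw [h10]; linarith only [h7]
        obtain ⟨h12, h13⟩ := cl_eZ_hol hq h11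
        refine ⟨A.th q (A.d q - i), ⟨mem_clIn.mpr ⟨h12, hT ?_⟩, mem_away.mpr fun c hc =>
          Fil_mono (A.th_away q _ hc) (hm c)⟩, (hasOrd_th (by omega)).cast (by omega)⟩
        show A.cl (A.th q (A.d q - i) • A.b (n + 1), 0) ∈ _
        rw [← h13, ← TH_pow_eZ hq]
        refine pow_mem_range (Nat.pos_of_ne_zero ?_) _
        rintro rfl
        have : (1 : ℤ) ≤ i := by omega
        push_cast at h8
        linarith only [h8, mul_le_mul hs this zero_le_one (zero_le_one.trans hs)]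
      · have h7 : q ≠ A.q0 := by
          rintro rfl
          simp [m] at h5; omega
        have h8 : l = ep q := by simp [m, h7] at h5; omega
        refine ⟨A.rho q, ⟨mem_clIn.mpr ⟨hol_mem (rho_hol hq n), hρ q hq h7⟩,
          mem_away.mpr fun c hc => ?_⟩, h8 ▸ hasOrd_rho h7⟩
        by_cases h9 : c = A.q0
        · simpa [m, h9] using rho_mem q A.q0
        · simpa [m, h9] using rho_away hc h9
    obtain ⟨θ, h3, h4⟩ := exists_expand _ l0 _ key h2
    exact ⟨θ, h3.1, Fil_mono h4 (by omega), h3.2⟩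
  · intro c hc
    rw [mem_poles] at hc
    obtain ⟨l0, h1, h2⟩ := hη c (n + 1) hn
    rw [cf_mono hn] at h2
    refine Fil_mono h2 ((hm c).trans ?_)
    have h3 : A.d c = 0 := by omega
    have : ep c ≤ l0 - 1 := le_of_mul_lt (p := p) (by rw [h3] at h1; push_cast at h1; linarith)
    omega

theorem hol_in {S : Submodule k A.H} (hT : LinearMap.range A.TH ≤ S) {w : K}
    (hw : ∀ c, w ∈ A.N c) (h1 : A.cl (A.cf 1 w • A.b 1, 0) ∈ S) : A.cl (w, 0) ∈ S := by
  refine (mem_clIn.mp (A.ind (P := fun w => ((w, 0) : K × (Option k → K)) ∈ A.clIn S)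
    (zero_mem _) (fun a b ha hb => by simpa using add_mem ha hb) w fun n hn => ?_)).2
  have h2 : ∀ n c, A.cf n w • A.b n ∈ A.N c := fun n c => cf_smul_mem_W (hw c) n
  refine mem_clIn.mpr ⟨hol_mem (h2 n), ?_⟩
  rcases n with _ | _ | n
  · have h3 : A.cf 0 w = 0 := form_eq_zero (c0 := none) (fun c _ => cf_zero_mem (hw c))
      (Fil_mono (cf_zero_mem (hw _)) (by omega))
    rw [h3, zero_smul]
    exact (cl_zero (A := A)).symm ▸ zero_mem S
  · exact h1
  · refine hol_level hT hn (fun q hq _ => hT ?_) (h2 _)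
    have := TH_pow_hol (rho_hol (A := A) hq 0) (n + 1)
    rw [map_smul, A.T_pow_b, show 0 + 1 + (n + 1) = n + 1 + 1 by omega] at this
    rw [← this]
    exact pow_mem_range (by omega) _

theorem hol_in' {S : Submodule k A.H} (hT : LinearMap.range A.TH ≤ S)
    (hρ : ∀ q, 0 < A.d q → q ≠ A.q0 → A.cl (A.rho q • A.b 1, 0) ∈ S) {w : K}
    (hw : ∀ c, w ∈ A.N c) : A.cl (w, 0) ∈ S :=
  hol_in hT hw (hol_level hT (n := 0) (Fact.out : p.Prime).one_lt hρ
    fun c => cf_smul_mem_W (hw c) 1)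

theorem local_expand {S : Submodule k A.H} {q : Option k} (hq : 0 < A.d q) (n l0 : ℕ)
    (he : ∀ l, l0 ≤ l → l < A.d q → A.cl (A.eZ q l n) ∈ S) {u : RatFunc k} (hu : u ∈ Fil q l0) :
    ∃ z ∈ A.clIn S, u • A.b n - z.2 q ∈ A.M q ∧ ∀ c, c ≠ q → z.2 c = 0 := by
  let G := ((A.clIn S).map (LinearMap.snd k _ _)).comap (A.adL q n)
  obtain ⟨θ, ⟨z, h1, h2⟩, h3⟩ := exists_expand G l0 (A.d q - l0) (fun l h1 h2 => by
    obtain ⟨l, rfl⟩ : ∃ l' : ℕ, l = l' := ⟨l.toNat, by omega⟩
    exact ⟨tt q ^ l, ⟨A.eZ q l n, mem_clIn.mpr ⟨eZ_mem hq l n, he l (by omega) (by omega)⟩, rfl⟩,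
      (hasOrd_tt.pow l).cast (by simp)⟩) hu
  have h4 : z.2 = Pi.single q (θ • A.b n) := h2
  refine ⟨z, h1, ?_, fun c hc => by rw [h4, Pi.single_eq_of_ne hc]⟩
  rw [h4, Pi.single_eq_same, ← sub_smul]
  exact fil_mem_M (Fil_mono h3 (by omega)) n

theorem level_expand {S : Submodule k A.H} (n : ℕ)
    (he : ∀ q l, 0 < A.d q → l < A.d q → ¬(q = A.q0 ∧ l = 0) → A.cl (A.eZ q l n) ∈ S)
    {a : Option k → RatFunc k} (ha : ∀ c, c ∉ bad A.f → a c = 0) :
    ∃ g, ∃ z ∈ A.clIn S, ∀ c, a c • A.b n - g - z.2 c ∈ A.M c := by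
  obtain ⟨h, hh⟩ := exists_glue (bad A.f) a fun c hc => by rw [ha c hc]; exact zero_mem _
  obtain ⟨α, hα⟩ := exists_sub_smul (hh A.q0) hasOrd_one
  have h1 : ∀ c, a c - h - α • 1 ∈ Fil c 0 := fun c =>
    sub_mem (hh c) (Submodule.smul_mem _ α one_mem_Fil)
  have h2 : ∀ q ∈ A.poles, ∃ z ∈ A.clIn S, (a q - h - α • 1) • A.b n - z.2 q ∈ A.M q ∧
      ∀ c, c ≠ q → z.2 c = 0 := by
    intro q hq
    rw [mem_poles] at hq
    by_cases h3 : q = A.q0
    · exact local_expand hq n 1 (fun l h4 h5 => he q l hq h5 (by omega)) (h3 ▸ hα)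
    · exact local_expand hq n 0 (fun l _ h5 => he q l hq h5 (by tauto)) (h1 q)
  choose! z h3 h4 h5 using h2
  refine ⟨(h + α • 1) • A.b n, ∑ q ∈ A.poles, z q, Submodule.sum_mem _ h3, fun c => ?_⟩
  rw [← sub_smul, ← sub_sub, Prod.snd_sum, Finset.sum_apply]
  by_cases hc : c ∈ A.poles
  · rw [Finset.sum_eq_single_of_mem c hc fun q hq h6 => h5 q hq c h6.symm]
    exact h4 c hc
  · rw [Finset.sum_eq_zero fun q hq => h5 q hq c (by rintro rfl; exact hc hq), sub_zero]
    rw [mem_poles] at hc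
    exact fil_mem_M (Fil_mono (h1 c) (by omega)) n

theorem cl_in {S : Submodule k A.H} (hT : LinearMap.range A.TH ≤ S)
    (hρ : ∀ q, 0 < A.d q → q ≠ A.q0 → A.cl (A.rho q • A.b 1, 0) ∈ S)
    {z : K × (Option k → K)} (hz : z ∈ A.Z)
    (h0 : ∃ g, ∃ z' ∈ A.clIn S, ∀ c, A.cf 0 (z.2 c) • A.b 0 - g - z'.2 c ∈ A.M c) :
    A.cl z ∈ S := by
  have h1 : ∀ n, ∃ g, ∃ z' ∈ A.clIn S, ∀ c, A.cf n (z.2 c) • A.b n - g - z'.2 c ∈ A.M c := by
    intro n
    rcases Nat.eq_zero_or_pos n with rfl | hn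
    · exact h0
    · refine level_expand n (fun q l hq _ _ => hT ?_) fun c hc => by rw [hz.1 c hc, map_zero]
      rw [← TH_pow_eZ hq]
      exact pow_mem_range hn _
  choose g z' h2 h3 using h1
  have h4 := mem_clIn.mp (Submodule.sum_mem _ fun n (_ : n ∈ Finset.range p) => h2 n)
  set u := ∑ n ∈ Finset.range p, z' n with hu
  have h5 : ∀ c, z.2 c - u.2 c - ∑ n ∈ Finset.range p, g n ∈ A.M c := fun c => by
    convert Submodule.sum_mem _ fun n (_ : n ∈ Finset.range p) => h3 n c using 1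
    rw [Finset.sum_sub_distrib, Finset.sum_sub_distrib, sum_cf, hu, Prod.snd_sum, Finset.sum_apply]
    abel
  have h6 : ∀ c, z.1 - u.1 - der k K (∑ n ∈ Finset.range p, g n) ∈ A.N c := fun c => by
    convert add_mem (sub_mem (hz.2 c) (h4.1.2 c)) (der_mem_N (h5 c)) using 1
    simp only [map_sub]; abel
  have h7 : A.cl (z - u) = A.cl (_, 0) := (cl_eq_iff (sub_mem hz h4.1) (hol_mem h6)).mpr
    ⟨∑ n ∈ Finset.range p, g n, by simp, by simpa using h5⟩
  rw [cl_sub hz h4.1, sub_eq_iff_eq_add] at h7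
  rw [h7]
  exact add_mem (hol_in' hT hρ h6) h4.2

theorem der_eq_zero {g : K} {μ : Option k → RatFunc k} (h1 : ∀ c, μ c ∈ Fil c 0)
    (h2 : μ A.q0 ∈ Fil A.q0 1) (h3 : ∀ c, μ c • A.b (p - 2) - g ∈ A.M c) : der k K g = 0 := by
  have hp := (Fact.out : p.Prime).two_le
  have hp' : (2 : ℤ) ≤ p := by exact_mod_cast hp
  have h4 : ∀ c, ∀ n < p, ∀ m : ℤ, μ c ∈ Fil c m → p * (m - 1) < A.d c * (p - 1 - n : ℤ) →
      A.cf n g ∈ Fil c m := by
    intro c n hn m h5 h6
    obtain ⟨l, h7, h8⟩ := h3 c n hn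
    have h9 : m - 1 ≤ l - 1 := le_of_mul_lt (p := p) (by linarith)
    have h10 : A.cf n (μ c • A.b (p - 2)) ∈ Fil c m := by
      rw [map_smul, cf_b]
      split_ifs
      · simpa using h5
      · simp
    simpa using sub_mem h10 (Fil_mono h8 (by omega))
  have h5 : ∀ c, ∀ n < p, A.cf n g ∈ Fil c 0 := fun c n hn => h4 c n hn 0 (h1 c) (by
    have : (0 : ℤ) ≤ p - 1 - n := by omega
    nlinarith [mul_nonneg (Int.natCast_nonneg (A.d c)) this])
  refine A.ind (P := fun g => der k K g = 0) (map_zero _)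
    (fun a b ha hb => by rw [map_add, ha, hb, add_zero]) g fun n hn => ?_
  by_cases h6 : n = p - 1
  · obtain ⟨a, ha⟩ := exists_const fun c => h5 c n hn
    rw [ha, h6, smul_last, der_algebraMap, der_C, map_zero]
  · have h7 : (0 : ℤ) < A.d A.q0 := by exact_mod_cast A.hq0
    rw [eq_zero_of_vanish (fun c => h5 c n hn) (h4 A.q0 n hn 1 h2 (by
      simpa using mul_pos h7 (by omega))), zero_smul, map_zero]

end ASData

end Pool.Agent.Work.MP_6f9fbb_ag
end

-- merged part: Pool.Agent.Work.MP_6f9fbb_ag.Uel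
section
/-! The divided Frobenius of the basic cocycles. -/

namespace Pool.Agent.Work.MP_6f9fbb_ag

open scoped Classical

set_option linter.unusedSectionVars false

variable {k : Type*} [Field k] [IsAlgClosed k] {p : ℕ} [Fact p.Prime] [CharP k p]
  {K : Type*} [Field K] [Algebra k K] [Algebra (RatFunc k) K] [IsScalarTower k (RatFunc k) K]
  [Algebra.IsSeparable (RatFunc k) K] [CharP K p] [CharP (RatFunc k) p]

theorem wilson (R : Type*) [Ring R] [CharP R p] : (((p - 1).factorial : ℕ) : R) = -1 := by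
  have := congrArg (ZMod.castHom (dvd_refl p) R) (ZMod.wilsons_lemma p)
  rwa [map_natCast, map_neg, map_one] at this

theorem der_div_pow (f : RatFunc k) {n : ℕ} (hn : n + 1 < p) :
    der k (RatFunc k) ((((n + 1).factorial : ℕ) : RatFunc k)⁻¹ * f ^ (n + 1)) =
      ((n.factorial : ℕ) : RatFunc k)⁻¹ * f ^ n * der k (RatFunc k) f := by
  rw [Derivation.leibniz, Derivation.leibniz_inv, Derivation.map_natCast, Derivation.leibniz_pow,
    Nat.factorial_succ]
  have h2 := factorial_ne_zero_of_lt (E := RatFunc k) (p := p) (n := n) (by omega)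
  have h3 := natCast_ne_zero_of_lt (E := RatFunc k) (p := p) (n := n + 1) (by omega) hn
  simp only [smul_eq_mul, nsmul_eq_mul, Nat.add_sub_cancel, Nat.cast_mul]
  field_simp
  ring

theorem der_smul_pow (h : RatFunc k) (g : K) :
    der k K (h • g ^ p) = der k (RatFunc k) h • g ^ p := by
  rw [der_smul, der_pow_p, smul_zero, add_zero]

theorem gam_smul (h : RatFunc k) (g : K) : gam k p (h • g) = gam k p h • g ^ p := by
  rw [Algebra.smul_def, mul_comm, gam_mul, gam_algebraMap, Algebra.smul_def, mul_comm]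

namespace ASData

variable {A : ASData k p K}

theorem T_pow_B (m n : ℕ) : (A.T ^ m) (A.b n ^ p) = A.b (n + m) ^ p := by
  induction m with
  | zero => simp
  | succ m ih => rw [pow_succ', Module.End.mul_apply, ih, T_frob, T_b, add_assoc]

theorem cf_zero_B (n : ℕ) : A.cf 0 (A.b (n + 1) ^ p) = 0 := by
  rw [← T_b, ← T_frob, cf_zero_T]

theorem cf_zero_gam (h : RatFunc k) : A.cf 0 (gam k p (h • A.b 1)) = 0 := by
  rw [gam_smul, map_smul, cf_zero_B, smul_zero]

theorem exists_lam {q : Option k} (hq : 0 < A.d q) (l : ℕ) :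
    ∃ lam : Option k → K, (∀ c, c ∉ bad A.f → lam c = 0) ∧
      (∀ c, der k (RatFunc k) (A.cf 0 (lam c)) ∈ Fil c (1 + ep c)) ∧
      ∀ c, gam k p (A.th q l • A.b 1) - der k K (lam c) + (Pi.single q (((tt q ^ l) ^ p *
        (A.f ^ (p - 1) * der k (RatFunc k) A.f)) • A.b 1 ^ p) : Option k → K) c ∈ A.N c := by
  have key : ∀ c, ∃ g : K, (c ∉ bad A.f → g = 0) ∧
      gam k p (A.th q l • A.b 1) - der k K g + (Pi.single q (((tt q ^ l) ^ p *
        (A.f ^ (p - 1) * der k (RatFunc k) A.f)) • A.b 1 ^ p) : Option k → K) c ∈ A.N c := by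
    intro c
    by_cases hc : c = q
    · subst hc
      obtain ⟨g, hg⟩ := exists_gam (log_mem_N hq (A.th_self c l) 0)
      obtain ⟨μ, hμ⟩ := (dlog_mem_Fix_iff (A.hasOrd_f hq).ne).mp (dlog_mem_Fix_L (p := p) A.f)
      refine ⟨g + ((tt c ^ l) ^ p * μ) • A.b 1 ^ p, fun h => absurd (mem_bad hq) h, ?_⟩
      convert hg using 1
      rw [Pi.single_eq_same, map_add, der_smul_pow, der_pow_p_mul,
        show der k (RatFunc k) μ = _ from hμ, add_smul, gam_add, gam_smul (_ * _), gam_mul,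
        mul_sub, sub_smul]
      abel
    · rw [Pi.single_eq_of_ne hc]
      have h1 := reg_mem_N (A := A) (A.th_away q l hc) 1
      by_cases h2 : c ∈ bad A.f
      · obtain ⟨g, hg⟩ := exists_gam h1
        exact ⟨g, fun h => absurd h2 h, by simpa using hg⟩
      · refine ⟨0, fun _ => rfl, ?_⟩
        rw [map_zero, sub_zero, add_zero, mem_N_iff h2, ← M_eq h2]
        rw [mem_N_iff h2, ← M_eq h2] at h1
        refine mul_mem_M (pow_mem_M h1 p) (pow_mem_M (algebraMap_mem_M.mpr ?_) _)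
        exact tt_inv_mem_of_ne (c := none) (c' := c) (by rintro rfl; exact h2 (none_mem_bad _))
          |> fun h => by simpa [tt] using h
  choose lam h1 h2 using key
  refine ⟨lam, h1, fun c => ?_, h2⟩
  have h3 := neg_mem (cf_zero_mem (h2 c))
  rw [map_add, map_sub, cf_zero_gam, cf_zero_der] at h3
  by_cases hc : c = q
  · subst hc
    simpa [cf_zero_B] using h3
  · simpa [Pi.single_eq_of_ne hc] using h3

theorem exists_xi (h : RatFunc k) (a m : ℕ) (ham : p ≤ m + 1 + a) :
    ∃ ξ : K, der k K ξ = (h ^ p * (A.f ^ (p - 1) * der k (RatFunc k) A.f)) •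
      (A.b (m + 1) - A.b (m + 1) ^ p) ∧ (A.T ^ a) ξ = 0 ∧ A.cf 0 ξ = 0 := by
  have hp := (Fact.out : p.Prime).pos
  have key : ∀ j, ∃ ξ : RatFunc k, j + 1 < p → der k (RatFunc k) ξ =
      h ^ p * (A.f ^ (p - 1) * der k (RatFunc k) A.f) *
        ((((j + 1).factorial : ℕ) : RatFunc k)⁻¹ * (-A.f) ^ (j + 1)) := by
    intro j
    by_cases hj : j + 1 < p
    · obtain ⟨ξ, hξ⟩ := (Ex k (RatFunc k)).smul_mem
        ((((j + 1).factorial : ℕ) : k)⁻¹ * (-1) ^ (j + 1))
        (Ex_pow_mul (p := p) (h * A.f) (pow_mul_der_mem_Ex (k := k) A.f hj))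
      refine ⟨ξ, fun _ => (show der k (RatFunc k) ξ = _ from hξ).trans ?_⟩
      have : A.f ^ p = A.f ^ (p - 1) * A.f := by rw [← pow_succ, Nat.sub_add_cancel hp]
      rw [RatFunc.smul_eq_C_mul, mul_pow, this, neg_pow A.f]
      simp only [map_mul, map_inv₀, map_natCast, map_pow, map_neg, map_one]
      ring
    · exact ⟨0, fun h => absurd h hj⟩
  choose ξ hξ using key
  refine ⟨∑ j ∈ Finset.range (p - 1), ξ j • A.b (m + 1 + (j + 1)) ^ p, ?_, ?_, ?_⟩
  · have h3 : Finset.range p = Finset.range (p - 1 + 1) := by rw [Nat.sub_add_cancel hp]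
    have h4 := A.b_eq (m + 1)
    rw [h3, Finset.sum_range_succ'] at h4
    simp only [Nat.factorial_zero, Nat.cast_one, inv_one, pow_zero, mul_one, one_smul,
      add_zero] at h4
    rw [← sub_eq_iff_eq_add] at h4
    simp only [h4, map_sum, Finset.smul_sum, der_smul_pow, smul_smul]
    exact Finset.sum_congr rfl fun j hj => by
      rw [hξ j (by have := Finset.mem_range.mp hj; omega)]
  · rw [map_sum]
    refine Finset.sum_eq_zero fun j _ => ?_
    rw [map_smul, T_pow_B, A.b_of_le (by omega), zero_pow hp.ne', smul_zero]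
  · rw [map_sum]
    refine Finset.sum_eq_zero fun j _ => ?_
    rw [map_smul, ← add_assoc, cf_zero_B, smul_zero]

theorem exists_beta {q : Option k} (hq : 0 < A.d q) {l : ℕ} (hl0 : 0 < l) (hl : l < A.d q) :
    ∃ β : K, der k K β - ((tt q ^ l) ^ p * (A.f ^ (p - 1) * der k (RatFunc k) A.f)) •
        A.b (p - 1 - A.s q * l + 1) ^ p ∈ A.N q ∧
      (A.T ^ (A.s q * l)) β - (tt q ^ l • A.b 0) ^ p ∈ A.M q ∧ HasOrd q l (A.cf 0 β) := by
  have hp := (Fact.out : p.Prime).pos
  have hs := s_pos hq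
  have hp1 := d_mul_s' hq
  have h1 : A.s q * l < p - 1 := by
    rw [← d_mul_s hq, mul_comm]; exact Nat.mul_lt_mul_of_pos_right hl hs
  obtain ⟨a, ha⟩ : ∃ a, A.s q * l = a + 1 := ⟨A.s q * l - 1, by
    have := Nat.mul_pos hs hl0; omega⟩
  have ha' : (A.s q : ℤ) * l = a + 1 := by exact_mod_cast ha
  have ha2 : (p : ℤ) * l = A.d q * (a + 1) + l := by rw [hp1, ← ha']; ring
  have hl0' : (1 : ℤ) ≤ l := by exact_mod_cast hl0
  rw [ha] at h1 ⊢
  set m := p - 1 - (a + 1) with hm
  set h := tt q ^ l with hh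
  have hho : HasOrd q (p * l) (h ^ p) := ((hasOrd_tt.pow l).pow p).cast (by ring)
  obtain ⟨ξ, h2, h3, h4⟩ := exists_xi (A := A) h (a + 1) m (by omega)
  let G : ℕ → K := fun j => (h ^ p * ((((a + j).factorial : ℕ) : RatFunc k)⁻¹ * A.f ^ (a + j) *
    der k (RatFunc k) A.f)) • A.b j
  refine ⟨(∑ j ∈ Finset.range (m + 1), (h ^ p * ((((a + j + 1).factorial : ℕ) : RatFunc k)⁻¹ *
    A.f ^ (a + j + 1))) • A.b j) - ξ, ?_, ?_, ?_⟩
  · rw [map_sub, map_sum, Finset.sum_congr rfl (g := fun j => G j - G (j + 1)) (fun j hj => by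
      rw [der_mono, der_pow_p_mul, der_div_pow (p := p) _ (by
        have := Finset.mem_range.mp hj; omega), mul_assoc (h ^ p)]; rfl), Finset.sum_range_sub', h2]
    have h5 : G (m + 1) = -((h ^ p * (A.f ^ (p - 1) * der k (RatFunc k) A.f)) • A.b (m + 1)) := by
      simp only [G, show a + (m + 1) = p - 1 by omega, wilson, ← neg_smul]
      congr 1
      rw [inv_neg_one]; ring
    have h6 : G 0 ∈ A.N q := reg_mem_N (Fil_mul hho.mem (Fil_mul (Fil_mul (fact_inv_mem _)
      (Fil_pow (A.f_mem q) _) le_rfl) (der_f_mem q) le_rfl) (by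
        push_cast; linarith only [ha2, hl0'])) 0
    convert h6 using 1
    rw [h5, smul_sub]; abel
  · have h5 : Finset.range p = Finset.range (a + 1 + (m + 1)) := by congr 1; omega
    rw [map_sub, h3, sub_zero, smul_pow, b_pow, h5, Finset.sum_range_add _ (a + 1), smul_add, map_sum,
      Finset.smul_sum, Finset.smul_sum]
    have h6 : ∀ j, (A.T ^ (a + 1)) ((h ^ p * ((((a + j + 1).factorial : ℕ) : RatFunc k)⁻¹ *
        A.f ^ (a + j + 1))) • A.b j) = h ^ p • ((((a + 1 + j).factorial : ℕ) : RatFunc k)⁻¹ *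
        A.f ^ (a + 1 + j)) • A.b (0 + (a + 1 + j)) := fun j => by
      rw [map_smul, T_pow_b, smul_smul, show a + j + 1 = a + 1 + j by omega,
        show j + (a + 1) = 0 + (a + 1 + j) by omega]
    simp only [h6, sub_add_cancel_right]
    refine neg_mem (Submodule.sum_mem _ fun n hn => ?_)
    have h7 : (n : ℤ) ≤ a := by have := Finset.mem_range.mp hn; omega
    rw [smul_smul]
    refine mono_mem_W (Fil_mul hho.mem (Fil_mul (fact_inv_mem _) (Fil_pow (A.f_mem q) _) le_rfl)
      le_rfl) fun _ => ?_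
    have h8 : (0 : ℤ) ≤ (p - 1) * (A.d q * (a - n)) :=
      mul_nonneg (by omega) (mul_nonneg (by positivity) (by omega))
    have h9 : (p : ℤ) * (p * l) = p * (A.d q * (a + 1) + l) := by rw [ha2]
    have h10 : (0 : ℤ) ≤ A.d q * (a + 1) := by positivity
    have h11 : (0 : ℤ) ≤ p * l := by positivity
    push_cast
    linarith only [h8, h9, h10, h11]
  · rw [map_sub, h4, sub_zero, map_sum, Finset.sum_eq_single 0, cf_mono hp]
    · have h5 : HasOrd q 0 (((a + 0 + 1).factorial : ℕ) : RatFunc k) := by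
        have h6 := factorial_ne_zero_of_lt (E := k) (p := p) (n := a + 0 + 1) (by omega)
        simpa using hasOrd_C (c := q) h6
      exact (hho.mul (h5.inv.mul ((A.hasOrd_f hq).pow _))).cast (by
        push_cast; linarith only [ha2])
    · intro j _ hj
      rw [map_smul, cf_b, if_neg (by omega), smul_zero]
    · simp

end ASData

end Pool.Agent.Work.MP_6f9fbb_ag
end
end

-- merged part: Pool.Agent.Work.MP_6f9fbb_ag.Final
section
-- merged part: Pool.Agent.Work.MP_6f9fbb_ag.Normal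
section
/-! The normal form of the adelic cohomology. -/

namespace Pool.Agent.Work.MP_6f9fbb_ag

open scoped Classical

set_option linter.unusedSectionVars false

/-- The index set of the basis over `k[T]/T^(p-1)`. -/
def Idx {Q : Type*} (d : Q → ℕ) (q0 : Q) : Type _ :=
  {x : Q × ℕ // x.2 ≤ d x.1 ∧ ¬(x.1 = q0 ∧ (x.2 = 0 ∨ x.2 = d x.1))}

/-- The index set as a finite set. -/
noncomputable def idxSet {Q : Type*} [Fintype Q] (d : Q → ℕ) (q0 : Q) : Finset (Q × ℕ) :=
  (Finset.univ.biUnion fun q => {q} ×ˢ Finset.range (d q + 1)) \ {(q0, 0), (q0, d q0)}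

theorem mem_idxSet {Q : Type*} [Fintype Q] (d : Q → ℕ) (q0 : Q) (x : Q × ℕ) :
    x ∈ idxSet d q0 ↔ x.2 ≤ d x.1 ∧ ¬(x.1 = q0 ∧ (x.2 = 0 ∨ x.2 = d x.1)) := by
  obtain ⟨q, l⟩ := x
  simp only [idxSet, Finset.mem_sdiff, Finset.mem_biUnion, Finset.mem_univ, Finset.mem_product,
    Finset.mem_singleton, Finset.mem_range, true_and, exists_eq_left', Finset.mem_insert,
    Prod.mk.injEq, Nat.lt_succ_iff]
  refine and_congr_right fun _ => not_congr ⟨?_, ?_⟩
  · rintro (⟨rfl, h⟩ | ⟨rfl, h⟩) <;> simp [h]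
  · rintro ⟨rfl, h | h⟩ <;> simp [h]

noncomputable instance {Q : Type*} [Fintype Q] (d : Q → ℕ) (q0 : Q) : Fintype (Idx d q0) :=
  Fintype.subtype (idxSet d q0) (mem_idxSet d q0)

theorem card_Idx {Q : Type*} [Fintype Q] (d : Q → ℕ) (q0 : Q) (h : 0 < d q0) :
    Fintype.card (Idx d q0) = (∑ q, (d q + 1)) - 2 := by
  have h1 : Fintype.card (Idx d q0) = (idxSet d q0).card :=
    Fintype.subtype_card (idxSet d q0) (mem_idxSet d q0)
  rw [h1, idxSet, Finset.card_sdiff_of_subset, Finset.card_biUnion, Finset.card_pair]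
  · simp
  · simp; omega
  · intro a _ b _ hab
    simp [Finset.disjoint_left, hab.symm]
  · intro x hx
    simp only [Finset.mem_insert, Finset.mem_singleton] at hx
    rcases hx with rfl | rfl <;> simp

variable {k : Type*} [Field k] [IsAlgClosed k] {p : ℕ} [Fact p.Prime] [CharP k p]
  {K : Type*} [Field K] [Algebra k K] [Algebra (RatFunc k) K] [IsScalarTower k (RatFunc k) K]
  [Algebra.IsSeparable (RatFunc k) K] [CharP K p] [CharP (RatFunc k) p]

namespace ASData

variable {A : ASData k p K}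

theorem T_pow_der (m : ℕ) (g : K) : (A.T ^ m) (der k K g) = der k K ((A.T ^ m) g) := by
  induction m with
  | zero => simp
  | succ m ih => rw [pow_succ', Module.End.mul_apply, ih, T_der, Module.End.mul_apply]

theorem T_pow_car (m : ℕ) (g : K) : (A.T ^ m) (car k p g) = car k p ((A.T ^ m) g) := by
  induction m with
  | zero => simp
  | succ m ih => rw [pow_succ', Module.End.mul_apply, ih, T_car, Module.End.mul_apply]

theorem exists_U {q : Option k} (hq : 0 < A.d q) {l : ℕ} (hl0 : 0 < l) (hl : l < A.d q) :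
    ∃ u ∈ A.Z, A.FH (A.cl (A.eZ q l 0)) = (A.TH ^ (A.s q * l)) (A.cl u) ∧
      A.VH (A.cl u) = -(A.TH ^ (p - 1 - A.s q * l)) (A.cl (A.eZ q l 0)) ∧
      HasOrd q l (A.cf 0 (u.2 q)) ∧ ∀ c, c ≠ q → A.cf 0 (u.2 c) = 0 := by
  have hp := (Fact.out : p.Prime).pos
  obtain ⟨lam, h1, h2, h3⟩ := exists_lam hq l
  obtain ⟨β, h4, h5, h6⟩ := exists_beta hq hl0 hl
  have h7 : A.s q * l < p - 1 := by
    rw [← d_mul_s hq, mul_comm]; exact Nat.mul_lt_mul_of_pos_right hl (s_pos hq)
  set a := A.s q * l with ha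
  set m := p - 1 - a with hm
  have hT := T_pow_der (A := A) m
  have hC := T_pow_car (A := A) m
  have hTT : ∀ g, (A.T ^ a) ((A.T ^ m) g) = A.cf 0 g • A.b (p - 1) := fun g => by
    rw [← Module.End.mul_apply, ← pow_add, show a + m = p - 1 by omega, T_pow_last]
  have hu : ((-(A.T ^ m) (gam k p (A.th q l • A.b 1)), fun c => (Pi.single q β : Option k → K) c -
      (A.T ^ m) (lam c)) : K × (Option k → K)) ∈ A.Z := by
    refine ⟨fun c hc => ?_, fun c => ?_⟩
    · simp [h1 c hc, Pi.single_eq_of_ne (show c ≠ q by rintro rfl; exact hc (mem_bad hq))]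
    · have h8 : -(A.T ^ m) _ ∈ A.N c := neg_mem (T_pow_mem_W (h3 c) m)
      rw [map_add, map_sub, hT] at h8
      by_cases hc : c = q
      · subst hc
        simp only [Pi.single_eq_same, map_smul, T_pow_B] at h8 ⊢
        convert sub_mem h8 h4 using 1
        rw [map_sub, add_comm 1 m]; abel
      · simp only [Pi.single_eq_of_ne hc, map_zero] at h8 ⊢
        convert h8 using 1
        rw [zero_sub, map_neg]; abel
  refine ⟨_, hu, ?_, ?_, ?_, fun c hc => ?_⟩
  · obtain ⟨g, h8, h9⟩ := base_bd (A := A) (η := 0) (a := fun c => A.cf 0 (lam c))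
      (fun c hc => by rw [h1 c hc, map_zero]) (fun c => by simpa using h2 c)
    rw [FH_cl (eZ_mem hq l 0), TH_pow_cl hu, cl_eq_iff (F0_mem (eZ_mem hq l 0)) (T_pow_mem hu a)]
    refine ⟨g, by simp [hTT, cf_zero_gam, ← h8], fun c => ?_⟩
    by_cases hc : c = q
    · subst hc
      convert sub_mem (h9 c) h5 using 1
      simp only [eZ, Pi.single_eq_same, map_sub, hTT]; abel
    · convert h9 c using 1
      simp [eZ, Pi.single_eq_of_ne hc, hTT, hp.ne']
  · have h8 : tt q ^ l • A.b m ∈ A.M q := mono_mem_W (Fil_pow tt_mem _) fun _ => by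
      have h9 : (m : ℤ) = p - 1 - A.s q * l := by rw [← Nat.cast_mul, ← ha]; omega
      have h10 := d_mul_s' hq
      have : (p : ℤ) * l = A.d q * A.s q * l + l := by rw [h10]; ring
      rw [h9]; linarith only [this, Int.natCast_nonneg l]
    obtain ⟨h9, h10⟩ := cl_eZ_hol hq h8
    rw [VH_cl hu, TH_pow_eZ hq, h10, ← cl_neg h9]
    congr 1
    ext
    · simp [car_neg, ← hC, car_gam, T_pow_b, add_comm]
    · simp
  · simpa [cf_zero_T_pow (show 0 < m by omega)] using h6
  · simp [cf_zero_T_pow (show 0 < m by omega), Pi.single_eq_of_ne hc]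

variable (A)

/-- The type of poles. -/
def Pole : Type _ := {q : Option k // q ∈ A.poles}

noncomputable instance : Fintype A.Pole := inferInstanceAs (Fintype {q : Option k // q ∈ A.poles})

/-- The chosen pole. -/
def p0 : A.Pole := ⟨A.q0, mem_poles.mpr A.hq0⟩

/-- The index set. -/
abbrev I : Type _ := Idx (fun q : A.Pole => A.d q.1) A.p0

/-- The slopes. -/
noncomputable def slope (i : A.I) : ℕ := (p - 1) / A.d i.1.1.1 * i.1.2

/-- The class of a logarithmic form. -/
noncomputable def rc (q : Option k) : A.H := A.cl (A.rho q • A.b 1, 0)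

/-- The generators. -/
noncomputable def E (i : A.I) : A.H :=
  if i.1.2 < A.d i.1.1.1 then A.cl (A.eZ i.1.1.1 i.1.2 0) else A.VH (A.rc i.1.1.1)

variable {A}

theorem I_pos (i : A.I) : 0 < A.d i.1.1.1 := mem_poles.mp i.1.1.2

theorem slope_le (i : A.I) : A.slope i ≤ p - 1 := by
  rw [← d_mul_s (I_pos i), mul_comm]
  exact Nat.mul_le_mul_left _ i.2.1

theorem V_rc_sub {q : Option k} (hq : 0 < A.d q) :
    A.VH (A.rc q) - A.rc q ∈ LinearMap.range A.TH := by
  have hp := (Fact.out : p.Prime).two_le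
  have h1 := rho_hol hq 0
  have h2 : ∀ c, car k p (A.rho q • A.b 1) - A.rho q • A.b 1 ∈ A.N c := fun c =>
    sub_mem (car_mem_N (h1 c)) (h1 c)
  rw [rc, VH_cl (hol_mem h1), ← cl_sub (hol_mem fun c => car_mem_N (h1 c)) (hol_mem h1),
    Prod.mk_sub_mk, sub_zero]
  refine hol_in le_rfl h2 ?_
  have h3 : A.cf 1 (car k p (A.rho q • A.b 1) - A.rho q • A.b 1) = 0 := by
    rw [map_sub, cf_mono hp, car_mono, map_sum, Finset.sum_eq_single 0, cf_mono hp]
    · simpa [sub_eq_zero, rho] using car_eq (dlog_mem_Fix_L (p := p) (zz q A.q0))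
    · intro j _ hj
      rw [map_smul, cf_b, if_neg (by omega), smul_zero]
    · simp; omega
  rw [h3, zero_smul]
  exact (cl_zero (A := A)).symm ▸ zero_mem _

theorem rc_mem {b : ℕ} (hb : b ≤ p - 1) (q : Option k) (hq : 0 < A.d q) (h : q ≠ A.q0) :
    A.cl (A.rho q • A.b 1, 0) ∈ slopeFil A.TH A.slope A.E b := by
  let i : A.I := ⟨(⟨q, mem_poles.mpr hq⟩, A.d q), le_rfl, fun h1 => h (congrArg Subtype.val h1.1)⟩
  have h1 : A.E i ∈ slopeFil A.TH A.slope A.E b := mem_slopeFil_E (by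
    show b ≤ A.s q * A.d q
    rwa [mul_comm, d_mul_s hq])
  have h2 : A.E i = A.VH (A.rc q) := if_neg (lt_irrefl _)
  rw [h2] at h1
  have h3 := (slopeFil A.TH A.slope A.E b).sub_mem h1 (mem_slopeFil_T (V_rc_sub hq))
  rwa [sub_sub_cancel] at h3

theorem eZ_mem_slope {b : ℕ} {q : Option k} {l : ℕ} (hq : 0 < A.d q) (hl : l < A.d q)
    (h : ¬(q = A.q0 ∧ l = 0)) (hb : b ≤ A.s q * l) :
    A.cl (A.eZ q l 0) ∈ slopeFil A.TH A.slope A.E b := by
  let i : A.I := ⟨(⟨q, mem_poles.mpr hq⟩, l), hl.le, fun h1 =>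
    h ⟨congrArg Subtype.val h1.1, h1.2.resolve_right hl.ne⟩⟩
  have h2 : A.E i = A.cl (A.eZ q l 0) := if_pos hl
  rw [← h2]
  exact mem_slopeFil_E (m := i) hb

theorem span_E : slopeFil A.TH A.slope A.E 0 = ⊤ := by
  refine top_unique fun u _ => ?_
  obtain ⟨z, hz, rfl⟩ := cl_surj u
  exact cl_in le_sup_right (rc_mem (Nat.zero_le _)) hz (level_expand 0
    (fun q l hq hl h => eZ_mem_slope hq hl h (Nat.zero_le _))
    fun c hc => by rw [hz.1 c hc, map_zero])

theorem exists_Ui (i : A.I) : ∃ (U : A.H) (κ : k), κ ≠ 0 ∧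
    U - κ • A.E i ∈ slopeFil A.TH A.slope A.E (A.slope i + 1) ∧
    A.FH (A.E i) = (A.TH ^ A.slope i) U ∧ A.VH U = -(A.TH ^ (p - 1 - A.slope i)) (A.E i) := by
  have hp := (Fact.out : p.Prime).two_le
  obtain ⟨⟨⟨q, hq'⟩, l⟩, h1, h2⟩ := i
  have hq := mem_poles.mp hq'
  have hs := s_pos hq
  change l ≤ A.d q at h1
  set i : A.I := ⟨⟨⟨q, hq'⟩, l⟩, h1, h2⟩ with hi
  have hsl : A.slope i = A.s q * l := rfl
  rcases h1.eq_or_lt with hl | hl
  · have hE : A.E i = A.VH (A.rc q) := if_neg (by show ¬ l < A.d q; omega)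
    have h3 : A.slope i = p - 1 := by rw [hsl, hl, mul_comm, d_mul_s hq]
    refine ⟨-A.rc q, -1, by simp, ?_, ?_, ?_⟩
    · rw [hE, neg_smul, one_smul, sub_neg_eq_add, neg_add_eq_sub]
      exact mem_slopeFil_T (V_rc_sub hq)
    · rw [hE, FH_VH, h3, TH_nil, LinearMap.zero_apply]
    · rw [hE, h3, map_neg]; simp
  have hE : A.E i = A.cl (A.eZ q l 0) := if_pos hl
  have h3 : A.s q * l < p - 1 := by
    rw [← d_mul_s hq, mul_comm]; exact Nat.mul_lt_mul_of_pos_right hl hs
  have he := eZ_mem hq l 0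
  rw [hE, hsl]
  rcases Nat.eq_zero_or_pos l with hl0 | hl0
  · refine ⟨A.FH (A.cl (A.eZ q l 0)), 1, one_ne_zero, ?_, by simp [hl0], ?_⟩
    · rw [FH_cl he, one_smul, ← cl_sub (F0_mem he) he]
      refine cl_in le_sup_right (rc_mem h3) (sub_mem (F0_mem he) he) ⟨0, 0, zero_mem _, fun c => ?_⟩
      have h4 : A.cf 0 (A.b 0 ^ p) = 1 := by
        rw [b_pow, map_sum, Finset.sum_eq_single 0, cf_mono (by omega)]
        · simp
        · intro j _ hj
          rw [map_smul, cf_b, if_neg (by omega), smul_zero]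
        · simp; omega
      by_cases hc : c = q
      · subst hc
        simp [eZ, hl0, h4, cf_b, show 0 < p by omega]
      · simp [eZ, Pi.single_eq_of_ne hc, show p ≠ 0 by omega]
    · rw [VH_FH, hl0, mul_zero, Nat.sub_zero, TH_nil]; simp
  obtain ⟨u, hu, h4, h5, h6, h7⟩ := exists_U hq hl0 hl
  obtain ⟨κ, hκ, h8, -⟩ := h6.lead
  refine ⟨A.cl u, κ, hκ, ?_, h4, h5⟩
  rw [← cl_smul κ he, ← cl_sub hu (Submodule.smul_mem _ κ he)]
  obtain ⟨z, h9, h10, h11⟩ := local_expand (S := slopeFil A.TH A.slope A.E (A.s q * l + 1)) hq 0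
    (l + 1) (fun l' h9 h10 => eZ_mem_slope hq h10 (by omega)
      (Nat.mul_lt_mul_of_pos_left h9 hs)) h8
  refine cl_in le_sup_right (rc_mem h3) (sub_mem hu (Submodule.smul_mem _ κ he))
    ⟨0, z, h9, fun c => ?_⟩
  by_cases hc : c = q
  · subst hc
    simpa [eZ, cf_b, show 0 < p by omega] using h10
  · simp [eZ, Pi.single_eq_of_ne hc, h7 c hc, h11 c hc]

end ASData

end Pool.Agent.Work.MP_6f9fbb_ag
end

-- merged part: Pool.Agent.Work.MP_6f9fbb_ag.Normal2
section
/-! Linear independence and the normal form theorem. -/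

namespace Pool.Agent.Work.MP_6f9fbb_ag

open scoped Classical

set_option linter.unusedSectionVars false

variable {k : Type*} [Field k] [IsAlgClosed k] {p : ℕ} [Fact p.Prime] [CharP k p]
  {K : Type*} [Field K] [Algebra k K] [Algebra (RatFunc k) K] [IsScalarTower k (RatFunc k) K]
  [Algebra.IsSeparable (RatFunc k) K] [CharP K p] [CharP (RatFunc k) p]

namespace ASData

variable (A : ASData k p K)

/-- The forms attached to the indices. -/
noncomputable def eta (i : A.I) : RatFunc k :=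
  if i.1.2 < A.d i.1.1.1 then A.th i.1.1.1 i.1.2 else A.rho i.1.1.1

/-- The local functions attached to the indices. -/
noncomputable def mu (i : A.I) : Option k → RatFunc k :=
  if i.1.2 < A.d i.1.1.1 then Pi.single i.1.1.1 (tt i.1.1.1 ^ i.1.2) else 0

variable {A}

theorem cl_sum {ι : Type*} (s : Finset ι) {z : ι → K × (Option k → K)} (h : ∀ i, z i ∈ A.Z) :
    A.cl (∑ i ∈ s, z i) = ∑ i ∈ s, A.cl (z i) := by
  induction s using Finset.induction_on with
  | empty => simpa using cl_zero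
  | insert a s ha ih =>
    rw [Finset.sum_insert ha, Finset.sum_insert ha,
      cl_add (h a) (Submodule.sum_mem _ fun i _ => h i), ih]

theorem I_ne (i : A.I) (h : ¬ i.1.2 < A.d i.1.1.1) : i.1.1.1 ≠ A.q0 ∧ i.1.2 = A.d i.1.1.1 := by
  have h1 : i.1.2 = A.d i.1.1.1 := le_antisymm i.2.1 (not_lt.mp h)
  exact ⟨fun h2 => i.2.2 ⟨Subtype.ext h2, Or.inr h1⟩, h1⟩

theorem hasOrd_eta (i : A.I) :
    HasOrd i.1.1.1 (i.1.2 - A.d i.1.1.1 + ep i.1.1.1) (A.eta i) := by
  unfold eta
  split_ifs with h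
  · exact hasOrd_th h
  · exact (hasOrd_rho (I_ne i h).1).cast (by rw [(I_ne i h).2]; ring)

theorem eta_indep {g : A.I → k} (hg : ∑ i, g i • A.eta i = 0) (i : A.I) : g i = 0 := by
  by_contra h0
  set q := i.1.1.1 with hq
  let m : ℤ := if q = A.q0 then ep q else 1 + ep q
  have h1 : ∀ j : A.I, j.1.1.1 ≠ q → A.eta j ∈ Fil q m := by
    intro j hj
    have h2 : m ≤ 1 + ep q := by simp only [m]; split_ifs <;> omega
    unfold eta
    split_ifs
    · exact Fil_mono (A.th_away _ _ hj.symm) h2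
    · by_cases h3 : q = A.q0
      · simpa [m, h3] using rho_mem _ A.q0
      · simpa [m, h3] using rho_away hj.symm h3
  have h2 : ∀ j : A.I, g j ≠ 0 → j.1.1.1 = q → HasOrd q (j.1.2 - A.d q + ep q) (g j • A.eta j) := by
    intro j hj h3
    rw [RatFunc.smul_eq_C_mul, ← h3]
    exact ((hasOrd_C hj).mul (hasOrd_eta j)).cast (zero_add _)
  rw [← Finset.sum_filter_add_sum_filter_not Finset.univ fun j : A.I => j.1.1.1 = q,
    add_eq_zero_iff_eq_neg] at hg
  have h3 := val_le_sum (vv q) (Finset.univ.filter fun j : A.I => j.1.1.1 = q)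
    (fun j => g j • A.eta j) (i := i) ?_ (by simp [hq])
  · rw [hg] at h3
    have h4 := (h2 i h0 rfl).le (h3.trans (neg_mem (Submodule.sum_mem (Fil q m) fun j hj =>
      Submodule.smul_mem _ _ (h1 j (Finset.mem_filter.mp hj).2))))
    by_cases h5 : i.1.2 < A.d q
    · simp only [m] at h4; split_ifs at h4 <;> omega
    · have := I_ne i h5
      rw [← hq] at this
      simp only [m, if_neg this.1] at h4; omega
  · intro a ha b hb hab h4 h5
    have ha0 : g a ≠ 0 := by rintro h8; simp [h8] at h4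
    have hb0 : g b ≠ 0 := by rintro h8; rw [h5] at h4; simp [h8] at h4
    have ha' := (Finset.mem_filter.mp ha).2
    have hb' := (Finset.mem_filter.mp hb).2
    rw [h2 a ha0 ha', h2 b hb0 hb', WithZero.exp_inj] at h5
    exact hab (Subtype.ext (Prod.ext (Subtype.ext (ha'.trans hb'.symm)) (by omega)))

theorem mu_mem (i : A.I) (c : Option k) : A.mu i c ∈ Fil c (if c = A.q0 then 1 else 0) := by
  unfold mu
  by_cases h : i.1.2 < A.d i.1.1.1
  · rw [if_pos h]
    by_cases hc : c = i.1.1.1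
    · rw [hc, Pi.single_eq_same]
      refine Fil_mono (Fil_pow tt_mem _) ?_
      split_ifs with h1
      · have : i.1.2 ≠ 0 := fun h2 => i.2.2 ⟨Subtype.ext h1, Or.inl h2⟩
        omega
      · omega
    · rw [Pi.single_eq_of_ne hc]; exact zero_mem _
  · rw [if_neg h]; exact zero_mem _

theorem indep_E0 : LinearIndependent k fun i : A.I => (A.TH ^ (p - 1 - 1))
    (if i.1.2 < A.d i.1.1.1 then A.cl (A.eZ i.1.1.1 i.1.2 0) else A.rc i.1.1.1) := by
  have hp := (Fact.out : p.Prime).two_le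
  let z : A.I → K × (Option k → K) := fun i =>
    (A.eta i • A.b (p - 1), fun c => A.mu i c • A.b (p - 2))
  have h1 : ∀ i : A.I, z i ∈ A.Z ∧ (A.TH ^ (p - 1 - 1))
      (if i.1.2 < A.d i.1.1.1 then A.cl (A.eZ i.1.1.1 i.1.2 0) else A.rc i.1.1.1) = A.cl (z i) := by
    intro i
    by_cases h : i.1.2 < A.d i.1.1.1
    · have h2 : z i = A.eZ i.1.1.1 i.1.2 (p - 1 - 1) := by
        simp only [z, eta, mu, if_pos h, eZ,
          show p - 1 - 1 = p - 2 by omega, show p - 2 + 1 = p - 1 by omega]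
        congr 1
        funext c
        by_cases hc : c = i.1.1.1
        · rw [hc, Pi.single_eq_same, Pi.single_eq_same]
        · rw [Pi.single_eq_of_ne hc, Pi.single_eq_of_ne hc, zero_smul]
      rw [if_pos h, TH_pow_eZ (I_pos i), h2]
      exact ⟨eZ_mem (I_pos i) _ _, rfl⟩
    · have h2 : z i = (A.rho i.1.1.1 • A.b (p - 1 - 1 + 1), 0) := by
        simp only [z, eta, mu, if_neg h, show p - 1 - 1 + 1 = p - 1 by omega, Pi.zero_apply,
          zero_smul]
        rfl
      rw [if_neg h, rc, TH_pow_hol (rho_hol (I_pos i) 0), map_smul, T_pow_b, h2, add_comm 1]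
      exact ⟨hol_mem (rho_hol (I_pos i) _), rfl⟩
  rw [Fintype.linearIndependent_iff]
  intro g hg
  simp only [(h1 _).2] at hg
  have h2 : ∀ i, g i • z i ∈ A.Z := fun i => Submodule.smul_mem _ _ (h1 i).1
  have h3 : A.cl (∑ i, g i • z i) = A.cl 0 := by
    rw [cl_sum _ h2, cl_zero, ← hg]
    exact Finset.sum_congr rfl fun i _ => cl_smul _ (h1 i).1
  obtain ⟨u, h4, h5⟩ := (cl_eq_iff (Submodule.sum_mem _ fun i _ => h2 i) (zero_mem _)).mp h3
  have h6 : ∀ c, ∑ i, g i • A.mu i c ∈ Fil c (if c = A.q0 then 1 else 0) := fun c =>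
    Submodule.sum_mem _ fun i _ => Submodule.smul_mem _ _ (mu_mem i c)
  have h7 : der k K u = 0 := der_eq_zero (A := A) (μ := fun c => ∑ i, g i • A.mu i c)
    (fun c => Fil_mono (h6 c) (by split_ifs <;> omega)) (by simpa using h6 A.q0) fun c => by
      simpa [z, Prod.snd_sum, Finset.sum_smul] using h5 c
  refine eta_indep ?_
  have h8 : (∑ i, g i • A.eta i) • A.b (p - 1) = 0 := by
    simpa [z, Prod.fst_sum, Finset.sum_smul, h7] using h4
  rwa [smul_last, map_eq_zero] at h8

variable (A) in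
theorem normalForm : NormalForm A.FH A.VH A.slope (p - 1) := by
  choose U κ h1 h2 h3 h4 using exists_Ui (A := A)
  exact normalForm_of (F := A.FH) (V := A.VH) (T := A.TH) (E := A.E) (FH_TH (A := A))
    (VH_TH (A := A)) A.TH_nil slope_le h1 span_E h2 h3 h4 indep_E0

end ASData

end Pool.Agent.Work.MP_6f9fbb_ag
end

-- merged part: Pool.Agent.Work.MP_6f9fbb_ag.Cech
section
/-! Comparison of the Cech and the adelic cohomology. -/

namespace Pool.Agent.Work.MP_6f9fbb_ag

open KaehlerDifferential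
open scoped Classical

set_option linter.unusedSectionVars false

variable {k : Type*} [Field k] [IsAlgClosed k] {p : ℕ} [Fact p.Prime] [CharP k p]
  {K : Type*} [Field K] [Algebra k K] [Algebra (RatFunc k) K] [IsScalarTower k (RatFunc k) K]
  [Algebra.IsSeparable (RatFunc k) K] [CharP K p] [CharP (RatFunc k) p]

theorem xx_eq : xx k K = algebraMap (RatFunc k) K (tt none)⁻¹ := by simp [xx, tt]

theorem xx_inv_eq : (xx k K)⁻¹ = algebraMap (RatFunc k) K (tt (some 0))⁻¹ := by simp [xx, tt]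

namespace ASData

variable (A : ASData k p K)

theorem fun0 {g : K} : g ∈ regFun k {xx k K} ↔ ∀ c, c ≠ none → g ∈ A.M c := by
  rw [xx_eq]; exact A.mem_regFun_one _

theorem fun1 {g : K} : g ∈ regFun k {(xx k K)⁻¹} ↔ ∀ c, c ≠ some 0 → g ∈ A.M c := by
  rw [xx_inv_eq]; exact A.mem_regFun_one _

theorem fun01 {g : K} :
    g ∈ regFun k {xx k K, (xx k K)⁻¹} ↔ ∀ c, c ≠ none ∧ c ≠ some 0 → g ∈ A.M c := by
  rw [xx_inv_eq, xx_eq]; exact A.mem_regFun_two _ _

theorem form0 {w : Ω[K⁄k]} : w ∈ regForm k {xx k K} ↔ ∀ c, c ≠ none → coord k K w ∈ A.N c := by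
  rw [xx_eq]; exact A.mem_regForm_iff _

theorem form1 {w : Ω[K⁄k]} :
    w ∈ regForm k {(xx k K)⁻¹} ↔ ∀ c, c ≠ some 0 → coord k K w ∈ A.N c := by
  rw [xx_inv_eq]; exact A.mem_regForm_iff _

theorem coord_snd (z : cocycles k (xx k K)) :
    coord k K z.1.2.1 = coord k K z.1.1 - der k K z.1.2.2 := by
  rw [← coord_D, z.2.2.2.2, map_sub, sub_sub_cancel]

theorem toZ_mem (z : cocycles k (xx k K)) :
    ((coord k K z.1.1, Pi.single none z.1.2.2) : K × (Option k → K)) ∈ A.Z := by
  refine ⟨fun c hc => Pi.single_eq_of_ne (by rintro rfl; exact hc (none_mem_bad _)) _, fun c => ?_⟩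
  by_cases hc : c = none
  · subst hc
    simpa [← coord_snd] using A.form1.mp z.2.2.1 none (by simp)
  · simpa [Pi.single_eq_of_ne hc] using A.form0.mp z.2.1 c hc

/-- The comparison map on cocycles. -/
noncomputable def toH : cocycles k (xx k K) →ₗ[k] A.H where
  toFun z := A.cl (coord k K z.1.1, Pi.single none z.1.2.2)
  map_add' a b := by
    rw [← cl_add (A.toZ_mem a) (A.toZ_mem b)]
    simp [Pi.single_add]
  map_smul' r a := by
    have h : coord k K (r • a.1.1) = r • coord k K a.1.1 := by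
      rw [LinearMapClass.map_smul_of_tower]
    rw [RingHom.id_apply, ← cl_smul r (A.toZ_mem a)]
    simp [Pi.single_smul', h]

theorem toH_apply (z : cocycles k (xx k K)) :
    A.toH z = A.cl (coord k K z.1.1, Pi.single none z.1.2.2) := rfl

theorem ker_toH :
    (coboundaries k (xx k K)).submoduleOf (cocycles k (xx k K)) = LinearMap.ker A.toH := by
  ext z
  rw [LinearMap.mem_ker, toH_apply, ← cl_zero, cl_eq_iff (A.toZ_mem z) (zero_mem _)]
  simp only [Prod.fst_zero, Prod.snd_zero, Pi.zero_apply, sub_zero]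
  constructor
  · rintro ⟨g0, h0, g1, h1, h⟩
    have h2 : z.1 = (D k K g0, D k K g1, g0 - g1) := h
    refine ⟨g0, by rw [h2, coord_D], fun c => ?_⟩
    by_cases hc : c = none
    · subst hc
      simpa [h2] using A.fun1.mp h1 none (by simp)
    · simpa [Pi.single_eq_of_ne hc] using A.fun0.mp h0 c hc
  · rintro ⟨g, h1, h2⟩
    have h3 : ∀ c, c ≠ none → g ∈ A.M c := fun c hc => by
      simpa [Pi.single_eq_of_ne hc] using h2 c
    have h4 : z.1.1 = D k K g := (coord k K).injective h1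
    refine ⟨g, A.fun0.mpr h3, g - z.1.2.2, A.fun1.mpr fun c hc => ?_, ?_⟩
    · by_cases h5 : c = none
      · subst h5
        simpa using neg_mem (h2 none)
      · exact sub_mem (h3 c h5) (A.fun01.mp z.2.2.2.1 c ⟨h5, hc⟩)
    · show z.1 = _
      rw [map_sub, z.2.2.2.2, ← h4, sub_sub_cancel, sub_sub_cancel]

theorem toH_surj : Function.Surjective A.toH := by
  intro u
  obtain ⟨z, hz, rfl⟩ := cl_surj u
  obtain ⟨h, h1⟩ := exists_approxK hz.1 none
  obtain ⟨g, h2⟩ := exists_approxK (A := A) (a := Pi.single none (z.2 none - h))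
    (fun c hc => Pi.single_eq_of_ne (by rintro rfl; exact hc (none_mem_bad _)) _) (some 0)
  have h3 : ∀ c, c ≠ none → z.1 - der k K h ∈ A.N c := fun c hc => by
    simpa using add_mem (hz.2 c) (der_mem_N (h1 c hc))
  have h4 : ∀ c, c ≠ none ∧ c ≠ some 0 → g ∈ A.M c := fun c hc => by
    simpa [Pi.single_eq_of_ne hc.1] using h2 c hc.2
  have h5 : z.2 none - h - g ∈ A.M none := by simpa using h2 none (by simp)
  let z' : cocycles k (xx k K) := ⟨((coord k K).symm (z.1 - der k K h),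
    (coord k K).symm (z.1 - der k K h) - D k K g, g),
    A.form0.mpr (by simpa using h3), A.form1.mpr (fun c hc => by
      simp only [map_sub, LinearEquiv.apply_symm_apply, coord_D]
      by_cases h6 : c = none
      · subst h6
        convert add_mem (hz.2 none) (der_mem_N h5) using 1
        simp only [map_sub]; abel
      · exact sub_mem (h3 c h6) (der_mem_N (h4 c ⟨h6, hc⟩))), A.fun01.mpr h4, by simp⟩
  refine ⟨z', ((cl_eq_iff hz (A.toZ_mem z')).mpr ⟨h, by simp [z'], fun c => ?_⟩).symm⟩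
  by_cases hc : c = none
  · subst hc
    simpa [z', sub_right_comm] using h5
  · simpa [Pi.single_eq_of_ne hc] using h1 c hc

/-- The comparison isomorphism. -/
noncomputable def cmp : HdR k (xx k K) ≃ₗ[k] A.H :=
  (Submodule.quotEquivOfEq _ _ A.ker_toH).trans (A.toH.quotKerEquivOfSurjective A.toH_surj)

theorem rep_iff {w0 w1 : Ω[K⁄k]} {g : K} {u : HdR k (xx k K)} : Rep k (xx k K) w0 w1 g u ↔
    (w0, w1, g) ∈ cocycles k (xx k K) ∧ A.cmp u = A.cl (coord k K w0, Pi.single none g) := by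
  constructor
  · rintro ⟨h, rfl⟩
    exact ⟨h, rfl⟩
  · rintro ⟨h, h1⟩
    exact ⟨h, A.cmp.injective h1⟩

/-- Frobenius on the Cech cohomology. -/
noncomputable def FC : HdR k (xx k K) →ₛₗ[frobenius k p] HdR k (xx k K) :=
  (A.cmp.symm.toLinearMap.comp A.FH).comp A.cmp.toLinearMap

/-- Verschiebung on the Cech cohomology. -/
noncomputable def VC :
    HdR k (xx k K) →ₛₗ[((frobeniusEquiv k p).symm : k →+* k)] HdR k (xx k K) :=
  (A.cmp.symm.toLinearMap.comp A.VH).comp A.cmp.toLinearMap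

theorem isFrob_FC : IsFrob k p (xx k K) A.FC := by
  intro w0 w1 g u h
  obtain ⟨h1, h2⟩ := A.rep_iff.mp h
  refine A.rep_iff.mpr ⟨⟨zero_mem _, zero_mem _, pow_mem_regFun h1.2.2.1 p, ?_⟩, ?_⟩
  · apply (coord k K).injective
    simp [coord_D]
  · show A.cmp (A.cmp.symm (A.FH (A.cmp _))) = _
    rw [LinearEquiv.apply_symm_apply, h2, FH_cl (A.toZ_mem ⟨_, h1⟩)]
    congr 1
    ext c
    · simp
    · by_cases hc : c = none
      · subst hc; simp
      · simp [Pi.single_eq_of_ne hc, (Fact.out : p.Prime).ne_zero]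

theorem isVer_VC : IsVer k p (xx k K) A.VC := by
  intro w0 w1 g u h
  obtain ⟨h0, h3⟩ := A.rep_iff.mp h
  have h1 : ∀ c, car k p (coord k K w0) ∈ A.N c :=
    car_hol (z := (coord k K w0, Pi.single none g)) (A.toZ_mem ⟨_, h0⟩)
  have h2 : car k p (coord k K w1) = car k p (coord k K w0) := by
    rw [show coord k K w1 = _ from coord_snd ⟨_, h0⟩, car_sub, car_of_mem (der_mem_Ex _), sub_zero]
  refine ⟨_, _, fun w => isCartier_iff _ w, fun w => isCartier_iff _ w, A.rep_iff.mpr
    ⟨⟨A.form0.mpr fun c _ => by simpa using h1 c, A.form1.mpr fun c _ => by simpa [h2] using h1 c,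
      zero_mem _, by simp [h2]⟩, ?_⟩⟩
  show A.cmp (A.cmp.symm (A.VH (A.cmp _))) = _
  rw [LinearEquiv.apply_symm_apply, h3, VH_cl (A.toZ_mem ⟨_, h0⟩)]
  simp

theorem normalForm_cech : NormalForm A.FC A.VC A.slope (p - 1) :=
  A.normalForm.transfer A.cmp.symm fun u => by simp [FC, VC]

end ASData

end Pool.Agent.Work.MP_6f9fbb_ag
end

-- merged part: Pool.Agent.Work.MP_6f9fbb_ag.Final
section
/-! Matching of the index sets and the final theorem. -/

namespace Pool.Agent.Work.MP_6f9fbb_ag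

open Polynomial
open scoped Classical

set_option linter.unusedSectionVars false

theorem card_fiber {δ γ : Type*} (s : Finset δ) (f : δ → γ) (c : γ) :
    Fintype.card {a : {a // a ∈ s} // f a.1 = c} = (s.val.map f).count c := by
  rw [Fintype.card_subtype, ← Multiset.attach_map_val' s.val f, Multiset.count_map,
    Finset.card_def, Finset.filter_val]
  simp only [eq_comm]
  rfl

theorem exists_equiv_of_map_eq {α β γ : Type*} (s : Finset α) (t : Finset β) (f : α → γ)
    (g : β → γ) (h : s.val.map f = t.val.map g) :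
    ∃ e : {a // a ∈ s} ≃ {b // b ∈ t}, ∀ a, g (e a).1 = f a.1 :=
  ⟨Equiv.ofFiberEquiv (f := fun a : {a // a ∈ s} => f a.1) (g := fun b : {b // b ∈ t} => g b.1)
    fun c => Fintype.equivOfCardEq (by rw [card_fiber, card_fiber, h]),
    fun a => Equiv.ofFiberEquiv_map (f := fun a : {a // a ∈ s} => f a.1)
      (g := fun b : {b // b ∈ t} => g b.1) _ a⟩

variable {k : Type*} [Field k] [IsAlgClosed k] {p : ℕ} [Fact p.Prime] [CharP k p]

theorem poleOrders_eq (f : RatFunc k) :
    poleOrders f = ((bad f).filter fun c => 0 < pd f c).val.map (pd f) := by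
  have h1 : ((f.denom.roots.toFinset.image some).filter fun c => 0 < pd f c) =
      f.denom.roots.toFinset.image some := by
    refine Finset.filter_true_of_mem fun c hc => ?_
    obtain ⟨a, ha, rfl⟩ := Finset.mem_image.mp hc
    exact rootMultiplicity_pos'.mpr (by simpa using ha)
  have h2 : (f.denom.roots.toFinset.image some).val.map (pd f) =
      f.denom.roots.toFinset.val.map fun c => f.denom.rootMultiplicity c := by
    rw [Finset.image_val_of_injOn (Option.some_injective k).injOn, Multiset.map_map]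
    rfl
  rw [poleOrders, bad, Finset.filter_insert, h1, ← h2]
  by_cases h : 0 < f.intDegree
  · rw [if_pos h, if_pos (by simpa [pd] using h), Finset.insert_val_of_notMem (by simp),
      Multiset.map_cons, add_comm, Multiset.singleton_add]
    rfl
  · rw [if_neg h, if_neg (by simpa [pd] using h), add_zero]

theorem NormalForm.reindex {H : Type*} [AddCommGroup H] [Module k H]
    {F : H →ₛₗ[frobenius k p] H} {V : H →ₛₗ[((frobeniusEquiv k p).symm : k →+* k)] H}
    {I I' : Type*} {a : I → ℕ} {a' : I' → ℕ} {e : ℕ} (h : NormalForm F V a' e) (φ : I ≃ I')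
    (hφ : ∀ i, a' (φ i) = a i) : NormalForm F V a e := by
  obtain ⟨b, G, h1, h2, h3⟩ := h
  exact ⟨b.reindex (φ.symm.prodCongr (Equiv.refl _)), fun i => G (φ i), fun i r => by simp [h1],
    fun i => h2 (φ i), fun i r => hφ i ▸ h3 (φ i) r⟩

theorem isSeparable_of_AS {K : Type*} [Field K] [Algebra (RatFunc k) K] {f : RatFunc k} {y : K}
    (hy : y ^ p - y = algebraMap (RatFunc k) K f)
    (hK : IntermediateField.adjoin (RatFunc k) {y} = ⊤) : Algebra.IsSeparable (RatFunc k) K := by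
  have h1 := separable_C_mul_X_pow_add_C_mul_X_add_C' p p (1 : RatFunc k) (-1) (-f) dvd_rfl
    isUnit_neg_one
  have h2 : IsSeparable (RatFunc k) y := h1.of_dvd (minpoly.dvd _ _ (by
    simp only [map_add, map_mul, aeval_C, map_pow, aeval_X, map_neg, map_one, ← hy]; ring))
  have h3 := (IntermediateField.isSeparable_adjoin_simple_iff_isSeparable (RatFunc k) K).mpr h2
  rw [hK] at h3
  exact AlgEquiv.Algebra.isSeparable IntermediateField.topEquiv

theorem adjoin_top {E : Type*} [Field E] [Algebra (RatFunc k) E]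
    [Algebra.IsSeparable (RatFunc k) E] {y : E}
    (h : IntermediateField.adjoin (RatFunc k) {y} = ⊤) : Algebra.adjoin (RatFunc k) {y} = ⊤ := by
  rw [← IntermediateField.adjoin_simple_toSubalgebra_of_isAlgebraic
    (Algebra.IsAlgebraic.isAlgebraic _), h, IntermediateField.top_toSubalgebra]

theorem main (K K' : Type*) [Field K] [Field K'] [Algebra k K] [Algebra k K']
    [Algebra (RatFunc k) K] [Algebra (RatFunc k) K']
    [IsScalarTower k (RatFunc k) K] [IsScalarTower k (RatFunc k) K']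
    (f f' : RatFunc k) (y : K) (y' : K')
    (hy : y ^ p - y = algebraMap (RatFunc k) K f)
    (hy' : y' ^ p - y' = algebraMap (RatFunc k) K' f')
    (hK : IntermediateField.adjoin (RatFunc k) {y} = ⊤)
    (hK' : IntermediateField.adjoin (RatFunc k) {y'} = ⊤)
    (hf : ∀ a : k, f ≠ RatFunc.C a)
    (hff : poleOrders f = poleOrders f')
    (hd : ∀ d ∈ poleOrders f, d ∣ p - 1)
    (x : K) (hx : x = algebraMap (RatFunc k) K RatFunc.X)
    (x' : K') (hx' : x' = algebraMap (RatFunc k) K' RatFunc.X) :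
    ∃ (F : HdR k x →ₛₗ[frobenius k p] HdR k x)
      (V : HdR k x →ₛₗ[((frobeniusEquiv k p).symm : k →+* k)] HdR k x)
      (F' : HdR k x' →ₛₗ[frobenius k p] HdR k x')
      (V' : HdR k x' →ₛₗ[((frobeniusEquiv k p).symm : k →+* k)] HdR k x'),
      IsFrob k p x F ∧ IsVer k p x V ∧ IsFrob k p x' F' ∧ IsVer k p x' V' ∧
      Module.Finite k (HdR k x) ∧
      Module.finrank k (HdR k x) = (((poleOrders f).map (· + 1)).sum - 2) * (p - 1) ∧
      (∃ e : HdR k x ≃ₗ[k] HdR k x', ∀ h, e (F h) = F' (e h) ∧ e (V h) = V' (e h)) ∧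
      finalType F V = finalType F' V' := by
  subst hx hx'
  have := isSeparable_of_AS hy hK
  have := isSeparable_of_AS hy' hK'
  have : CharP K p := charP_of_injective_algebraMap (algebraMap k K).injective p
  have : CharP K' p := charP_of_injective_algebraMap (algebraMap k K').injective p
  have : CharP (RatFunc k) p := charP_of_injective_algebraMap (algebraMap k _).injective p
  have hmem : ∀ (g : RatFunc k) c, 0 < pd g c → c ∈ (bad g).filter fun c => 0 < pd g c :=
    fun g c hc => Finset.mem_filter.mpr ⟨by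
      by_contra h; exact hc.ne' (pd_of_not_mem_bad h), hc⟩
  have hpo : ∀ (g : RatFunc k) c, 0 < pd g c → pd g c ∈ poleOrders g := fun g c hc => by
    rw [poleOrders_eq]; exact Multiset.mem_map_of_mem _ (hmem g c hc)
  obtain ⟨q0, hq0⟩ : ∃ q0, 0 < pd f q0 := by
    by_contra h
    push Not at h
    obtain ⟨a, ha⟩ := exists_const (h := f) fun c => by
      simpa [Nat.le_zero.mp (h c)] using pd_mem f c
    exact hf a ha
  obtain ⟨φ, hφ⟩ := exists_equiv_of_map_eq _ _ _ _
    ((poleOrders_eq f).symm.trans (hff.trans (poleOrders_eq f')))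
  let A : ASData k p K := ⟨f, y, hy, adjoin_top hK, q0, hq0, fun c hc => hd _ (hpo f c hc)⟩
  let A' : ASData k p K' := ⟨f', y', hy', adjoin_top hK', (φ A.p0).1, (hφ _).symm ▸ hq0,
    fun c hc => hd _ (hff ▸ hpo f' c hc)⟩
  let φ' : A.Pole ≃ A'.Pole := φ
  have hφ' : ∀ q, A'.d (φ' q).1 = A.d q.1 := hφ
  have h0 : A'.p0 = φ' A.p0 := rfl
  let ψ : A.I ≃ A'.I := Equiv.subtypeEquiv (φ'.prodCongr (Equiv.refl ℕ)) fun x => by
    simp [hφ', h0]
  have h1 := A.normalForm_cech
  have h2 := A'.normalForm_cech.reindex ψ (a := A.slope) fun i => by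
    show (p - 1) / A'.d (φ' i.1.1).1 * i.1.2 = _
    rw [hφ']; rfl
  obtain ⟨e, he⟩ := h1.iso h2
  refine ⟨A.FC, A.VC, A'.FC, A'.VC, A.isFrob_FC, A.isVer_VC, A'.isFrob_FC, A'.isVer_VC,
    h1.finrank.1, ?_, ⟨e, he⟩, finalType_iso e he⟩
  refine h1.finrank.2.trans ?_
  rw [card_Idx (fun q : A.Pole => A.d q.1) A.p0 hq0, poleOrders_eq, Multiset.map_map]
  congr 2
  exact Finset.sum_coe_sort A.poles fun c => pd f c + 1

theorem Dieudonne.unique {K : Type*} [Field K] [Algebra k K] {x : K} (D D' : Dieudonne k p x) :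
    D.F = D'.F ∧ D.V = D'.V := by
  have h1 : ∀ u : HdR k x, ∃ w0 w1 g, Rep k x w0 w1 g u := fun u => by
    obtain ⟨z, rfl⟩ := Submodule.Quotient.mk_surjective _ u
    exact ⟨z.1.1, z.1.2.1, z.1.2.2, z.2, rfl⟩
  have h2 : ∀ {w0 w1 g} {u u' : HdR k x}, Rep k x w0 w1 g u → Rep k x w0 w1 g u' → u = u' := by
    rintro w0 w1 g _ _ ⟨_, rfl⟩ ⟨_, rfl⟩
    rfl
  refine ⟨LinearMap.ext fun u => ?_, LinearMap.ext fun u => ?_⟩
  · obtain ⟨w0, w1, g, h⟩ := h1 u
    exact h2 (D.isFrob _ _ _ _ h) (D'.isFrob _ _ _ _ h)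
  · obtain ⟨w0, w1, g, h⟩ := h1 u
    obtain ⟨c0, c1, h3, h4, h5⟩ := D.isVer _ _ _ _ h
    obtain ⟨d0, d1, h6, h7, h8⟩ := D'.isVer _ _ _ _ h
    obtain rfl := (h6 c0).mp ((h3 c0).mpr rfl)
    obtain rfl := (h7 c1).mp ((h4 c1).mpr rfl)
    exact h2 h5 h8

theorem main' (K K' : Type*) [Field K] [Field K'] [Algebra k K] [Algebra k K']
    [Algebra (RatFunc k) K] [Algebra (RatFunc k) K']
    [IsScalarTower k (RatFunc k) K] [IsScalarTower k (RatFunc k) K']
    (f f' : RatFunc k) (y : K) (y' : K')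
    (hy : IsArtinSchreier p f y) (hy' : IsArtinSchreier p f' y')
    (hf : ∀ a : k, f ≠ RatFunc.C a)
    (hff : poleOrders f = poleOrders f')
    (hd : ∀ d ∈ poleOrders f, d ∣ p - 1)
    (x : K) (hx : x = algebraMap (RatFunc k) K RatFunc.X)
    (x' : K') (hx' : x' = algebraMap (RatFunc k) K' RatFunc.X) :
    Module.Finite k (HdR k x) ∧
    Module.finrank k (HdR k x) = (((poleOrders f).map (· + 1)).sum - 2) * (p - 1) ∧
    Nonempty (Dieudonne k p x) ∧ Nonempty (Dieudonne k p x') ∧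
    ∀ (D : Dieudonne k p x) (D' : Dieudonne k p x'),
      FVIso D.F D.V D'.F D'.V ∧ finalType D.F D.V = finalType D'.F D'.V := by
  obtain ⟨F, V, F', V', h1, h2, h3, h4, h5, h6, h7, h8⟩ := main K K' f f' y y' hy.1 hy'.1
    (eq_top_iff.mpr fun g _ => hy.2 g) (eq_top_iff.mpr fun g _ => hy'.2 g) hf hff hd x hx x' hx'
  refine ⟨h5, h6, ⟨⟨F, V, h1, h2⟩⟩, ⟨⟨F', V', h3, h4⟩⟩, fun D D' => ?_⟩
  obtain ⟨e1, e2⟩ := D.unique ⟨F, V, h1, h2⟩
  obtain ⟨e3, e4⟩ := D'.unique ⟨F', V', h3, h4⟩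
  rw [e1, e2, e3, e4]
  exact ⟨h7, h8⟩

end Pool.Agent.Work.MP_6f9fbb_ag
end
end
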